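import Pool.Agent.Work.MP_157c12_gt.TT.Stmts

/-!
# Item SL1: the mean curvature is constant
-/

open TopologicalSpace
open scoped Manifold ContDiff

namespace Pool.Agent.Work.MP_157c12_gt.TT

open Pool.Agent.Work.MP_157c12_gt

namespace ItemSL1

section Alg

variable {R : Type} [CommRing R] [Algebra ℝ R]

/-- coefficients of the first fundamental form -/
def ff (D D' : Derivation ℝ R R) (x : Fin 3 → R) : R :=
  dot (fun a => D (x a)) (fun a => D' (x a))

/-- the Laplace operator -/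
def Lp (D0 D1 : Derivation ℝ R R) (x : Fin 3 → R) (Wi f : R) : R :=
  Wi * (D0 (Wi * (ff D1 D1 x * D0 f - ff D0 D1 x * D1 f)) +
    D1 (Wi * (ff D0 D0 x * D1 f - ff D0 D1 x * D0 f)))

/-- the data of a patch -/
structure Dat (D0 D1 : Derivation ℝ R R) (a b : ℝ) (x : Fin 3 → R) (W Wi h : R) : Prop where
  comm : ∀ f, D0 (D1 f) = D1 (D0 f)
  w1 : W * Wi = 1
  w2 : W ^ 2 = ff D0 D0 x * ff D1 D1 x - ff D0 D1 x ^ 2
  eq : ∀ i, Lp D0 D1 x Wi (Lp D0 D1 x Wi (x i)) + algebraMap ℝ R a * Lp D0 D1 x Wi (x i)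
    + algebraMap ℝ R b * x i = 0
  hh : h = ∑ i, Lp D0 D1 x Wi (x i) *
    (Wi * cross (fun a => D0 (x a)) (fun a => D1 (x a)) i)

/-- square of the length of the gradient of `h` -/
def gr (D0 D1 : Derivation ℝ R R) (x : Fin 3 → R) (Wi h : R) : R :=
  Wi ^ 2 * (ff D1 D1 x * D0 h ^ 2 - 2 * ff D0 D1 x * D0 h * D1 h + ff D0 D0 x * D1 h ^ 2)

section Map

variable {R' : Type} [CommRing R'] [Algebra ℝ R'] (φ : R →ₐ[ℝ] R')

lemma map_dot (v w : Fin 3 → R) : φ (dot v w) = dot (fun a => φ (v a)) (fun a => φ (w a)) := by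
  simp [dot]

lemma map_cross (v w : Fin 3 → R) (i : Fin 3) :
    φ (cross v w i) = cross (fun a => φ (v a)) (fun a => φ (w a)) i := by
  fin_cases i <;> simp [cross]

lemma map_ff {D D' : Derivation ℝ R R} {F F' : Derivation ℝ R' R'}
    (h : ∀ f, φ (D f) = F (φ f)) (h' : ∀ f, φ (D' f) = F' (φ f)) (x : Fin 3 → R) :
    φ (ff D D' x) = ff F F' (fun a => φ (x a)) := by
  unfold ff
  rw [map_dot]
  simp only [h, h']

variable {D0 D1 : Derivation ℝ R R} {F0 F1 : Derivation ℝ R' R'}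

lemma map_Lp (h0 : ∀ f, φ (D0 f) = F0 (φ f)) (h1 : ∀ f, φ (D1 f) = F1 (φ f))
    (x : Fin 3 → R) (Wi f : R) :
    φ (Lp D0 D1 x Wi f) = Lp F0 F1 (fun a => φ (x a)) (φ Wi) (φ f) := by
  unfold Lp
  simp only [map_mul, map_add, map_sub, h0, h1, map_ff φ h0 h1, map_ff φ h0 h0, map_ff φ h1 h1]

lemma map_gr (h0 : ∀ f, φ (D0 f) = F0 (φ f)) (h1 : ∀ f, φ (D1 f) = F1 (φ f))
    (x : Fin 3 → R) (Wi f : R) :
    φ (gr D0 D1 x Wi f) = gr F0 F1 (fun a => φ (x a)) (φ Wi) (φ f) := by
  unfold gr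
  simp only [map_mul, map_add, map_sub, map_pow, h0, h1, map_ff φ h0 h1, map_ff φ h0 h0,
    map_ff φ h1 h1, map_ofNat]

lemma Dat.map (h0 : ∀ f, φ (D0 f) = F0 (φ f)) (h1 : ∀ f, φ (D1 f) = F1 (φ f))
    (hc : ∀ f, F0 (F1 f) = F1 (F0 f)) {a b : ℝ} {x : Fin 3 → R} {W Wi h : R}
    (hD : Dat D0 D1 a b x W Wi h) :
    Dat F0 F1 a b (fun i => φ (x i)) (φ W) (φ Wi) (φ h) := by
  refine ⟨hc, ?_, ?_, ?_, ?_⟩
  · rw [← map_mul, hD.w1, map_one]
  · rw [← map_pow, hD.w2, map_sub, map_mul, map_pow, map_ff φ h0 h1, map_ff φ h0 h0,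
      map_ff φ h1 h1]
  · intro i
    have := congrArg φ (hD.eq i)
    simp only [map_add, map_mul, map_Lp φ h0 h1, AlgHom.commutes, map_zero] at this
    exact this
  · conv_lhs => rw [hD.hh]
    rw [map_sum]
    refine Finset.sum_congr rfl fun i _ => ?_
    rw [map_mul, map_Lp φ h0 h1, map_mul, map_cross]
    simp only [h0, h1]

end Map

/-- the adapted frame -/
theorem keyAlg (h1 : SF) (h2 : SN) (h3 : ST) {D0 D1 : Derivation ℝ R R} {a b : ℝ}
    {x : Fin 3 → R} {W Wi h : R} (hD : Dat D0 D1 a b x W Wi h) {nu nuI : R}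
    (hn : nu * nuI = 1) (hg : nu ^ 2 = gr D0 D1 x Wi h) :
    ∃ (e1 e2 : Derivation ℝ R R) (k m l p q s r1 r2 : R),
      TwoT e1 e2 a b k m l p q nu 0 (algebraMap ℝ R (1 / 2) * dot x x) s r1 r2 ∧
      (∀ f, e1 f = (Wi ^ 2 * (ff D1 D1 x * D0 h - ff D0 D1 x * D1 h) * nuI) * D0 f +
        (Wi ^ 2 * (ff D0 D0 x * D1 h - ff D0 D1 x * D0 h) * nuI) * D1 f) ∧
      ∀ f, e2 f = Wi * nuI * (D0 h * D1 f - D1 h * D0 f) := by
  set c0 : R := Wi ^ 2 * (ff D1 D1 x * D0 h - ff D0 D1 x * D1 h) * nuI with hc0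
  set c1 : R := Wi ^ 2 * (ff D0 D0 x * D1 h - ff D0 D1 x * D0 h) * nuI with hc1
  have hW : Wi ^ 2 * (ff D0 D0 x * ff D1 D1 x - ff D0 D1 x ^ 2) = 1 := by
    rw [← hD.w2, ← mul_pow, mul_comm Wi W, hD.w1, one_pow]
  have hE : ff D0 D0 x * c0 + ff D0 D1 x * c1 = nuI * D0 h := by
    rw [hc0, hc1]
    linear_combination (nuI * D0 h) * hW
  have hF : ff D0 D1 x * c0 + ff D1 D1 x * c1 = nuI * D1 h := by
    rw [hc0, hc1]
    linear_combination (nuI * D1 h) * hW
  have hcn : c0 * D0 h + c1 * D1 h = nu := by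
    have e1 : c0 * D0 h + c1 * D1 h = nuI * gr D0 D1 x Wi h := by
      rw [hc0, hc1]
      unfold gr
      ring
    rw [e1, ← hg]
    linear_combination nu * hn
  have hc : ff D0 D0 x * c0 ^ 2 + 2 * ff D0 D1 x * c0 * c1 + ff D1 D1 x * c1 ^ 2 = 1 := by
    have e1 : ff D0 D0 x * c0 ^ 2 + 2 * ff D0 D1 x * c0 * c1 + ff D1 D1 x * c1 ^ 2 =
        c0 * (ff D0 D0 x * c0 + ff D0 D1 x * c1) + c1 * (ff D0 D1 x * c0 + ff D1 D1 x * c1) := by
      ring
    rw [e1, hE, hF]
    have e2 : c0 * (nuI * D0 h) + c1 * (nuI * D1 h) = nuI * (c0 * D0 h + c1 * D1 h) := by ring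
    rw [e2, hcn, mul_comm, hn]
  obtain ⟨e1, e2, T1, T2, N, k, m, l, p, q, hO, he1, he2, hN, hL⟩ :=
    h1 R D0 D1 x (ff D0 D0 x) (ff D0 D1 x) (ff D1 D1 x) W Wi c0 c1 hD.comm rfl rfl rfl hD.w2
      hD.w1 hc
  have he2' : ∀ f, e2 f = Wi * nuI * (D0 h * D1 f - D1 h * D0 f) := by
    intro f
    rw [he2 f, hE, hF]
    ring
  have hL' : ∀ f, lapE e1 e2 p q f = Lp D0 D1 x Wi f := hL
  have hkl : k + l = h := by
    rw [hD.hh]
    have e3 : ∀ i, Lp D0 D1 x Wi (x i) *
        (Wi * cross (fun a => D0 (x a)) (fun a => D1 (x a)) i) = (k + l) * (N i * N i) := by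
      intro i
      rw [← hL', h2 R e1 e2 x T1 T2 N k m l p q hO, ← hN]
      ring
    rw [Finset.sum_congr rfl fun i _ => e3 i, ← Finset.mul_sum, Fin.sum_univ_three]
    have e4 := hO.dNN
    unfold dot at e4
    rw [e4, mul_one]
  have hT := h3 R e1 e2 x T1 T2 N k m l p q a b hO (by
    intro i
    simp only [hL']
    exact hD.eq i)
  have hh1 : e1 (k + l) = nu := by
    rw [hkl, he1, hcn]
  have hh2 : e2 (k + l) = 0 := by
    rw [hkl, he2']
    ring
  rw [hh1, hh2] at hT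
  exact ⟨e1, e2, k, m, l, p, q, _, _, _, hT, he1, he2'⟩

end Alg

/-! ### restriction -/

section Res

variable {O U : Opens (E 2)}

/-- restriction to a smaller open set -/
noncomputable def res (hU : U ≤ O) : RR O →ₐ[ℝ] RR U where
  toFun := fun f => mk (ev f) ((smooth_ev f).mono hU)
  map_one' := by
    apply ext_ev
    intro p hp
    rw [mk_ev _ _ hp, one_ev hp, one_ev (hU hp)]
  map_mul' := by
    intro f g
    apply ext_ev
    intro p hp
    rw [mul_ev _ _ hp, mk_ev _ _ hp, mk_ev _ _ hp, mk_ev _ _ hp, mul_ev _ _ (hU hp)]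
  map_zero' := by
    apply ext_ev
    intro p hp
    rw [mk_ev _ _ hp, zero_ev hp, zero_ev (hU hp)]
  map_add' := by
    intro f g
    apply ext_ev
    intro p hp
    rw [add_ev _ _ hp, mk_ev _ _ hp, mk_ev _ _ hp, mk_ev _ _ hp, add_ev _ _ (hU hp)]
  commutes' := by
    intro c
    apply ext_ev
    intro p hp
    refine (mk_ev _ _ hp).trans ?_
    rw [algebraMap_ev c hp, algebraMap_ev c (hU hp)]

lemma ev_res (hU : U ≤ O) (f : RR O) {p : E 2} (hp : p ∈ U) : ev (res hU f) p = ev f p :=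
  mk_ev _ ((smooth_ev f).mono hU) hp

lemma res_dR (hU : U ≤ O) (i : Fin 2) (f : RR O) :
    res hU (dR O i f) = dR U i (res hU f) := by
  apply ext_ev
  intro p hp
  rw [ev_res hU _ hp, dR_ev i f (hU hp), dR_ev i _ hp]
  have h : ev (res hU f) =ᶠ[nhds p] ev f :=
    Filter.eventually_of_mem (U.isOpen.mem_nhds hp) fun q hq => ev_res hU f hq
  rw [h.fderiv_eq]

instance red : IsReduced (RR O) := by
  refine ⟨fun f hf => ?_⟩
  obtain ⟨n, hn⟩ := hf
  apply ext_ev
  intro p hp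
  have h := congrArg (evH hp) hn
  rw [map_pow, map_zero] at h
  rw [zero_ev hp, ← evH_apply hp]
  exact IsNilpotent.eq_zero ⟨n, h⟩

lemma isOpen_nz (f : RR O) : IsOpen ((O : Set (E 2)) ∩ ev f ⁻¹' {0}ᶜ) :=
  (smooth_ev f).continuousOn.isOpen_inter_preimage O.isOpen isOpen_compl_singleton

/-- the set where `f` does not vanish -/
noncomputable def nz (f : RR O) : Opens (E 2) := ⟨(O : Set (E 2)) ∩ ev f ⁻¹' {0}ᶜ, isOpen_nz f⟩

lemma nz_le (f : RR O) : nz f ≤ O := fun _ hp => hp.1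

lemma ne_of_mem_nz {f : RR O} {p : E 2} (hp : p ∈ nz f) : ev f p ≠ 0 := hp.2

lemma mem_nz {f : RR O} {p : E 2} (hp : p ∈ O) (h : ev f p ≠ 0) : p ∈ nz f := ⟨hp, h⟩

lemma exists_ne {f : RR O} (h : f ≠ 0) : ∃ p ∈ O, ev f p ≠ 0 := by
  by_contra hcon
  push Not at hcon
  apply h
  apply ext_ev
  intro p hp
  rw [hcon p hp, zero_ev hp]

/-- the quadratic form is positive -/
lemma quad_pos {A B C u v : ℝ} (hA : 0 ≤ A) (hC : 0 ≤ C) (hd : 0 < A * C - B ^ 2)
    (huv : u ^ 2 + v ^ 2 ≠ 0) : 0 < C * u ^ 2 - 2 * B * u * v + A * v ^ 2 := by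
  have hA' : 0 < A := by
    rcases hA.lt_or_eq with h | h
    · exact h
    · rw [← h] at hd
      nlinarith [sq_nonneg B]
  have h1 : A * (C * u ^ 2 - 2 * B * u * v + A * v ^ 2) =
      (A * v - B * u) ^ 2 + (A * C - B ^ 2) * u ^ 2 := by ring
  have h2 : 0 < (A * v - B * u) ^ 2 + (A * C - B ^ 2) * u ^ 2 := by
    by_cases hu : u = 0
    · subst hu
      have hv : v ≠ 0 := by
        rintro rfl
        apply huv
        ring
      have : 0 < (A * v) ^ 2 := by positivity
      nlinarith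
    · have : 0 < u ^ 2 := by positivity
      nlinarith [sq_nonneg (A * v - B * u), mul_pos hd this]
  rw [← h1] at h2
  exact (pos_iff_pos_of_mul_pos h2).1 hA'

lemma ev_sq_sum {f g : RR O} {p : E 2} (hp : p ∈ O) :
    ev (f ^ 2 + g ^ 2) p = ev f p ^ 2 + ev g p ^ 2 := by
  rw [← evH_apply hp, ← evH_apply hp, ← evH_apply hp, map_add, map_pow, map_pow]

lemma exists_nu {a b : ℝ} {x : Fin 3 → RR O} {W Wi h : RR O}
    (hD : Dat (dR O 0) (dR O 1) a b x W Wi h)
    (hne : ∀ p ∈ O, ev (dR O 0 h ^ 2 + dR O 1 h ^ 2) p ≠ 0) :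
    ∃ nu nuI : RR O, nu * nuI = 1 ∧ nu ^ 2 = gr (dR O 0) (dR O 1) x Wi h := by
  have hpos : ∀ p ∈ O, 0 < ev (gr (dR O 0) (dR O 1) x Wi h) p := by
    intro p hp
    have h1 := hne p hp
    rw [ev_sq_sum hp] at h1
    have hff : ∀ i j : Fin 2, evH hp (ff (dR O i) (dR O j) x) =
        ∑ a, ev (dR O i (x a)) p * ev (dR O j (x a)) p := by
      intro i j
      unfold ff dot
      rw [Fin.sum_univ_three, map_add, map_add, map_mul, map_mul, map_mul]
      simp only [evH_apply hp]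
    have hnn : ∀ i : Fin 2, 0 ≤ evH hp (ff (dR O i) (dR O i) x) := by
      intro i
      rw [hff]
      exact Finset.sum_nonneg fun a _ => mul_self_nonneg _
    have hW := congrArg (evH hp) hD.w2
    have hW1 := congrArg (evH hp) hD.w1
    rw [map_pow, map_sub, map_mul, map_pow] at hW
    rw [map_mul, map_one] at hW1
    have hW0 : evH hp W ≠ 0 := left_ne_zero_of_mul_eq_one hW1
    have hWi0 : evH hp Wi ≠ 0 := right_ne_zero_of_mul_eq_one hW1
    have hd : 0 < evH hp (ff (dR O 0) (dR O 0) x) * evH hp (ff (dR O 1) (dR O 1) x) -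
        evH hp (ff (dR O 0) (dR O 1) x) ^ 2 := by
      rw [← hW]
      positivity
    have hq := quad_pos (hnn 0) (hnn 1) hd h1
    have e : ev (gr (dR O 0) (dR O 1) x Wi h) p = evH hp Wi ^ 2 *
        (evH hp (ff (dR O 1) (dR O 1) x) * ev (dR O 0 h) p ^ 2 -
          2 * evH hp (ff (dR O 0) (dR O 1) x) * ev (dR O 0 h) p * ev (dR O 1 h) p +
          evH hp (ff (dR O 0) (dR O 0) x) * ev (dR O 1 h) p ^ 2) := by
      rw [← evH_apply hp, ← evH_apply hp, ← evH_apply hp]
      unfold gr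
      simp only [map_mul, map_add, map_sub, map_pow, map_ofNat]
    rw [e]
    positivity
  have hs : ContDiffOn ℝ ∞ (fun p => √(ev (gr (dR O 0) (dR O 1) x Wi h) p)) O :=
    (smooth_ev _).sqrt fun p hp => (hpos p hp).ne'
  set nu : RR O := mk _ hs with hnu
  have hev : ∀ p ∈ O, ev nu p = √(ev (gr (dR O 0) (dR O 1) x Wi h) p) := fun p hp =>
    mk_ev _ hs hp
  have hu : IsUnit nu := isUnit_of_ne nu fun p hp => by
    rw [hev p hp]
    exact (Real.sqrt_pos.2 (hpos p hp)).ne'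
  obtain ⟨v, hv⟩ := hu.exists_right_inv
  refine ⟨nu, v, hv, ?_⟩
  apply ext_ev
  intro p hp
  rw [sq, mul_ev _ _ hp, hev p hp, Real.mul_self_sqrt (hpos p hp).le]

/-- curves -/
lemma curve (c0 c1 : RR O) {p0 : E 2} (hp0 : p0 ∈ O) :
    ∃ (g : ℝ → E 2) (ε : ℝ), 0 < ε ∧ (∀ t ∈ Set.Ioo (-ε) ε, g t ∈ O) ∧
      ∀ t ∈ Set.Ioo (-ε) ε, ∀ f : RR O,
        HasDerivAt (fun t => ev f (g t)) (ev (c0 * dR O 0 f + c1 * dR O 1 f) (g t)) t := by
  set v : E 2 → E 2 := fun p => ev c0 p • e2 0 + ev c1 p • e2 1 with hv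
  have hsm : ContDiffAt ℝ 1 v p0 := by
    have h0 : ContDiffAt ℝ ∞ (ev c0) p0 := (smooth_ev c0).contDiffAt (O.isOpen.mem_nhds hp0)
    have h1 : ContDiffAt ℝ ∞ (ev c1) p0 := (smooth_ev c1).contDiffAt (O.isOpen.mem_nhds hp0)
    have h2 : ContDiffAt ℝ ∞ v p0 :=
      (h0.smul contDiffAt_const).add (h1.smul contDiffAt_const)
    exact h2.of_le (by exact_mod_cast le_top)
  obtain ⟨g, hg0, ε, hε, hg⟩ :=
    hsm.exists_forall_mem_closedBall_exists_eq_forall_mem_Ioo_hasDerivAt₀ 0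
  have hcont : ContinuousAt g 0 := (hg 0 ⟨by linarith, by linarith⟩).continuousAt
  have hnh : g ⁻¹' (O : Set (E 2)) ∈ nhds (0 : ℝ) := by
    apply hcont
    rw [hg0]
    exact O.isOpen.mem_nhds hp0
  obtain ⟨δ, hδ, hball⟩ := Metric.mem_nhds_iff.1 hnh
  refine ⟨g, min ε δ, lt_min hε hδ, ?_, ?_⟩
  · intro t ht
    apply hball
    rw [Metric.mem_ball, Real.dist_eq, sub_zero, abs_lt]
    exact ⟨by have := min_le_right ε δ; have := ht.1; linarith,
      by have := min_le_right ε δ; have := ht.2; linarith⟩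
  · intro t ht f
    have htO : g t ∈ O := by
      apply hball
      rw [Metric.mem_ball, Real.dist_eq, sub_zero, abs_lt]
      exact ⟨by have := min_le_right ε δ; have := ht.1; linarith,
        by have := min_le_right ε δ; have := ht.2; linarith⟩
    have hgt := hg t ⟨by have := min_le_left ε δ; have := ht.1; linarith,
        by have := min_le_left ε δ; have := ht.2; linarith⟩
    have hf := (diffAt_ev f htO).hasFDerivAt
    have hcomp := hf.comp_hasDerivAt t hgt
    have hval : fderiv ℝ (ev f) (g t) (v (g t)) =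
        ev (c0 * dR O 0 f + c1 * dR O 1 f) (g t) := by
      rw [add_ev _ _ htO, mul_ev _ _ htO, mul_ev _ _ htO, dR_ev _ _ htO, dR_ev _ _ htO, hv]
      simp only [map_add, map_smul, smul_eq_mul]
    rw [← hval]
    exact hcomp

end Res

end ItemSL1

open ItemSL1

theorem sL1 (h1 : SF) (h2 : SN) (h3 : ST) (h4 : SP1) (h5 : SP0) (h6 : SP2) (h7 : SU) : SL1 := by
  intro O X a b hX hEq hb x W Wi hx hW hWi hW2 h hh
  -- the Laplace operator
  obtain ⟨x', W', Wi', hx', hW', hWi', hW2', hL⟩ := h7 O X hX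
  have exx : x' = x := by
    funext i
    apply ext_ev
    intro p hp
    rw [hx' i p hp, hx i p hp]
  subst exx
  have eW : W' = W := by
    apply ext_ev
    intro p hp
    have e1 : ev W' p ^ 2 = ev W p ^ 2 := by
      have := congrArg (evH hp) (hW2'.trans hW2.symm)
      rw [map_pow, map_pow, evH_apply, evH_apply] at this
      exact this
    exact (pow_left_inj₀ (hW' p hp).le (hW p hp).le (by norm_num)).1 e1
  subst eW
  have eWi : Wi' = Wi := by
    calc Wi' = Wi' * (W' * Wi) := by rw [hWi, mul_one]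
      _ = (W' * Wi') * Wi := by ring
      _ = Wi := by rw [hWi', one_mul]
  subst eWi
  have hL' : ∀ (f : E 2 → ℝ) (g : RR O), (∀ p ∈ O, ev g p = f p) → ∀ p ∈ O,
      lap X f p = ev (Lp (dR O 0) (dR O 1) x' Wi' g) p := hL
  have hLx : ∀ i, ∀ p ∈ O, ev (Lp (dR O 0) (dR O 1) x' Wi' (x' i)) p =
      lap X (fun q => X q i) p := fun i p hp => (hL' _ _ (hx i) p hp).symm
  have hD : Dat (dR O 0) (dR O 1) a b x' W' Wi' h := by
    refine ⟨dR_comm O 0 1, hWi, hW2, ?_, ?_⟩
    · intro i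
      apply ext_ev
      intro p hp
      rw [add_ev _ _ hp, add_ev _ _ hp, mul_ev _ _ hp, mul_ev _ _ hp, algebraMap_ev a hp,
        algebraMap_ev b hp, zero_ev hp, hLx i p hp, hx i p hp]
      have e := hL' (lap X fun q => X q i) _ (hLx i) p hp
      rw [← e]
      exact hEq p hp i
    · apply ext_ev
      intro p hp
      rw [hh p hp, ← evH_apply hp, map_sum]
      refine Finset.sum_congr rfl fun i _ => ?_
      rw [map_mul, evH_apply, evH_apply, hLx i p hp]
  -- the contradiction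
  by_contra hcon
  push Not at hcon
  obtain ⟨i, hi⟩ := hcon
  set G2 : RR O := dR O 0 h ^ 2 + dR O 1 h ^ 2 with hG2
  obtain ⟨p0, hp0O, hp0⟩ : ∃ p ∈ O, ev G2 p ≠ 0 := by
    obtain ⟨p, hp, hne⟩ := exists_ne hi
    refine ⟨p, hp, ?_⟩
    rw [hG2, ev_sq_sum hp]
    intro h0
    have e0 := sq_nonneg (ev (dR O 0 h) p)
    have e1 := sq_nonneg (ev (dR O 1 h) p)
    apply hne
    rcases (show i = 0 ∨ i = 1 by fin_cases i <;> simp) with rfl | rfl
    · exact (pow_eq_zero_iff (two_ne_zero)).1 (le_antisymm (by linarith) e0)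
    · exact (pow_eq_zero_iff (two_ne_zero)).1 (le_antisymm (by linarith) e1)
  set U := nz G2 with hU
  have hUO : U ≤ O := nz_le G2
  have hp0U : p0 ∈ U := mem_nz hp0O hp0
  have hDU := hD.map (res hUO) (F0 := dR U 0) (F1 := dR U 1) (res_dR hUO 0) (res_dR hUO 1)
    (dR_comm U 0 1)
  obtain ⟨nu, nuI, hnu, hnu2⟩ := exists_nu hDU (by
    intro p hp
    rw [ev_sq_sum hp, ← res_dR, ← res_dR, ev_res hUO _ hp, ev_res hUO _ hp,
      ← ev_sq_sum (hUO hp)]
    exact ne_of_mem_nz hp)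
  obtain ⟨e1, e2, k, m, l, p, q, s, r1, r2, hT, he1, he2⟩ := keyAlg h1 h2 h3 hDU hnu hnu2
  have hbu : IsUnit (algebraMap ℝ (RR U) b) := (IsUnit.mk0 b hb).map _
  -- step 1
  have hr2 : r2 = 0 := by
    by_contra hne
    obtain ⟨p1, hp1, hp1ne⟩ := exists_ne hne
    set V := nz r2 with hV
    have hVU : V ≤ U := nz_le r2
    have hp1V : p1 ∈ V := mem_nz hp1 hp1ne
    have hDV := hDU.map (res hVU) (F0 := dR V 0) (F1 := dR V 1) (res_dR hVU 0) (res_dR hVU 1)
      (dR_comm V 0 1)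
    have hnuV : res hVU nu * res hVU nuI = 1 := by rw [← map_mul, hnu, map_one]
    have hnuV2 : res hVU nu ^ 2 = gr (dR V 0) (dR V 1)
        (fun i => res hVU (res hUO (x' i))) (res hVU (res hUO Wi')) (res hVU (res hUO h)) := by
      rw [← map_pow, hnu2, map_gr (res hVU) (res_dR hVU 0) (res_dR hVU 1)]
    obtain ⟨f1, f2, k', m', l', p', q', s', r1', r2', hT', hf1, hf2⟩ :=
      keyAlg h1 h2 h3 hDV hnuV hnuV2
    have er2 : r2' = res hVU r2 := by
      rw [← hT'.e2r, ← hT.e2r, hf2, he2]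
      simp only [map_mul, map_sub, res_dR hVU, map_dot, AlgHom.commutes]
    have hr2u : IsUnit r2' := by
      apply isUnit_of_ne
      intro p2 hp2
      rw [er2, ev_res hVU _ hp2]
      exact ne_of_mem_nz hp2
    have hnu' : IsUnit (res hVU nu) := IsUnit.of_mul_eq_one _ hnuV
    have hbu' : IsUnit (algebraMap ℝ (RR V) b) := (IsUnit.mk0 b hb).map _
    have ht2 := hT'.t2
    have hm : IsUnit m' := by
      have e : m' * (2 * res hVU nu) = algebraMap ℝ (RR V) b * r2' := by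
        rw [← ht2]
        ring
      exact isUnit_of_mul_isUnit_left (by rw [e]; exact hbu'.mul hr2u)
    have hkl := h4 (RR V) f1 f2 k' m' l' p' q' (res hVU nu) _ s' r1' r2' a b hb hT' hnu' hm
    have hkl0 : k' + l' = 0 := by
      have : IsNilpotent (k' + l') := ⟨2, hkl⟩
      exact this.eq_zero
    have hz : res hVU nu = 0 := by
      rw [← hT'.e1h, ← map_add, hkl0, map_zero]
    rw [hz, zero_mul] at hnuV
    have := congrArg (evH hp1V) hnuV
    rw [map_zero, map_one] at this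
    exact zero_ne_one this
  -- step 2
  have hnuu : IsUnit nu := IsUnit.of_mul_eq_one _ hnu
  have h2u : IsUnit (2 * nu) := by
    have e : (2 : RR U) = algebraMap ℝ (RR U) 2 := by rw [map_ofNat]
    rw [e]
    exact ((IsUnit.mk0 (2 : ℝ) (by norm_num)).map _).mul hnuu
  have hm0 : m = 0 := by
    have ht2 := hT.t2
    rw [hr2] at ht2
    have e : m * (2 * nu) = 0 := by linear_combination ht2
    exact (h2u.mul_left_eq_zero).1 e
  subst hm0
  subst hr2
  have hp : p = 0 := h5 (RR U) e1 e2 k l p q nu _ s r1 0 a b hb hT hnuu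
  subst hp
  -- the curve
  obtain ⟨g, ε, hε, hgU, hder⟩ := curve
    (res hUO Wi' ^ 2 * (ff (dR U 1) (dR U 1) (fun i => res hUO (x' i)) * dR U 0 (res hUO h) -
      ff (dR U 0) (dR U 1) (fun i => res hUO (x' i)) * dR U 1 (res hUO h)) * nuI)
    (res hUO Wi' ^ 2 * (ff (dR U 0) (dR U 0) (fun i => res hUO (x' i)) * dR U 1 (res hUO h) -
      ff (dR U 0) (dR U 1) (fun i => res hUO (x' i)) * dR U 0 (res hUO h)) * nuI) hp0U
  have hder' : ∀ t ∈ Set.Ioo (-ε) ε, ∀ f : RR U,
      HasDerivAt (fun t => ev f (g t)) (ev (e1 f) (g t)) t := by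
    intro t ht f
    rw [he1 f]
    exact hder t ht f
  have hl : e1 l = -(q * (k - l)) := by
    have := hT.codazzi2
    rw [map_zero] at this
    linear_combination this
  have hk : e1 k = nu + q * (k - l) := by
    have := hT.e1h
    linear_combination this - hl
  have hq : e1 q = q ^ 2 + k * l := by
    have := hT.gauss
    rw [map_zero] at this
    linear_combination this
  have hw : e1 r1 = 1 + s * k := by
    have := hT.r11
    linear_combination this
  have hs : e1 s = -(k * r1) := by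
    have := hT.e1s
    linear_combination this
  have hy : e1 nu = q * nu + (k + l) * (k ^ 2 + l ^ 2) - algebraMap ℝ (RR U) a * (k + l) -
      algebraMap ℝ (RR U) b * s := by
    have := hT.nn
    rw [map_zero] at this
    linear_combination this
  have ht1 : (3 * k + l) * nu = algebraMap ℝ (RR U) b * r1 := by
    have := hT.t1
    linear_combination this
  have hr22 : -(q * r1) = 1 + s * l := by
    have := hT.r22
    rw [map_zero] at this
    linear_combination this
  refine h6 (-ε) ε a b (fun t => ev k (g t)) (fun t => ev l (g t)) (fun t => ev q (g t))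
    (fun t => ev nu (g t)) (fun t => ev s (g t)) (fun t => ev r1 (g t)) (by linarith) hb
    ?_ ?_ ?_ ?_ ?_ ?_ ?_ ?_ ?_
  · intro t ht
    have := hder' t ht k
    rw [hk, ← evH_apply (hgU t ht)] at this
    simp only [map_add, map_mul, map_sub, evH_apply] at this
    exact this
  · intro t ht
    have := hder' t ht l
    rw [hl, ← evH_apply (hgU t ht)] at this
    simp only [map_neg, map_mul, map_sub, evH_apply] at this
    exact this
  · intro t ht
    have := hder' t ht q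
    rw [hq, ← evH_apply (hgU t ht)] at this
    simp only [map_add, map_mul, map_pow, evH_apply] at this
    exact this
  · intro t ht
    have := hder' t ht r1
    rw [hw, ← evH_apply (hgU t ht)] at this
    simp only [map_add, map_mul, map_one, evH_apply] at this
    exact this
  · intro t ht
    have := hder' t ht s
    rw [hs, ← evH_apply (hgU t ht)] at this
    simp only [map_neg, map_mul, evH_apply] at this
    exact this
  · intro t ht
    have := hder' t ht nu
    rw [hy, ← evH_apply (hgU t ht)] at this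
    simp only [map_add, map_mul, map_sub, map_pow, AlgHom.commutes, evH_apply,
      Algebra.algebraMap_self, RingHom.id_apply] at this
    exact this
  · intro t ht
    have := congrArg (evH (hgU t ht)) ht1
    simp only [map_add, map_mul, map_ofNat, AlgHom.commutes, evH_apply,
      Algebra.algebraMap_self, RingHom.id_apply] at this
    exact this
  · intro t ht
    have := congrArg (evH (hgU t ht)) hr22
    simp only [map_add, map_mul, map_neg, map_one, evH_apply] at this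
    exact this
  · intro t ht h0
    have := congrArg (evH (hgU t ht)) hnu
    rw [map_mul, map_one, evH_apply, h0, zero_mul] at this
    exact zero_ne_one this

end Pool.Agent.Work.MP_157c12_gt.TT
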