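import Pool.Agent.Work.MP_157c12_gt.TT.Stmts

/-!
# Surfaces of null 2-type in Euclidean 3-space: statements
-/

open TopologicalSpace
open scoped Manifold ContDiff RealInnerProductSpace

namespace Pool.Agent.Work.MP_157c12_gt.TT

open Pool.Agent.Work.MP_157c12_gt

/-- `b = 0`: the mean curvature cannot have a non-zero differential -/
def SZ1 : Prop := ∀ (R : Type) [CommRing R] [Algebra ℝ R] [IsReduced R] (e1 e2 : Derivation ℝ R R)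
  (k m l p q h1 r s r1 r2 : R) (a : ℝ), TwoT e1 e2 a 0 k m l p q h1 0 r s r1 r2 →
  IsUnit h1 → k + l = 0

/-- constant principal curvatures, not umbilic: flat -/
def SZ2 : Prop := ∀ (R : Type) [CommRing R] [Algebra ℝ R] (e1 e2 : Derivation ℝ R R)
  (x T1 T2 N : Fin 3 → R) (k m l p q : R), OFrame e1 e2 x T1 T2 N k m l p q →
  e1 (k + l) = 0 → e2 (k + l) = 0 → e1 ((k - l) ^ 2 + 4 * m ^ 2) = 0 →
  e2 ((k - l) ^ 2 + 4 * m ^ 2) = 0 → IsUnit ((k - l) ^ 2 + 4 * m ^ 2) → k * l - m ^ 2 = 0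

/-- `b = 0`: the mean curvature is constant -/
def SZ3 : Prop := ∀ (O : Opens (E 2)) (X : E 2 → E 3) (a : ℝ), PatchR O X → Eq4 O X a 0 →
  ∀ (x : Fin 3 → RR O) (W Wi : RR O), (∀ a, ∀ p ∈ O, ev (x a) p = X p a) →
    (∀ p ∈ O, 0 < ev W p) → W * Wi = 1 →
    W ^ 2 = dot (fun a => dR O 0 (x a)) (fun a => dR O 0 (x a)) *
      dot (fun a => dR O 1 (x a)) (fun a => dR O 1 (x a))
      - dot (fun a => dR O 0 (x a)) (fun a => dR O 1 (x a)) ^ 2 →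
    ∀ h : RR O, (∀ p ∈ O, ev h p = ∑ a, lap X (fun q => X q a) p *
      ev (Wi * cross (fun a => dR O 0 (x a)) (fun a => dR O 1 (x a)) a) p) →
    ∀ i, dR O i h = 0

/-- a patch of null 2-type: `X = Y1 + Y2`, `ΔY1 = 0`, `ΔY2 = l Y2` -/
structure NullPatch (O : Opens (E 2)) (X Y1 Y2 : E 2 → E 3) (l ρ : ℝ) : Prop where
  patch : PatchR O X
  smooth1 : ∀ i, ContDiffOn ℝ ∞ (fun q => Y1 q i) O
  smooth2 : ∀ i, ContDiffOn ℝ ∞ (fun q => Y2 q i) O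
  sum : ∀ p ∈ O, X p = Y1 p + Y2 p
  lap1 : ∀ p ∈ O, ∀ i, lap X (fun q => Y1 q i) p = 0
  lap2 : ∀ p ∈ O, ∀ i, lap X (fun q => Y2 q i) p = l * Y2 p i
  norm : ∀ p ∈ O, ‖Y2 p‖ ^ 2 = ρ

/-- `|Y2|` is locally constant -/
def SZ4 : Prop := ∀ (O : Opens (E 2)) (X Y1 Y2 : E 2 → E 3) (l : ℝ), l ≠ 0 → PatchR O X →
  (∀ i, ContDiffOn ℝ ∞ (fun q => Y1 q i) O) → (∀ i, ContDiffOn ℝ ∞ (fun q => Y2 q i) O) →
  (∀ p ∈ O, X p = Y1 p + Y2 p) → (∀ p ∈ O, ∀ i, lap X (fun q => Y1 q i) p = 0) →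
  (∀ p ∈ O, ∀ i, lap X (fun q => Y2 q i) p = l * Y2 p i) →
  ∀ p ∈ O, fderiv ℝ (fun q => ‖Y2 q‖ ^ 2) p = 0

/-- the umbilic case: `Y1` is locally constant -/
def SZ5 : Prop := ∀ (O : Opens (E 2)) (X Y1 Y2 : E 2 → E 3) (l ρ : ℝ), l ≠ 0 → 0 < ρ →
  NullPatch O X Y1 Y2 l ρ → l * ρ = -2 → ∀ p ∈ O, ∀ i, fderiv ℝ (fun q => Y1 q i) p = 0

/-- the other case: the patch lies in a circular cylinder -/
def SZ6 : Prop := ∀ (O : Opens (E 2)) (X Y1 Y2 : E 2 → E 3) (l ρ : ℝ), l ≠ 0 → 0 < ρ →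
  NullPatch O X Y1 Y2 l ρ → l * ρ ≠ -2 →
  ∀ p ∈ O, ∃ e : E 3, ‖e‖ = 1 ∧ ∃ U : Opens (E 2), p ∈ U ∧ U ≤ O ∧
    (∀ q ∈ U, ⟪e, Y2 q⟫ = 0 ∧ Y1 q - Y1 p = ⟪e, Y1 q - Y1 p⟫ • e) ∧
    ∀ V : Opens (E 2), V ≤ U → (V : Set (E 2)).Nonempty → ∀ e' : E 3, ‖e'‖ = 1 →
      (∀ q ∈ V, ⟪e', Y2 q⟫ = 0) → e' = e ∨ e' = -e

/-- surfaces of null 2-type lie in circular cylinders -/
def SNull : Prop := ∀ (M : Type) [TopologicalSpace M] [ChartedSpace (E 2) M]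
  [IsManifold 𝓘(ℝ, E 2) ∞ M] [ConnectedSpace M] (x : M → E 3), SmoothImmersion (V := E 2) x →
  ∀ (c : E 3) (x1 x2 : M → E 3) (l : ℝ),
    ContMDiff 𝓘(ℝ, E 2) 𝓘(ℝ, E 3) ∞ x1 → ContMDiff 𝓘(ℝ, E 2) 𝓘(ℝ, E 3) ∞ x2 →
    (∃ p q, x1 p ≠ x1 q) → (∃ p q, x2 p ≠ x2 q) → l ≠ 0 →
    (∀ p, x p = c + x1 p + x2 p) →
    (∀ i, LapEq (n := 2) x (fun p => x1 p i) 0) → (∀ i, LapEq (n := 2) x (fun p => x2 p i) l) →
    ∃ (z e : E 3) (R : ℝ), ‖e‖ = 1 ∧ 0 < R ∧ ∀ p, ‖(x p - z) - ⟪e, x p - z⟫ • e‖ = R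

end Pool.Agent.Work.MP_157c12_gt.TT
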