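import Pool.Agent.Work.MP_157c12_gt.Surf

/-!
# Surfaces of 2-type in Euclidean 3-space: definitions

The ring of smooth real functions on an open set of the plane, its partial derivatives, and the
algebraic data of an orthonormal frame on a surface.
-/

open TopologicalSpace
open scoped Manifold ContDiff

namespace Pool.Agent.Work.MP_157c12_gt.TT

open Pool.Agent.Work.MP_157c12_gt

/-! ### the ring of smooth real functions on an open set of the plane -/

/-- extension by zero -/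
noncomputable def ext0 (O : Opens (E 2)) (f : O → ℝ) (p : E 2) : ℝ :=
  open Classical in if h : p ∈ O then f ⟨p, h⟩ else 0

lemma ext0_of_mem {O : Opens (E 2)} (f : O → ℝ) {p : E 2} (h : p ∈ O) : ext0 O f p = f ⟨p, h⟩ := by
  rw [ext0, dif_pos h]

/-- smooth real functions on `O` -/
def RR (O : Opens (E 2)) : Subalgebra ℝ (O → ℝ) where
  carrier := {f | ContDiffOn ℝ ∞ (ext0 O f) O}
  mul_mem' := by
    intro f g hf hg
    refine (ContDiffOn.mul hf hg).congr ?_
    intro p hp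
    rw [ext0_of_mem _ hp]
    show f _ * g _ = ext0 O f p * ext0 O g p
    rw [ext0_of_mem f hp, ext0_of_mem g hp]
  add_mem' := by
    intro f g hf hg
    refine (ContDiffOn.add hf hg).congr ?_
    intro p hp
    rw [ext0_of_mem _ hp]
    show f _ + g _ = ext0 O f p + ext0 O g p
    rw [ext0_of_mem f hp, ext0_of_mem g hp]
  algebraMap_mem' := by
    intro c
    refine (contDiffOn_const (c := c)).congr ?_
    intro p hp
    rw [ext0_of_mem _ hp]
    rfl

/-- value at a point of `O`, extended by zero -/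
noncomputable def ev {O : Opens (E 2)} (f : RR O) : E 2 → ℝ := ext0 O f.1

lemma smooth_ev {O : Opens (E 2)} (f : RR O) : ContDiffOn ℝ ∞ (ev f) O := f.2

/-- restriction of a smooth function to `O` -/
noncomputable def mk {O : Opens (E 2)} (f : E 2 → ℝ) (hf : ContDiffOn ℝ ∞ f O) : RR O :=
  ⟨fun p => f p.1, by
    refine hf.congr ?_
    intro p hp
    rw [ext0_of_mem _ hp]⟩

lemma mk_ev {O : Opens (E 2)} (f : E 2 → ℝ) (hf : ContDiffOn ℝ ∞ f O) {p : E 2} (hp : p ∈ O) :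
    ev (mk f hf) p = f p := by
  rw [ev, ext0_of_mem _ hp]
  rfl

lemma ext_ev {O : Opens (E 2)} {f g : RR O} (h : ∀ p ∈ O, ev f p = ev g p) : f = g := by
  apply Subtype.ext
  funext p
  have := h p.1 p.2
  rw [ev, ev, ext0_of_mem _ p.2, ext0_of_mem _ p.2] at this
  exact this

lemma mul_ev {O : Opens (E 2)} (f g : RR O) {p : E 2} (hp : p ∈ O) :
    ev (f * g) p = ev f p * ev g p := by
  rw [ev, ev, ev, ext0_of_mem _ hp, ext0_of_mem _ hp, ext0_of_mem _ hp]
  rfl

lemma add_ev {O : Opens (E 2)} (f g : RR O) {p : E 2} (hp : p ∈ O) :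
    ev (f + g) p = ev f p + ev g p := by
  rw [ev, ev, ev, ext0_of_mem _ hp, ext0_of_mem _ hp, ext0_of_mem _ hp]
  rfl

lemma sub_ev {O : Opens (E 2)} (f g : RR O) {p : E 2} (hp : p ∈ O) :
    ev (f - g) p = ev f p - ev g p := by
  rw [ev, ev, ev, ext0_of_mem _ hp, ext0_of_mem _ hp, ext0_of_mem _ hp]
  rfl

lemma neg_ev {O : Opens (E 2)} (f : RR O) {p : E 2} (hp : p ∈ O) :
    ev (-f) p = -ev f p := by
  rw [ev, ev, ext0_of_mem _ hp, ext0_of_mem _ hp]
  rfl

lemma algebraMap_ev {O : Opens (E 2)} (c : ℝ) {p : E 2} (hp : p ∈ O) :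
    ev (algebraMap ℝ (RR O) c) p = c := by
  rw [ev, ext0_of_mem _ hp]
  rfl

lemma zero_ev {O : Opens (E 2)} {p : E 2} (hp : p ∈ O) : ev (0 : RR O) p = 0 := by
  rw [ev, ext0_of_mem _ hp]
  rfl

lemma one_ev {O : Opens (E 2)} {p : E 2} (hp : p ∈ O) : ev (1 : RR O) p = 1 := by
  rw [ev, ext0_of_mem _ hp]
  rfl

/-- evaluation at a point is a homomorphism -/
noncomputable def evH {O : Opens (E 2)} {p : E 2} (hp : p ∈ O) : RR O →ₐ[ℝ] ℝ :=
  (Pi.evalAlgHom ℝ (fun _ : O => ℝ) ⟨p, hp⟩).comp (RR O).val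

lemma evH_apply {O : Opens (E 2)} {p : E 2} (hp : p ∈ O) (f : RR O) : evH hp f = ev f p := by
  rw [ev, ext0_of_mem _ hp]
  rfl

/-- a nowhere vanishing smooth function is invertible -/
lemma isUnit_of_ne {O : Opens (E 2)} (f : RR O) (hf : ∀ p ∈ O, ev f p ≠ 0) : IsUnit f := by
  refine IsUnit.of_mul_eq_one (mk (fun p => (ev f p)⁻¹) ((smooth_ev f).inv hf)) ?_
  apply ext_ev
  intro p hp
  rw [mul_ev _ _ hp, mk_ev _ _ hp, one_ev hp, mul_inv_cancel₀ (hf p hp)]

/-- coordinate vector -/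
noncomputable def e2 (i : Fin 2) : E 2 := EuclideanSpace.single i 1

lemma fderiv_smooth {O : Opens (E 2)} {f : E 2 → ℝ} (hf : ContDiffOn ℝ ∞ f O) (v : E 2) :
    ContDiffOn ℝ ∞ (fun p => fderiv ℝ f p v) O := by
  have h := hf.fderiv_of_isOpen O.isOpen (m := ∞) (by simp)
  exact h.clm_apply contDiffOn_const

lemma diffAt_ev {O : Opens (E 2)} (f : RR O) {p : E 2} (hp : p ∈ O) :
    DifferentiableAt ℝ (ev f) p :=
  ((smooth_ev f).contDiffAt (O.isOpen.mem_nhds hp)).differentiableAt (by simp)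

/-- the partial derivatives as derivations -/
noncomputable def dR (O : Opens (E 2)) (i : Fin 2) : Derivation ℝ (RR O) (RR O) where
  toFun := fun f => mk (fun p => fderiv ℝ (ev f) p (e2 i)) (fderiv_smooth (smooth_ev f) _)
  map_add' := by
    intro f g
    apply ext_ev
    intro p hp
    rw [add_ev _ _ hp, mk_ev _ _ hp, mk_ev _ _ hp, mk_ev _ _ hp]
    have h : ev (f + g) =ᶠ[nhds p] fun q => ev f q + ev g q :=
      Filter.eventually_of_mem (O.isOpen.mem_nhds hp) fun q hq => add_ev f g hq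
    rw [h.fderiv_eq, fderiv_fun_add (diffAt_ev f hp) (diffAt_ev g hp)]
    rfl
  map_smul' := by
    intro c f
    apply ext_ev
    intro p hp
    have e1 : ∀ g : RR O, ∀ q ∈ O, ev (c • g) q = c * ev g q := by
      intro g q hq
      rw [Algebra.smul_def, mul_ev _ _ hq, algebraMap_ev c hq]
    rw [RingHom.id_apply, e1 _ p hp, mk_ev _ _ hp, mk_ev _ _ hp]
    have h : ev (c • f) =ᶠ[nhds p] fun q => c * ev f q :=
      Filter.eventually_of_mem (O.isOpen.mem_nhds hp) fun q hq => e1 f q hq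
    rw [h.fderiv_eq, fderiv_const_mul (diffAt_ev f hp)]
    rfl
  map_one_eq_zero' := by
    apply ext_ev
    intro p hp
    show ev (mk (fun p => fderiv ℝ (ev (1 : RR O)) p (e2 i))
      (fderiv_smooth (smooth_ev _) _)) p = _
    rw [mk_ev _ _ hp, zero_ev hp]
    have h : ev (1 : RR O) =ᶠ[nhds p] fun _ => (1 : ℝ) :=
      Filter.eventually_of_mem (O.isOpen.mem_nhds hp) fun q hq => one_ev hq
    rw [h.fderiv_eq]
    simp
  leibniz' := by
    intro f g
    apply ext_ev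
    intro p hp
    show ev (mk (fun p => fderiv ℝ (ev (f * g)) p (e2 i)) (fderiv_smooth (smooth_ev _) _)) p =
      ev (f * mk (fun p => fderiv ℝ (ev g) p (e2 i)) (fderiv_smooth (smooth_ev g) _) +
        g * mk (fun p => fderiv ℝ (ev f) p (e2 i)) (fderiv_smooth (smooth_ev f) _)) p
    rw [mk_ev _ _ hp, add_ev _ _ hp, mul_ev _ _ hp, mul_ev _ _ hp, mk_ev _ _ hp,
      mk_ev _ _ hp]
    have h : ev (f * g) =ᶠ[nhds p] fun q => ev f q * ev g q :=
      Filter.eventually_of_mem (O.isOpen.mem_nhds hp) fun q hq => mul_ev f g hq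
    rw [h.fderiv_eq, fderiv_fun_mul (diffAt_ev f hp) (diffAt_ev g hp)]
    simp

lemma dR_ev {O : Opens (E 2)} (i : Fin 2) (f : RR O) {p : E 2} (hp : p ∈ O) :
    ev (dR O i f) p = fderiv ℝ (ev f) p (e2 i) := mk_ev _ _ hp

lemma dR_comm (O : Opens (E 2)) (i j : Fin 2) (f : RR O) : dR O i (dR O j f) = dR O j (dR O i f) := by
  apply ext_ev
  intro p hp
  rw [dR_ev _ _ hp, dR_ev _ _ hp]
  have h1 : ∀ k : Fin 2, ev (dR O k f) =ᶠ[nhds p] fun q => fderiv ℝ (ev f) q (e2 k) := fun k =>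
    Filter.eventually_of_mem (O.isOpen.mem_nhds hp) fun q hq => dR_ev k f hq
  rw [(h1 i).fderiv_eq, (h1 j).fderiv_eq]
  have hc : ContDiffAt ℝ ∞ (ev f) p := (smooth_ev f).contDiffAt (O.isOpen.mem_nhds hp)
  have hd : DifferentiableAt ℝ (fderiv ℝ (ev f)) p := by
    have := ((smooth_ev f).fderiv_of_isOpen O.isOpen (m := ∞) (by simp)).contDiffAt
      (O.isOpen.mem_nhds hp)
    exact this.differentiableAt (by simp)
  have hs : IsSymmSndFDerivAt ℝ (ev f) p := hc.isSymmSndFDerivAt (by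
    simp only [minSmoothness_of_isRCLikeNormedField]
    exact WithTop.coe_le_coe.mpr le_top)
  have h2 : ∀ k : Fin 2, ∀ v, fderiv ℝ (fun q => fderiv ℝ (ev f) q (e2 k)) p v =
      fderiv ℝ (fderiv ℝ (ev f)) p v (e2 k) := by
    intro k v
    rw [fderiv_clm_apply hd (differentiableAt_const _)]
    simp
  rw [h2, h2]
  exact hs _ _

/-! ### orthonormal frames, algebraically -/

section Alg

variable {R : Type} [CommRing R] [Algebra ℝ R]

/-- inner product in `R ^ 3` -/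
def dot (v w : Fin 3 → R) : R := v 0 * w 0 + v 1 * w 1 + v 2 * w 2

/-- cross product in `R ^ 3` -/
def cross (v w : Fin 3 → R) : Fin 3 → R :=
  ![v 1 * w 2 - v 2 * w 1, v 2 * w 0 - v 0 * w 2, v 0 * w 1 - v 1 * w 0]

/-- An orthonormal frame `e1, e2` of a surface with position vector `x`: tangent vectors
`T1 = e1 x`, `T2 = e2 x`, unit normal `N`, connection coefficients `p, q`, second fundamental form
`k, m, l`. -/
structure OFrame (e1 e2 : Derivation ℝ R R) (x T1 T2 N : Fin 3 → R) (k m l p q : R) : Prop where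
  comm : ∀ f, e1 (e2 f) - e2 (e1 f) = -p * e1 f + q * e2 f
  x1 : ∀ a, e1 (x a) = T1 a
  x2 : ∀ a, e2 (x a) = T2 a
  T11 : ∀ a, e1 (T1 a) = p * T2 a + k * N a
  T12 : ∀ a, e1 (T2 a) = -p * T1 a + m * N a
  T21 : ∀ a, e2 (T1 a) = -q * T2 a + m * N a
  T22 : ∀ a, e2 (T2 a) = q * T1 a + l * N a
  N1 : ∀ a, e1 (N a) = -k * T1 a - m * T2 a
  N2 : ∀ a, e2 (N a) = -m * T1 a - l * T2 a
  d11 : dot T1 T1 = 1
  d12 : dot T1 T2 = 0
  d22 : dot T2 T2 = 1
  d1N : dot T1 N = 0
  d2N : dot T2 N = 0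
  dNN : dot N N = 1
  full : ∀ a b, T1 a * T1 b + T2 a * T2 b + N a * N b = if a = b then 1 else 0
  codazzi1 : e1 m + p * (k - l) = e2 k + 2 * q * m
  codazzi2 : e1 l + 2 * p * m = e2 m - q * (k - l)
  gauss : e1 q + e2 p = p ^ 2 + q ^ 2 + (k * l - m ^ 2)

/-- the Laplace operator in an orthonormal frame -/
def lapE (e1 e2 : Derivation ℝ R R) (p q f : R) : R :=
  e1 (e1 f) + e2 (e2 f) - q * e1 f - p * e2 f

/-- The scalar consequences of `Δ²x + aΔx + bx = 0` in an orthonormal frame: `h1, h2` are the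
derivatives of the mean curvature `k + l`, `r = |x|²/2` with derivatives `r1, r2`, and `s` is the
support function. -/
structure TwoT (e1 e2 : Derivation ℝ R R) (a b : ℝ) (k m l p q h1 h2 r s r1 r2 : R) : Prop where
  comm : ∀ f, e1 (e2 f) - e2 (e1 f) = -p * e1 f + q * e2 f
  codazzi1 : e1 m + p * (k - l) = e2 k + 2 * q * m
  codazzi2 : e1 l + 2 * p * m = e2 m - q * (k - l)
  gauss : e1 q + e2 p = p ^ 2 + q ^ 2 + (k * l - m ^ 2)
  e1h : e1 k + e1 l = h1
  e2h : e2 k + e2 l = h2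
  e1r : e1 r = r1
  e2r : e2 r = r2
  r11 : e1 r1 = 1 + s * k + p * r2
  r12 : e1 r2 = s * m - p * r1
  r21 : e2 r1 = s * m - q * r2
  r22 : e2 r2 = 1 + s * l + q * r1
  e1s : e1 s = -(k * r1 + m * r2)
  e2s : e2 s = -(m * r1 + l * r2)
  norm : r1 ^ 2 + r2 ^ 2 + s ^ 2 = 2 * r
  t1 : 2 * (k * h1 + m * h2) + (k + l) * h1 = algebraMap ℝ R b * r1
  t2 : 2 * (m * h1 + l * h2) + (k + l) * h2 = algebraMap ℝ R b * r2
  nn : e1 h1 + e2 h2 - q * h1 - p * h2 = (k + l) * ((k + l) ^ 2 - 2 * (k * l - m ^ 2))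
    - algebraMap ℝ R a * (k + l) - algebraMap ℝ R b * s

end Alg

/-! ### patches -/

/-- an immersed patch -/
structure PatchR {m : ℕ} (O : Opens (E 2)) (X : E 2 → E m) : Prop where
  smooth : ∀ a, ContDiffOn ℝ ∞ (fun q => X q a) O
  imm : ∀ p ∈ O, 0 < (gram X p).det

/-- `Δ²X + aΔX + bX = 0` on `O` -/
def Eq4 (O : Opens (E 2)) (X : E 2 → E 3) (a b : ℝ) : Prop :=
  ∀ p ∈ O, ∀ i, lap X (lap X fun q => X q i) p + a * lap X (fun q => X q i) p + b * X p i = 0

end Pool.Agent.Work.MP_157c12_gt.TT
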