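import Mathlib

/-!
# Surfaces of 2-type, Part 2: polynomial machinery

Polynomials in `X, q, y, A` with integer coefficients as lists of terms, the derivation
`4 X D` with `D X = y + q (X^2 - 1)`, `D q = X (1 + q^2)`,
`4 X D y = -(X^2 - 1) (A - X^2 - 1) - 3 y^2 + 4 X (2 X - 3) q y`, `D A = 2 A q (X - 1)`.
-/

namespace Pool.Agent.Work.MP_157c12_gt.TT.ItemSP2a

/-- a term: coefficient, exponent of `X`, exponents of `q, y, A` -/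
abbrev Tm := ℤ × ℕ × ℕ × ℕ × ℕ

/-- a group of terms: exponents of `q, y, A`, and the coefficient as a polynomial in `X` -/
abbrev GT := (ℕ × ℕ × ℕ) × List (ℤ × ℕ)

section

variable {R : Type*} [CommRing R]

/-- a monomial in `q, y, A` -/
def mo (q y A : R) (e : ℕ × ℕ × ℕ) : R := q ^ e.1 * y ^ e.2.1 * A ^ e.2.2

/-- value of a term -/
def evT (X q y A : R) (t : Tm) : R := (t.1 : R) * X ^ t.2.1 * mo q y A t.2.2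

/-- value of a list of terms -/
def evP (X q y A : R) (P : List Tm) : R := (P.map (evT X q y A)).sum

/-- value of a polynomial in `X` -/
def pv (X : R) (l : List (ℤ × ℕ)) : R := (l.map fun s => (s.1 : R) * X ^ s.2).sum

/-- value of a grouped polynomial -/
def evG (X q y A : R) (G : List GT) : R := (G.map fun g => pv X g.2 * mo q y A g.1).sum

/-- all terms of a grouped polynomial -/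
def flat (G : List GT) : List Tm := G.flatMap fun g => g.2.map fun s => (s.1, s.2, g.1)

lemma evP_nil (X q y A : R) : evP X q y A [] = 0 := by simp [evP]

lemma evP_cons (X q y A : R) (t : Tm) (P : List Tm) :
    evP X q y A (t :: P) = evT X q y A t + evP X q y A P := by simp [evP]

lemma evP_append (X q y A : R) (P Q : List Tm) :
    evP X q y A (P ++ Q) = evP X q y A P + evP X q y A Q := by simp [evP]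

lemma evP_flat (X q y A : R) (G : List GT) : evP X q y A (flat G) = evG X q y A G := by
  induction G with
  | nil => simp [flat, evG, evP]
  | cons g G ih =>
    have h1 : flat (g :: G) = (g.2.map fun s => ((s.1, s.2, g.1) : Tm)) ++ flat G := by
      simp [flat]
    have h2 : ∀ l : List (ℤ × ℕ), evP X q y A (l.map fun s => ((s.1, s.2, g.1) : Tm)) =
        pv X l * mo q y A g.1 := by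
      intro l
      induction l with
      | nil => simp [evP, pv]
      | cons s l ihl =>
        rw [List.map_cons, evP_cons, ihl]
        simp only [evT, pv, List.map_cons, List.sum_cons]
        ring
    rw [h1, evP_append, ih, h2]
    simp [evG]

/-! ### merging -/

/-- order key -/
def key (t : Tm) : ℕ := t.2.1 + 64 * (t.2.2.2.2 + 64 * (t.2.2.2.1 + 64 * t.2.2.1))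

/-- merge two lists of terms, adding coefficients of equal monomials -/
def mg : ℕ → List Tm → List Tm → List Tm
  | 0, P, Q => P ++ Q
  | _ + 1, [], Q => Q
  | _ + 1, s :: P, [] => s :: P
  | n + 1, s :: P, t :: Q =>
    if s.2 = t.2 then (s.1 + t.1, s.2) :: mg n P Q
    else if key s < key t then s :: mg n P (t :: Q) else t :: mg n (s :: P) Q

lemma evP_mg (X q y A : R) (n : ℕ) : ∀ P Q : List Tm,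
    evP X q y A (mg n P Q) = evP X q y A P + evP X q y A Q := by
  induction n with
  | zero => intro P Q; rw [mg, evP_append]
  | succ n ih =>
    intro P Q
    cases P with
    | nil => rw [mg, evP_nil, zero_add]
    | cons s P =>
      cases Q with
      | nil => rw [mg, evP_nil, add_zero]
      | cons t Q =>
        rw [mg]
        split_ifs with h1 h2
        · rw [evP_cons, evP_cons, evP_cons, ih]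
          simp only [evT, ← h1]
          push_cast
          ring
        · rw [evP_cons, evP_cons, evP_cons, ih, evP_cons]
          ring
        · rw [evP_cons, evP_cons, evP_cons, ih, evP_cons]
          ring

/-- remove zero terms -/
def cl0 (P : List Tm) : List Tm := P.filter fun t => t.1 ≠ 0

lemma evP_cl0 (X q y A : R) (P : List Tm) : evP X q y A (cl0 P) = evP X q y A P := by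
  induction P with
  | nil => simp [cl0]
  | cons t P ih =>
    rw [evP_cons, ← ih]
    by_cases h : t.1 = 0
    · rw [cl0, List.filter_cons_of_neg (by simpa using h)]
      simp [evT, h, cl0]
    · rw [cl0, List.filter_cons_of_pos (by simpa using h), evP_cons]
      rfl

/-! ### the derivation -/

/-- the fourteen parts of the derivation `4 X D` -/
def pt : List (Tm → Tm) :=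
  [fun t => (4 * (t.2.1 : ℤ) * t.1, t.2.1, t.2.2.1, t.2.2.2.1 + 1, t.2.2.2.2),
   fun t => (4 * (t.2.1 : ℤ) * t.1, t.2.1 + 2, t.2.2.1 + 1, t.2.2.2.1, t.2.2.2.2),
   fun t => (-4 * (t.2.1 : ℤ) * t.1, t.2.1, t.2.2.1 + 1, t.2.2.2.1, t.2.2.2.2),
   fun t => (4 * (t.2.2.1 : ℤ) * t.1, t.2.1 + 2, t.2.2.1 - 1, t.2.2.2.1, t.2.2.2.2),
   fun t => (4 * (t.2.2.1 : ℤ) * t.1, t.2.1 + 2, t.2.2.1 + 1, t.2.2.2.1, t.2.2.2.2),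
   fun t => (-(t.2.2.2.1 : ℤ) * t.1, t.2.1 + 2, t.2.2.1, t.2.2.2.1 - 1, t.2.2.2.2 + 1),
   fun t => ((t.2.2.2.1 : ℤ) * t.1, t.2.1, t.2.2.1, t.2.2.2.1 - 1, t.2.2.2.2 + 1),
   fun t => ((t.2.2.2.1 : ℤ) * t.1, t.2.1 + 4, t.2.2.1, t.2.2.2.1 - 1, t.2.2.2.2),
   fun t => (-(t.2.2.2.1 : ℤ) * t.1, t.2.1, t.2.2.1, t.2.2.2.1 - 1, t.2.2.2.2),
   fun t => (-3 * (t.2.2.2.1 : ℤ) * t.1, t.2.1, t.2.2.1, t.2.2.2.1 + 1, t.2.2.2.2),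
   fun t => (8 * (t.2.2.2.1 : ℤ) * t.1, t.2.1 + 2, t.2.2.1 + 1, t.2.2.2.1, t.2.2.2.2),
   fun t => (-12 * (t.2.2.2.1 : ℤ) * t.1, t.2.1 + 1, t.2.2.1 + 1, t.2.2.2.1, t.2.2.2.2),
   fun t => (8 * (t.2.2.2.2 : ℤ) * t.1, t.2.1 + 2, t.2.2.1 + 1, t.2.2.2.1, t.2.2.2.2),
   fun t => (-8 * (t.2.2.2.2 : ℤ) * t.1, t.2.1 + 1, t.2.2.1 + 1, t.2.2.2.1, t.2.2.2.2)]

/-- merge the parts -/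
def mgs (P : List Tm) : List (Tm → Tm) → List Tm
  | [] => []
  | f :: F => mg 1000 (cl0 (P.map f)) (mgs P F)

/-- the derivation `4 X D` -/
def dP (P : List Tm) : List Tm := cl0 (mgs P pt)

lemma evP_mgs (X q y A : R) (P : List Tm) (F : List (Tm → Tm)) :
    evP X q y A (mgs P F) = (F.map fun f => evP X q y A (P.map f)).sum := by
  induction F with
  | nil => simp [mgs, evP_nil]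
  | cons f F ih => rw [mgs, evP_mg, evP_cl0, ih]; simp

lemma evP_dP (X q y A : R) (P : List Tm) :
    evP X q y A (dP P) = (pt.map fun f => evP X q y A (P.map f)).sum := by
  rw [dP, evP_cl0, evP_mgs]

lemma evP_dP_cons (X q y A : R) (t : Tm) (P : List Tm) :
    evP X q y A (dP (t :: P)) = (pt.map fun f => evT X q y A (f t)).sum + evP X q y A (dP P) := by
  rw [evP_dP, evP_dP]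
  simp only [List.map_cons, evP_cons]
  induction pt with
  | nil => simp
  | cons f F ih =>
    simp only [List.map_cons, List.sum_cons]
    rw [ih]
    ring

end

lemma hasDeriv_T (c : ℤ) (a i j m : ℕ) {X q y A : ℝ → ℝ} {t L Y : ℝ}
    (hX : HasDerivAt X (L * (y t + q t * (X t ^ 2 - 1))) t)
    (hq : HasDerivAt q (L * (X t * (1 + q t ^ 2))) t)
    (hy : HasDerivAt y (L * Y) t)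
    (hY : 4 * X t * Y = -(X t ^ 2 - 1) * (A t - X t ^ 2 - 1) - 3 * y t ^ 2
      + 4 * X t * (2 * X t - 3) * q t * y t)
    (hA : HasDerivAt A (L * (2 * A t * q t * (X t - 1))) t) :
    ∃ d, HasDerivAt (fun τ => evT (X τ) (q τ) (y τ) (A τ) (c, a, i, j, m)) d t ∧
      4 * X t * d = L * (pt.map fun f => evT (X t) (q t) (y t) (A t) (f (c, a, i, j, m))).sum := by
  refine ⟨_, (((hX.pow a).const_mul (c : ℝ)).mul (((hq.pow i).mul (hy.pow j)).mul (hA.pow m))).congr_deriv rfl, ?_⟩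
  simp only [pt, evT, mo, List.map_cons, List.map_nil, List.sum_cons, List.sum_nil, Pi.pow_apply, Pi.mul_apply]
  rcases j with _ | j
  · rcases a with _ | a <;> rcases i with _ | i <;> rcases m with _ | m <;>
      simp only [Nat.add_sub_cancel, Nat.zero_sub, Nat.cast_zero, Nat.cast_add, Nat.cast_one] <;>
      push_cast <;> ring
  · rcases a with _ | a <;> rcases i with _ | i <;> rcases m with _ | m <;>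
      simp only [Nat.add_sub_cancel, Nat.zero_sub, Nat.cast_zero, Nat.cast_add, Nat.cast_one] <;>
      push_cast
    · linear_combination (c * ((j + 1) * y t ^ j) * L) * hY
    · linear_combination (c * ((j + 1) * y t ^ j) * A t ^ (m + 1) * L) * hY
    · linear_combination (c * q t ^ (i + 1) * ((j + 1) * y t ^ j) * L) * hY
    · linear_combination (c * q t ^ (i + 1) * ((j + 1) * y t ^ j) * A t ^ (m + 1) * L) * hY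
    · linear_combination (c * X t ^ (a + 1) * ((j + 1) * y t ^ j) * L) * hY
    · linear_combination (c * X t ^ (a + 1) * ((j + 1) * y t ^ j) * A t ^ (m + 1) * L) * hY
    · linear_combination (c * X t ^ (a + 1) * q t ^ (i + 1) * ((j + 1) * y t ^ j) * L) * hY
    · linear_combination (c * X t ^ (a + 1) * q t ^ (i + 1) * ((j + 1) * y t ^ j) *
        A t ^ (m + 1) * L) * hY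

lemma hasDeriv_P (P : List Tm) {X q y A : ℝ → ℝ} {t L Y : ℝ}
    (hX : HasDerivAt X (L * (y t + q t * (X t ^ 2 - 1))) t)
    (hq : HasDerivAt q (L * (X t * (1 + q t ^ 2))) t)
    (hy : HasDerivAt y (L * Y) t)
    (hY : 4 * X t * Y = -(X t ^ 2 - 1) * (A t - X t ^ 2 - 1) - 3 * y t ^ 2
      + 4 * X t * (2 * X t - 3) * q t * y t)
    (hA : HasDerivAt A (L * (2 * A t * q t * (X t - 1))) t) :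
    ∃ d, HasDerivAt (fun τ => evP (X τ) (q τ) (y τ) (A τ) P) d t ∧
      4 * X t * d = L * evP (X t) (q t) (y t) (A t) (dP P) := by
  induction P with
  | nil =>
    refine ⟨0, ?_, ?_⟩
    · simp only [evP_nil]
      exact hasDerivAt_const _ _
    · rw [evP_dP]
      simp [evP_nil, pt]
  | cons s P ih =>
    obtain ⟨d, hd, hd'⟩ := ih
    obtain ⟨c, a, i, j, m⟩ := s
    obtain ⟨e, he, he'⟩ := hasDeriv_T c a i j m hX hq hy hY hA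
    refine ⟨e + d, ?_, ?_⟩
    · simp only [evP_cons]
      exact he.add hd
    · rw [evP_dP_cons]
      linear_combination he' + hd'

/-! ### the data -/

/-- the polynomial `E1` -/
def G1 : List GT := [((0, 1, 0), [(5, 0), (-8, 2), (-40, 3), (-45, 4)]),
  ((0, 1, 1), [(-5, 0), (9, 2)]),
  ((0, 3, 0), [(15, 0)]),
  ((1, 0, 0), [(-2, 0), (-2, 1), (-8, 2), (16, 3), (10, 4), (-14, 5)]),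
  ((1, 0, 1), [(2, 0), (-2, 1), (-2, 2), (2, 3)]),
  ((1, 2, 0), [(-6, 0), (30, 1)])]

/-- the polynomial `E2` -/
def G2 : List GT := [((0, 0, 0), [(-5, 0), (32, 3), (18, 4), (64, 5), (32, 6), (-96, 7), (-45, 8)]),
  ((0, 0, 1), [(10, 0), (-14, 2), (-48, 3), (-50, 4), (48, 5), (54, 6)]),
  ((0, 0, 2), [(-5, 0), (14, 2), (-9, 4)]),
  ((0, 2, 0), [(-60, 0), (-64, 2), (-240, 3), (-540, 4)]),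
  ((0, 2, 1), [(60, 0)]),
  ((0, 4, 0), [(-135, 0)]),
  ((1, 1, 0), [(12, 0), (-128, 1), (40, 2), (768, 3), (1220, 4), (-480, 5), (-1080, 6)]),
  ((1, 1, 1), [(-12, 0), (152, 1), (-156, 2), (-216, 3), (216, 4)]),
  ((1, 3, 0), [(36, 0), (-600, 1), (360, 2)]),
  ((2, 0, 0), [(8, 1), (56, 2), (-208, 3), (-256, 4), (536, 5), (200, 6), (-336, 7)]),
  ((2, 0, 1), [(-8, 1), (56, 2), (-40, 3), (-56, 4), (48, 5)]),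
  ((2, 2, 0), [(24, 1), (-840, 2), (720, 3)])]

/-- the polynomial `E3` -/
def G3 : List GT := [((0, 1, 0), [(120, 0), (176, 2), (352, 3), (1408, 4), (4352, 5), (5520, 6), (-5088, 7), (-6840, 8)]),
  ((0, 1, 1), [(-240, 0), (-168, 2), (-448, 3), (-2256, 4), (576, 5), (3240, 6)]),
  ((0, 1, 2), [(120, 0), (-8, 2), (-144, 4)]),
  ((0, 3, 0), [(900, 0), (16, 2), (-3840, 3), (-4500, 4)]),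
  ((0, 3, 1), [(-900, 0), (540, 2)]),
  ((0, 5, 0), [(1620, 0)]),
  ((1, 0, 0), [(-12, 0), (128, 1), (-40, 2), (-1088, 3), (-1048, 4), (-2208, 5), (-1408, 6), (9024, 7), (5028, 8), (-5856, 9), (-2520, 10)]),
  ((1, 0, 1), [(24, 0), (-360, 1), (376, 2), (1736, 3), (2360, 4), (-2936, 5), (-5784, 6), (1560, 7), (3024, 8)]),
  ((1, 0, 2), [(-12, 0), (232, 1), (-336, 2), (-592, 3), (852, 4), (360, 5), (-504, 6)]),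
  ((1, 2, 0), [(-144, 0), (3112, 1), (-1328, 2), (11520, 3), (22112, 4), (2040, 5), (-38880, 6)]),
  ((1, 2, 1), [(144, 0), (-3568, 1), (1632, 2), (-144, 3), (1728, 4)]),
  ((1, 4, 0), [(-324, 0), (9480, 1), (-4680, 2)]),
  ((2, 1, 0), [(352, 1), (3488, 2), (-15680, 3), (-32032, 4), (24160, 5), (68960, 6), (-10368, 7), (-38880, 8)]),
  ((2, 1, 1), [(-352, 1), (-3264, 2), (10272, 3), (-2720, 4), (-11712, 5), (7776, 6)]),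
  ((2, 3, 0), [(1056, 1), (18048, 2), (-27840, 3), (12960, 4)]),
  ((3, 0, 0), [(-32, 1), (-448, 2), (2592, 3), (4992, 4), (-14880, 5), (-10944, 6), (24416, 7), (6400, 8), (-12096, 9)]),
  ((3, 0, 1), [(32, 1), (-384, 2), (-128, 3), (2560, 4), (-1632, 5), (-2176, 6), (1728, 7)]),
  ((3, 2, 0), [(-96, 1), (6144, 2), (12192, 3), (-44160, 4), (25920, 5)])]

/-- the polynomial `E4` -/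
def G4 : List GT := [((0, 0, 0), [(-120, 0), (-224, 2), (160, 3), (-1448, 4), (-8704, 5), (-9536, 6), (-3392, 7), (2616, 8), (40448, 9), (25632, 10), (-28512, 11), (-16920, 12)]),
  ((0, 0, 1), [(360, 0), (320, 2), (-640, 3), (4752, 4), (10368, 5), (10144, 6), (-21632, 7), (-37752, 8), (11904, 9), (22176, 10)]),
  ((0, 0, 2), [(-360, 0), (32, 2), (480, 3), (-3168, 4), (-1344, 5), (8896, 6), (864, 7), (-5400, 8)]),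
  ((0, 0, 3), [(120, 0), (-128, 2), (-136, 4), (144, 6)]),
  ((0, 2, 0), [(-3060, 0), (256, 2), (27136, 3), (29192, 4), (120064, 5), (204416, 6), (-130560, 7), (-367380, 8)]),
  ((0, 2, 1), [(6120, 0), (-4536, 2), (-29824, 3), (-39048, 4), (20736, 5), (90072, 6)]),
  ((0, 2, 2), [(-3060, 0), (4280, 2), (-3492, 4)]),
  ((0, 4, 0), [(-16200, 0), (-1312, 2), (26400, 3), (-42120, 4)]),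
  ((0, 4, 1), [(16200, 0), (-8640, 2)]),
  ((0, 6, 0), [(-24300, 0)]),
  ((1, 1, 0), [(288, 0), (-7152, 1), (1888, 2), (-39616, 3), (-57312, 4), (-264352, 5), (-365856, 6), (667072, 7), (1213376, 8), (-390768, 9), (-763200, 10)]),
  ((1, 1, 1), [(-576, 0), (16720, 1), (-5120, 2), (43856, 3), (96384, 4), (18416, 5), (-440768, 6), (-98448, 7), (369792, 8)]),
  ((1, 1, 2), [(288, 0), (-9568, 1), (3232, 2), (-32, 3), (15872, 4), (11520, 5), (-21312, 6)]),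
  ((1, 3, 0), [(2160, 0), (-76544, 1), (37536, 2), (123072, 3), (574960, 4), (-132480, 5), (-794880, 6)]),
  ((1, 3, 1), [(-2160, 0), (84656, 1), (-47280, 2), (-62544, 3), (57600, 4)]),
  ((1, 5, 0), [(3888, 0), (-173040, 1), (83520, 2)]),
  ((2, 0, 0), [(-864, 1), (-3216, 2), (29376, 3), (42944, 4), (34048, 5), (7264, 6), (-489536, 7), (-324800, 8), (816736, 9), (427568, 10), (-389760, 11), (-149760, 12)]),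
  ((2, 0, 1), [(1952, 1), (6912, 2), (-55520, 3), (-81536, 4), (131168, 5), (349056, 6), (-135200, 7), (-454144, 8), (57600, 9), (179712, 10)]),
  ((2, 0, 2), [(-1088, 1), (-4528, 2), (28672, 3), (-13024, 4), (-61760, 5), (47504, 6), (34176, 7), (-29952, 8)]),
  ((2, 2, 0), [(-11808, 1), (-103648, 2), (-90432, 3), (-1049024, 4), (357344, 5), (2652576, 6), (983040, 7), (-2799360, 8)]),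
  ((2, 2, 1), [(12480, 1), (142976, 2), (-158912, 3), (-14912, 4), (-176640, 5), (200448, 6)]),
  ((2, 4, 0), [(-27648, 1), (-447312, 2), (520320, 3), (-115200, 4)]),
  ((3, 1, 0), [(-1344, 1), (-48000, 2), (160064, 3), (952576, 4), (-887488, 5), (-3220352, 6), (1040576, 7), (4243456, 8), (-373248, 9), (-1866240, 10)]),
  ((3, 1, 1), [(1344, 1), (42368, 2), (-44800, 3), (-326016, 4), (653248, 5), (-25088, 6), (-674304, 7), (373248, 8)]),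
  ((3, 3, 0), [(-4032, 1), (-170112, 2), (-204480, 3), (1075200, 4), (-1328640, 5), (622080, 6)]),
  ((4, 0, 0), [(128, 1), (3584, 2), (-31616, 3), (-88832, 4), (359808, 5), (402432, 6), (-1159808, 7), (-598784, 8), (1412096, 9), (281600, 10), (-580608, 11)]),
  ((4, 0, 1), [(-128, 1), (2816, 2), (5376, 3), (-50688, 4), (8064, 5), (157440, 6), (-96256, 7), (-109568, 8), (82944, 9)]),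
  ((4, 2, 0), [(384, 1), (-46848, 2), (-296832, 3), (635136, 4), (1029120, 5), (-2565120, 6), (1244160, 7)])]

/-- the polynomial `E5` -/
def G5 : List GT := [((0, 1, 0), [(6120, 0), (-1152, 2), (-80960, 3), (-80120, 4), (-572672, 5), (-866432, 6), (-836992, 7), (-586568, 8), (4364544, 9), (6287616, 10), (-3078720, 11), (-4599720, 12)]),
  ((0, 1, 1), [(-18360, 0), (15960, 2), (173120, 3), (203760, 4), (527168, 5), (790224, 6), (-1092928, 7), (-4192824, 8), (337344, 9), (3281112, 10)]),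
  ((0, 1, 2), [(18360, 0), (-28464, 2), (-92160, 3), (-105920, 4), (74112, 5), (543792, 6), (28800, 7), (-445176, 8)]),
  ((0, 1, 3), [(-6120, 0), (13656, 2), (-17720, 4), (10440, 6)]),
  ((0, 3, 0), [(83160, 0), (14400, 2), (-248960, 3), (545744, 4), (2173184, 5), (5974080, 6), (-3296640, 7), (-12899880, 8)]),
  ((0, 3, 1), [(-166320, 0), (76400, 2), (265280, 3), (-678032, 4), (-65472, 5), (1985616, 6)]),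
  ((0, 3, 2), [(83160, 0), (-90800, 2), (-360, 4)]),
  ((0, 5, 0), [(340200, 0), (20800, 2), (-692160, 3), (19800, 4)]),
  ((0, 5, 1), [(-340200, 0), (180360, 2)]),
  ((0, 7, 0), [(437400, 0)]),
  ((1, 0, 0), [(-288, 0), (7152, 1), (-96, 2), (30784, 3), (53248, 4), (668208, 5), (916992, 6), (-513408, 7), (-1525152, 8), (-5340976, 9), (-3142624, 10), (9911616, 11), (6471360, 12), (-4763376, 13), (-2773440, 14)]),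
  ((1, 0, 1), [(864, 0), (-26752, 1), (7040, 2), (-55584, 3), (-166656, 4), (-928768, 5), (-737536, 6), (2937920, 7), (5804000, 8), (-3026304, 9), (-8542848, 10), (1099488, 11), (3635136, 12)]),
  ((1, 0, 2), [(-864, 0), (32048, 1), (-13792, 2), (12192, 3), (93472, 4), (273856, 5), (-910176, 6), (-825888, 7), (1721280, 8), (507792, 9), (-889920, 10)]),
  ((1, 0, 3), [(288, 0), (-12448, 1), (6848, 2), (12608, 3), (10720, 4), (14816, 5), (-46080, 6), (-14976, 7), (28224, 8)]),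
  ((1, 2, 0), [(-7344, 0), (295920, 1), (-154176, 2), (-1152000, 3), (-4404832, 4), (-7391712, 5), (-20431296, 6), (22976768, 7), (81199632, 8), (-2355984, 9), (-70652160, 10)]),
  ((1, 2, 1), [(14688, 0), (-662720, 1), (405536, 2), (1784064, 3), (5263776, 4), (-1709760, 5), (-18013984, 6), (-5634432, 7), (19208448, 8)]),
  ((1, 2, 2), [(-7344, 0), (366800, 1), (-251360, 2), (-613088, 3), (748048, 4), (523152, 5), (-787968, 6)]),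
  ((1, 4, 0), [(-38880, 0), (2025520, 1), (-963040, 2), (-105792, 3), (-180096, 4), (5023440, 5), (-14448960, 6)]),
  ((1, 4, 1), [(38880, 0), (-2195680, 1), (1162560, 2), (1161408, 3), (-429120, 4)]),
  ((1, 6, 0), [(-58320, 0), (3653040, 1), (-1751040, 2)]),
  ((2, 1, 0), [(45312, 1), (255744, 2), (855552, 3), (3639296, 4), (6887424, 5), (16440832, 6), (-49250816, 7), (-105540864, 8), (68794112, 9), (161935104, 10), (-29260800, 11), (-74868480, 12)]),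
  ((2, 1, 1), [(-96128, 1), (-742912, 2), (-512128, 3), (-5219712, 4), (2466944, 5), (25433344, 6), (17295488, 7), (-55025536, 8), (-20458752, 9), (36896256, 10)]),
  ((2, 1, 2), [(50816, 1), (499840, 2), (-395008, 3), (-660864, 4), (-1946752, 5), (2458112, 6), (2459904, 7), (-2467584, 8)]),
  ((2, 3, 0), [(362624, 1), (4097728, 2), (-7949824, 3), (-24349440, 4), (-10687616, 5), (108004160, 6), (30021120, 7), (-107112960, 8)]),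
  ((2, 3, 1), [(-379136, 1), (-4927680, 2), (7455488, 3), (929344, 4), (-10090752, 5), (7064064, 6)]),
  ((2, 5, 0), [(680064, 1), (11674560, 2), (-13317120, 3), (3882240, 4)]),
  ((3, 0, 0), [(4800, 1), (73728, 2), (-520896, 3), (-1633792, 4), (286848, 5), (2607360, 6), (19536768, 7), (13774080, 8), (-66096960, 9), (-41029376, 10), (76719936, 11), (36460800, 12), (-29930496, 13), (-10252800, 14)]),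
  ((3, 0, 1), [(-10496, 1), (-161280, 2), (854144, 3), (3286272, 4), (-5139072, 5), (-16952320, 6), (8401792, 7), (38860032, 8), (-6689920, 9), (-37336064, 10), (2583552, 11), (12303360, 12)]),
  ((3, 0, 2), [(5696, 1), (96000, 2), (-348224, 3), (-763648, 4), (3173824, 5), (-371968, 6), (-5761984, 7), (3090176, 8), (2930688, 9), (-2050560, 10)]),
  ((3, 2, 0), [(57984, 1), (1382912, 2), (5302272, 3), (24046336, 4), (-1088640, 5), (-174040832, 6), (-33596928, 7), (278554112, 8), (121906176, 9), (-223948800, 10)]),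
  ((3, 2, 1), [(-60672, 1), (-1841664, 2), (-3223552, 3), (10540544, 4), (4750592, 5), (-1760256, 6), (-28471296, 7), (20183040, 8)]),
  ((3, 4, 0), [(130752, 1), (5075712, 2), (13397184, 3), (-37076736, 4), (17971200, 5), (2880000, 6)]),
  ((4, 1, 0), [(5120, 1), (522496, 2), (-1162752, 3), (-21197568, 4), (16579584, 5), (136925952, 6), (-61548032, 7), (-307863808, 8), (65356800, 9), (305922048, 10), (-21565440, 11), (-111974400, 12)]),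
  ((4, 1, 1), [(-5120, 1), (-436992, 2), (-796672, 3), (8190464, 4), (-5523456, 5), (-29429504, 6), (48473088, 7), (1861632, 8), (-44728320, 9), (22394880, 10)]),
  ((4, 3, 0), [(15360, 1), (1412352, 2), (6635520, 3), (-10975488, 4), (-7541760, 5), (42639360, 6), (-69427200, 7), (37324800, 8)]),
  ((5, 0, 0), [(-512, 1), (-28672, 2), (381952, 3), (1507328, 4), (-8081408, 5), (-12500992, 6), (45427712, 7), (35258368, 8), (-101867008, 9), (-40005632, 10), (98975744, 11), (15769600, 12), (-34836480, 13)]),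
  ((5, 0, 1), [(512, 1), (-21504, 2), (-90624, 3), (858112, 4), (437760, 5), (-5870592, 6), (1790464, 7), (11833344, 8), (-7114752, 9), (-6799360, 10), (4976640, 11)]),
  ((5, 2, 0), [(-1536, 1), (365568, 2), (4700160, 3), (-4912128, 4), (-48886272, 5), (67350528, 6), (80240640, 7), (-173506560, 8), (74649600, 9)])]

/-- rows: polynomial and monomial factor -/
def rwL : List (ℕ × ℕ × ℕ × ℕ) := [(0, 6, 0, 0), (0, 5, 1, 0), (0, 4, 2, 0), (0, 3, 3, 0), (0, 2, 4, 0), (0, 1, 5, 0), (0, 0, 6, 0), (0, 4, 0, 0), (0, 3, 1, 0), (0, 2, 2, 0), (0, 1, 3, 0), (0, 0, 4, 0), (0, 2, 0, 0), (0, 1, 1, 0), (0, 0, 2, 0), (0, 0, 0, 0), (0, 4, 0, 1), (0, 3, 1, 1), (0, 2, 2, 1), (0, 1, 3, 1), (0, 0, 4, 1), (0, 2, 0, 1), (0, 1, 1, 1), (0, 0, 2, 1), (0, 0,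 0, 1), (0, 2, 0, 2), (0, 1, 1, 2), (0, 0, 2, 2), (0, 0, 0, 2), (0, 0, 0, 3), (1, 5, 0, 0), (1, 4, 1, 0), (1, 3, 2, 0), (1, 2, 3, 0), (1, 1, 4, 0), (1, 0, 5, 0), (1, 3, 0, 0), (1, 2, 1, 0), (1, 1, 2, 0), (1, 0, 3, 0), (1, 1, 0, 0), (1, 0, 1, 0), (1, 3, 0, 1), (1, 1, 0, 1), (1, 1, 0, 2), (2, 4, 0, 0), (2, 3, 1, 0), (2, 2, 2, 0), (2, 1, 3, 0), (2, 0, 4, 0), (2, 2, 0, 0), (2, 1, 1, 0), (2, 0, 2, 0), (2, 0, 0, 0), (2, 2, 0, 1), (2, 0, 0, 1), (3, 3, 0, 0), (3, 2, 1, 0), (3, 1, 2, 0), (3, 0, 3, 0), (3, 1, 0, 0), (3, 0, 1, 0), (3, 1, 0, 1), (4, 2, 0, 0), (4, 1, 1, 0), (4, 0, 2, 0), (4, 0, 0, 0), (4, 0, 0, 1)]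

/-- columns: monomials -/
def clL : List (ℕ × ℕ × ℕ) := [(0, 1, 0), (0, 1, 1), (0, 1, 2), (0, 1, 3), (0, 1, 4), (0, 3, 0), (0, 3, 1), (0, 3, 2), (0, 3, 3), (0, 5, 0), (0, 5, 1), (0, 5, 2), (0, 7, 0), (0, 7, 1), (0, 9, 0), (1, 0, 0), (1, 0, 1), (1, 0, 2), (1, 0, 3), (1, 0, 4), (1, 2, 0), (1, 2, 1), (1, 2, 2), (1, 2, 3), (1, 4, 0), (1, 4, 1), (1, 4, 2), (1, 6, 0), (1, 6, 1), (1, 8, 0), (2, 1, 0), (2, 1, 1), (2, 1, 2), (2, 1, 3), (2, 3, 0), (2, 3, 1), (2, 3, 2), (2, 5, 0), (2, 5, 1), (2, 7, 0), (3, 0, 0), (3, 0, 1), (3, 0, 2), (3, 0, 3), (3, 2, 0), (3, 2, 1), (3, 2, 2), (3, 4, 0), (3, 4, 1), (3, 6, 0), (4, 1, 0), (4, 1, 1), (4, 1, 2), (4, 3, 0), (4, 3, 1), (4, 5, 0), (5, 0, 0), (5, 0, 1), (5, 0, 2), (5, 2, 0), (5, 2, 1), (5, 4, 0),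 (6, 1, 0), (6, 1, 1), (6, 3, 0), (7, 0, 0), (7, 0, 1), (7, 2, 0)]

/-- the transpose of the matrix at `X = 2`, modulo 7 -/
def MT : List (List ℕ) := [[0, 0, 0, 0, 0, 0, 0, 0, 0, 0, 0, 0, 0, 0, 0, 4, 0, 0, 0, 0, 0, 0, 0, 0, 0, 0, 0, 0, 0, 0, 0, 0, 0, 0, 0, 0, 0, 0, 0, 0, 0, 0, 0, 0, 0, 0, 0, 0, 0, 0, 0, 0, 0, 3, 0, 0, 0, 0, 0, 0, 0, 5, 0, 0, 0, 0, 0, 0],
  [0, 0, 0, 0, 0, 0, 0, 0, 0, 0, 0, 0, 0, 0, 0, 3, 0, 0, 0, 0, 0, 0, 0, 0, 4, 0, 0, 0, 0, 0, 0, 0, 0, 0, 0, 0, 0, 0, 0, 0, 0, 3, 0, 0, 0, 0, 0, 0, 0, 0, 0, 0, 0, 1, 0, 3, 0, 0, 0, 0, 0, 5, 0, 0, 0, 0, 5, 0],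
  [0, 0, 0, 0, 0, 0, 0, 0, 0, 0, 0, 0, 0, 0, 0, 0, 0, 0, 0, 0, 0, 0, 0, 0, 3, 0, 0, 0, 4, 0, 0, 0, 0, 0, 0, 0, 0, 0, 0, 0, 0, 5, 0, 0, 0, 0, 0, 0, 0, 0, 0, 0, 0, 3, 0, 1, 0, 0, 0, 0, 0, 2, 0, 0, 0, 0, 5, 5],
  [0, 0, 0, 0, 0, 0, 0, 0, 0, 0, 0, 0, 0, 0, 0, 0, 0, 0, 0, 0, 0, 0, 0, 0, 0, 0, 0, 0, 3, 4, 0, 0, 0, 0, 0, 0, 0, 0, 0, 0, 0, 0, 0, 0, 0, 0, 0, 0, 0, 0, 0, 0, 0, 0, 0, 3, 0, 0, 0, 0, 0, 5, 0, 0, 0, 0, 5, 5],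
  [0, 0, 0, 0, 0, 0, 0, 0, 0, 0, 0, 0, 0, 0, 0, 0, 0, 0, 0, 0, 0, 0, 0, 0, 0, 0, 0, 0, 0, 3, 0, 0, 0, 0, 0, 0, 0, 0, 0, 0, 0, 0, 0, 0, 0, 0, 0, 0, 0, 0, 0, 0, 0, 0, 0, 0, 0, 0, 0, 0, 0, 0, 0, 0, 0, 0, 0, 5],
  [0, 0, 0, 0, 0, 0, 0, 0, 0, 0, 0, 0, 0, 0, 4, 1, 0, 0, 0, 0, 0, 0, 0, 0, 0, 0, 0, 0, 0, 0, 0, 0, 0, 0, 0, 0, 0, 0, 0, 0, 0, 2, 0, 0, 0, 0, 0, 0, 0, 0, 0, 0, 3, 3, 0, 0, 0, 0, 0, 5, 0, 2, 0, 0, 0, 0, 0, 0],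
  [0, 0, 0, 0, 0, 0, 0, 0, 0, 0, 0, 0, 0, 0, 3, 0, 0, 0, 0, 0, 0, 0, 0, 4, 1, 0, 0, 0, 0, 0, 0, 0, 0, 0, 0, 0, 0, 0, 0, 3, 0, 4, 0, 0, 0, 0, 0, 0, 0, 0, 0, 0, 1, 0, 0, 3, 0, 0, 0, 5, 0, 5, 0, 0, 0, 5, 5, 0],
  [0, 0, 0, 0, 0, 0, 0, 0, 0, 0, 0, 0, 0, 0, 0, 0, 0, 0, 0, 0, 0, 0, 0, 3, 0, 0, 0, 4, 1, 0, 0, 0, 0, 0, 0, 0, 0, 0, 0, 5, 0, 0, 0, 0, 0, 0, 0, 0, 0, 0, 0, 0, 3, 0, 0, 0, 0, 0, 0, 2, 0, 6, 0, 0, 0, 5, 3, 5],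
  [0, 0, 0, 0, 0, 0, 0, 0, 0, 0, 0, 0, 0, 0, 0, 0, 0, 0, 0, 0, 0, 0, 0, 0, 0, 0, 0, 3, 0, 1, 0, 0, 0, 0, 0, 0, 0, 0, 0, 0, 0, 0, 0, 0, 0, 0, 0, 0, 0, 0, 0, 0, 0, 0, 0, 0, 0, 0, 0, 5, 0, 0, 0, 0, 0, 5, 0, 3],
  [0, 0, 0, 0, 0, 0, 0, 0, 0, 0, 0, 4, 0, 0, 1, 0, 0, 0, 0, 0, 0, 0, 0, 0, 0, 0, 0, 0, 0, 0, 0, 0, 0, 0, 0, 0, 0, 0, 0, 2, 0, 5, 0, 0, 0, 0, 0, 0, 0, 3, 0, 0, 3, 3, 0, 0, 0, 0, 0, 2, 0, 1, 0, 0, 0, 0, 6, 0],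
  [0, 0, 0, 0, 0, 0, 0, 0, 0, 0, 0, 3, 0, 0, 0, 0, 0, 0, 0, 0, 4, 0, 0, 1, 0, 0, 0, 0, 0, 0, 0, 0, 0, 0, 0, 3, 0, 0, 0, 4, 0, 0, 0, 0, 0, 0, 0, 0, 0, 1, 0, 0, 0, 0, 0, 3, 0, 0, 0, 5, 0, 1, 0, 0, 0, 5, 6, 6],
  [0, 0, 0, 0, 0, 0, 0, 0, 0, 0, 0, 0, 0, 0, 0, 0, 0, 0, 0, 0, 3, 0, 0, 0, 0, 0, 0, 1, 0, 0, 0, 0, 0, 0, 0, 5, 0, 0, 0, 0, 0, 0, 0, 0, 0, 0, 0, 0, 0, 3, 0, 0, 0, 0, 0, 0, 0, 0, 0, 6, 0, 0, 0, 0, 0, 3, 0, 6],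
  [0, 0, 0, 0, 0, 0, 4, 0, 0, 0, 0, 1, 0, 0, 0, 0, 0, 0, 0, 0, 0, 0, 0, 0, 0, 0, 0, 0, 0, 0, 0, 0, 0, 0, 0, 2, 0, 0, 0, 5, 0, 0, 0, 0, 0, 0, 0, 0, 0, 3, 0, 0, 3, 0, 0, 0, 0, 0, 0, 1, 0, 4, 0, 0, 0, 6, 5, 0],
  [0, 0, 0, 0, 0, 0, 3, 0, 0, 0, 0, 0, 0, 0, 0, 0, 0, 0, 0, 0, 1, 0, 0, 0, 0, 0, 0, 0, 0, 0, 0, 0, 0, 0, 0, 4, 0, 0, 0, 0, 0, 0, 0, 0, 0, 0, 0, 0, 0, 0, 0, 0, 0, 0, 0, 0, 0, 0, 0, 1, 0, 0, 0, 0, 0, 6, 0, 5],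
  [0, 0, 0, 0, 0, 0, 1, 0, 0, 0, 0, 0, 0, 0, 0, 0, 0, 0, 0, 0, 0, 0, 0, 0, 0, 0, 0, 0, 0, 0, 0, 0, 0, 0, 0, 5, 0, 0, 0, 0, 0, 0, 0, 0, 0, 0, 0, 0, 0, 3, 0, 0, 0, 0, 0, 0, 0, 0, 0, 4, 0, 0, 0, 0, 0, 5, 0, 0],
  [0, 0, 0, 0, 0, 0, 0, 0, 0, 0, 0, 0, 0, 0, 0, 5, 0, 0, 0, 0, 0, 0, 0, 0, 0, 0, 0, 0, 0, 0, 0, 0, 0, 0, 0, 0, 0, 0, 0, 0, 0, 0, 0, 0, 0, 0, 0, 0, 0, 0, 0, 0, 0, 1, 0, 0, 0, 0, 0, 0, 5, 0, 0, 0, 0, 0, 3, 0],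
  [0, 0, 0, 0, 0, 0, 0, 0, 0, 0, 0, 0, 0, 0, 0, 6, 0, 0, 0, 0, 0, 0, 0, 0, 5, 0, 0, 0, 0, 0, 0, 0, 0, 0, 0, 0, 0, 0, 0, 0, 3, 0, 0, 0, 0, 0, 0, 0, 0, 0, 0, 0, 0, 3, 0, 1, 0, 0, 0, 0, 5, 0, 5, 0, 0, 0, 5, 3],
  [0, 0, 0, 0, 0, 0, 0, 0, 0, 0, 0, 0, 0, 0, 0, 0, 0, 0, 0, 0, 0, 0, 0, 0, 6, 0, 0, 0, 5, 0, 0, 0, 0, 0, 0, 0, 0, 0, 0, 0, 5, 0, 0, 3, 0, 0, 0, 0, 0, 0, 0, 0, 0, 1, 0, 3, 0, 0, 0, 0, 2, 0, 5, 0, 0, 0, 3, 5],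
  [0, 0, 0, 0, 0, 0, 0, 0, 0, 0, 0, 0, 0, 0, 0, 0, 0, 0, 0, 0, 0, 0, 0, 0, 0, 0, 0, 0, 6, 5, 0, 0, 0, 0, 0, 0, 0, 0, 0, 0, 0, 0, 0, 5, 3, 0, 0, 0, 0, 0, 0, 0, 0, 0, 0, 1, 0, 0, 0, 0, 5, 0, 2, 0, 0, 0, 2, 3],
  [0, 0, 0, 0, 0, 0, 0, 0, 0, 0, 0, 0, 0, 0, 0, 0, 0, 0, 0, 0, 0, 0, 0, 0, 0, 0, 0, 0, 0, 6, 0, 0, 0, 0, 0, 0, 0, 0, 0, 0, 0, 0, 0, 0, 5, 0, 0, 0, 0, 0, 0, 0, 0, 0, 0, 0, 0, 0, 0, 0, 0, 0, 5, 0, 0, 0, 0, 2],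
  [0, 0, 0, 0, 0, 0, 0, 0, 0, 0, 0, 0, 0, 4, 5, 5, 0, 0, 0, 0, 0, 0, 0, 0, 0, 0, 0, 0, 0, 0, 0, 0, 0, 0, 0, 0, 0, 0, 0, 0, 2, 5, 0, 0, 0, 0, 0, 0, 0, 0, 0, 3, 1, 4, 0, 0, 0, 0, 5, 0, 2, 3, 0, 0, 0, 3, 0, 0],
  [0, 0, 0, 0, 0, 0, 0, 0, 0, 0, 0, 0, 0, 3, 6, 0, 0, 0, 0, 0, 0, 0, 4, 5, 5, 0, 0, 0, 0, 0, 0, 0, 0, 0, 0, 0, 0, 0, 3, 0, 4, 3, 0, 2, 0, 0, 0, 0, 0, 0, 0, 1, 3, 6, 0, 4, 0, 0, 5, 0, 5, 6, 2, 0, 5, 5, 1, 0],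
  [0, 0, 0, 0, 0, 0, 0, 0, 0, 0, 0, 0, 0, 0, 0, 0, 0, 0, 0, 0, 0, 0, 3, 6, 0, 0, 4, 5, 5, 0, 0, 0, 0, 0, 0, 0, 0, 0, 5, 0, 0, 0, 0, 4, 2, 0, 0, 0, 0, 0, 0, 3, 1, 0, 0, 6, 0, 0, 2, 0, 6, 6, 5, 0, 5, 3, 5, 1],
  [0, 0, 0, 0, 0, 0, 0, 0, 0, 0, 0, 0, 0, 0, 0, 0, 0, 0, 0, 0, 0, 0, 0, 0, 0, 0, 3, 6, 0, 5, 0, 0, 0, 0, 0, 0, 0, 0, 0, 0, 0, 0, 0, 0, 4, 0, 0, 0, 0, 0, 0, 0, 0, 0, 0, 0, 0, 0, 5, 0, 0, 0, 6, 0, 5, 2, 0, 5],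
  [0, 0, 0, 0, 0, 0, 0, 0, 0, 0, 4, 5, 0, 1, 5, 0, 0, 0, 0, 0, 0, 0, 0, 0, 0, 0, 0, 0, 0, 0, 0, 0, 0, 0, 0, 0, 0, 0, 2, 5, 5, 3, 0, 0, 0, 0, 0, 0, 3, 1, 0, 3, 4, 0, 0, 0, 0, 0, 2, 3, 1, 6, 0, 0, 0, 0, 0, 0],
  [0, 0, 0, 0, 0, 0, 0, 0, 0, 0, 3, 6, 0, 0, 0, 0, 0, 0, 0, 4, 5, 0, 1, 5, 0, 0, 0, 0, 0, 0, 0, 0, 0, 0, 3, 0, 0, 0, 4, 3, 0, 0, 0, 5, 0, 0, 0, 0, 1, 3, 0, 0, 6, 0, 0, 0, 0, 0, 5, 6, 1, 0, 1, 0, 5, 1, 6, 0],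
  [0, 0, 0, 0, 0, 0, 0, 0, 0, 0, 0, 0, 0, 0, 0, 0, 0, 0, 0, 3, 6, 0, 0, 0, 0, 0, 1, 5, 0, 0, 0, 0, 0, 0, 5, 0, 0, 0, 0, 0, 0, 0, 0, 0, 5, 0, 0, 0, 3, 1, 0, 0, 0, 0, 0, 0, 0, 0, 6, 6, 0, 0, 1, 0, 3, 5, 0, 6],
  [0, 0, 0, 0, 0, 4, 5, 0, 0, 0, 1, 5, 0, 0, 0, 0, 0, 0, 0, 0, 0, 0, 0, 0, 0, 0, 0, 0, 0, 0, 0, 0, 0, 0, 2, 5, 0, 0, 5, 3, 0, 0, 0, 0, 0, 0, 0, 0, 3, 4, 0, 3, 0, 0, 0, 0, 0, 0, 1, 6, 4, 1, 0, 0, 6, 0, 0, 0],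
  [0, 0, 0, 0, 0, 3, 6, 0, 0, 0, 0, 0, 0, 0, 0, 0, 0, 0, 0, 1, 5, 0, 0, 0, 0, 0, 0, 0, 0, 0, 0, 0, 0, 0, 4, 3, 0, 0, 0, 0, 0, 0, 0, 0, 0, 0, 0, 0, 0, 6, 0, 0, 0, 0, 0, 0, 0, 0, 1, 0, 0, 0, 4, 0, 6, 6, 0, 0],
  [0, 0, 0, 0, 0, 1, 5, 0, 0, 0, 0, 0, 0, 0, 0, 0, 0, 0, 0, 0, 0, 0, 0, 0, 0, 0, 0, 0, 0, 0, 0, 0, 0, 0, 5, 3, 0, 0, 0, 0, 0, 0, 0, 0, 0, 0, 0, 0, 3, 0, 0, 0, 0, 0, 0, 0, 0, 0, 4, 1, 0, 0, 0, 0, 5, 0, 0, 0],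
  [0, 0, 0, 0, 0, 0, 0, 0, 0, 0, 0, 0, 4, 5, 0, 0, 0, 0, 0, 0, 0, 0, 0, 0, 0, 0, 0, 0, 0, 0, 0, 0, 0, 0, 0, 0, 0, 0, 0, 0, 5, 2, 0, 0, 0, 0, 0, 0, 0, 0, 3, 1, 0, 3, 0, 0, 0, 5, 0, 0, 3, 4, 0, 0, 3, 0, 1, 0],
  [0, 0, 0, 0, 0, 0, 0, 0, 0, 0, 0, 0, 3, 6, 0, 0, 0, 0, 0, 0, 0, 4, 5, 0, 0, 0, 0, 0, 0, 0, 0, 0, 0, 0, 0, 0, 0, 3, 0, 0, 3, 3, 0, 5, 0, 0, 0, 0, 0, 0, 1, 3, 0, 6, 3, 3, 0, 5, 0, 0, 6, 5, 3, 5, 5, 0, 4, 1],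
  [0, 0, 0, 0, 0, 0, 0, 0, 0, 0, 0, 0, 0, 0, 0, 0, 0, 0, 0, 0, 0, 3, 6, 0, 0, 4, 5, 0, 0, 0, 0, 0, 0, 0, 0, 0, 0, 5, 0, 0, 0, 0, 0, 3, 5, 0, 0, 0, 0, 0, 3, 1, 0, 0, 1, 6, 0, 2, 0, 0, 6, 4, 6, 5, 3, 0, 4, 4],
  [0, 0, 0, 0, 0, 0, 0, 0, 0, 0, 0, 0, 0, 0, 0, 0, 0, 0, 0, 0, 0, 0, 0, 0, 0, 3, 6, 0, 0, 0, 0, 0, 0, 0, 0, 0, 0, 0, 0, 0, 0, 0, 0, 0, 3, 0, 0, 0, 0, 0, 0, 0, 0, 0, 3, 0, 0, 5, 0, 0, 0, 0, 6, 5, 2, 0, 0, 4],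
  [0, 0, 0, 0, 0, 0, 0, 0, 0, 4, 5, 0, 1, 5, 0, 0, 0, 0, 0, 0, 0, 0, 0, 0, 0, 0, 0, 0, 0, 0, 0, 0, 0, 0, 0, 0, 0, 2, 5, 2, 3, 5, 0, 0, 0, 0, 0, 3, 1, 0, 3, 4, 3, 4, 0, 0, 0, 2, 3, 4, 6, 1, 0, 0, 0, 1, 3, 0],
  [0, 0, 0, 0, 0, 0, 0, 0, 0, 3, 6, 0, 0, 0, 0, 0, 0, 0, 4, 5, 0, 1, 5, 0, 0, 0, 0, 0, 0, 0, 0, 0, 0, 3, 0, 0, 0, 4, 3, 3, 0, 0, 0, 3, 0, 0, 0, 1, 3, 0, 0, 6, 6, 0, 3, 4, 0, 5, 6, 5, 0, 2, 6, 5, 1, 4, 6, 3],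
  [0, 0, 0, 0, 0, 0, 0, 0, 0, 0, 0, 0, 0, 0, 0, 0, 0, 0, 3, 6, 0, 0, 0, 0, 0, 1, 5, 0, 0, 0, 0, 0, 0, 5, 0, 0, 0, 0, 0, 0, 0, 0, 0, 0, 3, 0, 0, 3, 1, 0, 0, 0, 0, 0, 0, 0, 0, 6, 6, 4, 0, 0, 0, 3, 5, 4, 0, 6],
  [0, 0, 0, 0, 4, 5, 0, 0, 0, 1, 5, 0, 0, 0, 0, 0, 0, 0, 0, 0, 0, 0, 0, 0, 0, 0, 0, 0, 0, 0, 0, 0, 0, 2, 5, 2, 0, 5, 3, 5, 0, 0, 0, 0, 0, 0, 0, 3, 4, 3, 3, 0, 4, 0, 0, 0, 0, 1, 6, 1, 1, 6, 0, 6, 0, 3, 6, 0],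
  [0, 0, 0, 0, 3, 6, 0, 0, 0, 0, 0, 0, 0, 0, 0, 0, 0, 0, 1, 5, 0, 0, 0, 0, 0, 0, 0, 0, 0, 0, 0, 0, 0, 4, 3, 3, 0, 0, 0, 0, 0, 0, 0, 0, 0, 0, 0, 0, 6, 6, 0, 0, 0, 0, 3, 0, 0, 1, 0, 2, 0, 0, 1, 6, 6, 6, 0, 6],
  [0, 0, 0, 0, 1, 5, 0, 0, 0, 0, 0, 0, 0, 0, 0, 0, 0, 0, 0, 0, 0, 0, 0, 0, 0, 0, 0, 0, 0, 0, 0, 0, 0, 5, 3, 5, 0, 0, 0, 0, 0, 0, 0, 0, 0, 0, 0, 3, 0, 4, 0, 0, 0, 0, 0, 0, 0, 4, 1, 6, 0, 0, 0, 5, 0, 6, 0, 0],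
  [0, 0, 0, 0, 0, 0, 0, 0, 0, 0, 0, 0, 5, 0, 0, 0, 0, 0, 0, 0, 0, 0, 0, 0, 0, 0, 0, 0, 0, 0, 0, 0, 0, 0, 0, 0, 0, 0, 0, 0, 2, 0, 0, 0, 0, 0, 0, 0, 0, 0, 1, 0, 0, 2, 0, 0, 5, 0, 0, 0, 4, 0, 0, 3, 0, 0, 2, 0],
  [0, 0, 0, 0, 0, 0, 0, 0, 0, 0, 0, 0, 6, 0, 0, 0, 0, 0, 0, 0, 0, 5, 0, 0, 0, 0, 0, 0, 0, 0, 0, 0, 0, 0, 0, 0, 3, 0, 0, 0, 3, 0, 0, 2, 0, 0, 0, 0, 0, 0, 3, 0, 0, 1, 1, 2, 5, 0, 0, 0, 5, 0, 4, 5, 0, 0, 1, 2],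
  [0, 0, 0, 0, 0, 0, 0, 0, 0, 0, 0, 0, 0, 0, 0, 0, 0, 0, 0, 0, 0, 6, 0, 0, 0, 5, 0, 0, 0, 0, 0, 0, 0, 0, 0, 0, 5, 0, 0, 0, 0, 0, 3, 3, 2, 0, 0, 0, 0, 0, 1, 0, 0, 0, 3, 1, 2, 0, 0, 0, 4, 0, 5, 3, 0, 0, 5, 1],
  [0, 0, 0, 0, 0, 0, 0, 0, 0, 0, 0, 0, 0, 0, 0, 0, 0, 0, 0, 0, 0, 0, 0, 0, 0, 6, 0, 0, 0, 0, 0, 0, 0, 0, 0, 0, 0, 0, 0, 0, 0, 0, 5, 0, 3, 0, 0, 0, 0, 0, 0, 0, 0, 0, 1, 0, 5, 0, 0, 0, 0, 0, 4, 2, 0, 0, 0, 5],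
  [0, 0, 0, 0, 0, 0, 0, 0, 4, 5, 0, 0, 5, 0, 0, 0, 0, 0, 0, 0, 0, 0, 0, 0, 0, 0, 0, 0, 0, 0, 0, 0, 0, 0, 0, 0, 2, 5, 2, 0, 5, 0, 0, 0, 0, 0, 3, 1, 0, 0, 4, 3, 2, 3, 0, 0, 2, 3, 4, 0, 1, 6, 0, 0, 1, 2, 0, 0],
  [0, 0, 0, 0, 0, 0, 0, 0, 3, 6, 0, 0, 0, 0, 0, 0, 0, 4, 5, 0, 0, 5, 0, 0, 0, 0, 0, 0, 0, 0, 0, 0, 3, 0, 0, 0, 4, 3, 3, 0, 0, 0, 2, 5, 0, 0, 1, 3, 0, 0, 6, 6, 1, 0, 4, 3, 5, 6, 5, 0, 2, 5, 1, 1, 4, 1, 6, 0],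
  [0, 0, 0, 0, 0, 0, 0, 0, 0, 0, 0, 0, 0, 0, 0, 0, 0, 3, 6, 0, 0, 0, 0, 0, 0, 5, 0, 0, 0, 0, 0, 0, 5, 0, 0, 0, 0, 0, 0, 0, 0, 0, 4, 0, 5, 0, 3, 1, 0, 0, 0, 0, 0, 0, 6, 0, 6, 6, 4, 0, 0, 0, 2, 5, 4, 5, 0, 6],
  [0, 0, 0, 4, 5, 0, 0, 0, 1, 5, 0, 0, 0, 0, 0, 0, 0, 0, 0, 0, 0, 0, 0, 0, 0, 0, 0, 0, 0, 0, 0, 0, 2, 5, 2, 0, 5, 3, 5, 0, 0, 0, 0, 0, 0, 0, 3, 4, 3, 2, 0, 4, 3, 0, 0, 0, 1, 6, 1, 6, 6, 3, 0, 0, 3, 0, 4, 0],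
  [0, 0, 0, 3, 6, 0, 0, 0, 0, 0, 0, 0, 0, 0, 0, 0, 0, 1, 5, 0, 0, 0, 0, 0, 0, 0, 0, 0, 0, 0, 0, 0, 4, 3, 3, 0, 0, 0, 0, 0, 0, 0, 5, 0, 0, 0, 0, 6, 6, 1, 0, 0, 0, 0, 0, 0, 1, 0, 2, 5, 0, 0, 6, 6, 6, 6, 0, 4],
  [0, 0, 0, 1, 5, 0, 0, 0, 0, 0, 0, 0, 0, 0, 0, 0, 0, 0, 0, 0, 0, 0, 0, 0, 0, 0, 0, 0, 0, 0, 0, 0, 5, 3, 5, 0, 0, 0, 0, 0, 0, 0, 0, 0, 0, 0, 3, 0, 4, 3, 0, 0, 0, 0, 0, 0, 4, 1, 6, 3, 0, 0, 0, 0, 6, 4, 0, 0],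
  [0, 0, 0, 0, 0, 0, 0, 4, 5, 0, 0, 0, 0, 0, 0, 0, 0, 0, 0, 0, 0, 0, 0, 0, 0, 0, 0, 0, 0, 0, 0, 0, 0, 0, 0, 0, 5, 2, 0, 0, 0, 0, 0, 0, 0, 3, 1, 0, 0, 0, 3, 2, 0, 0, 0, 0, 3, 4, 0, 0, 6, 3, 0, 1, 2, 0, 4, 0],
  [0, 0, 0, 0, 0, 0, 0, 3, 6, 0, 0, 0, 0, 0, 0, 0, 4, 5, 0, 0, 0, 0, 0, 0, 0, 0, 0, 0, 0, 0, 0, 3, 0, 0, 0, 0, 3, 3, 0, 0, 0, 0, 5, 0, 0, 1, 3, 0, 0, 0, 6, 1, 0, 0, 3, 0, 6, 5, 0, 0, 5, 6, 6, 4, 1, 0, 6, 4],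
  [0, 0, 0, 0, 0, 0, 0, 0, 0, 0, 0, 0, 0, 0, 0, 0, 3, 6, 0, 0, 0, 0, 0, 0, 0, 0, 0, 0, 0, 0, 0, 5, 0, 0, 0, 0, 0, 0, 0, 0, 0, 0, 3, 0, 0, 3, 1, 0, 0, 0, 0, 0, 0, 0, 6, 0, 6, 4, 0, 0, 0, 0, 5, 4, 5, 0, 0, 6],
  [0, 0, 4, 5, 0, 0, 0, 1, 5, 0, 0, 0, 0, 0, 0, 0, 0, 0, 0, 0, 0, 0, 0, 0, 0, 0, 0, 0, 0, 0, 0, 2, 5, 2, 0, 0, 3, 5, 0, 0, 0, 0, 0, 0, 0, 3, 4, 3, 2, 0, 4, 3, 0, 0, 0, 0, 6, 1, 6, 3, 3, 3, 0, 3, 0, 4, 6, 0],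
  [0, 0, 3, 6, 0, 0, 0, 0, 0, 0, 0, 0, 0, 0, 0, 0, 1, 5, 0, 0, 0, 0, 0, 0, 0, 0, 0, 0, 0, 0, 0, 4, 3, 3, 0, 0, 0, 0, 0, 0, 0, 0, 3, 0, 0, 0, 6, 6, 1, 0, 0, 0, 0, 0, 4, 0, 0, 2, 5, 6, 0, 0, 3, 6, 6, 6, 0, 6],
  [0, 0, 1, 5, 0, 0, 0, 0, 0, 0, 0, 0, 0, 0, 0, 0, 0, 0, 0, 0, 0, 0, 0, 0, 0, 0, 0, 0, 0, 0, 0, 5, 3, 5, 0, 0, 0, 0, 0, 0, 0, 0, 0, 0, 0, 3, 0, 4, 3, 0, 0, 0, 0, 0, 0, 0, 1, 6, 3, 3, 0, 0, 0, 6, 4, 6, 0, 0],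
  [0, 0, 0, 0, 0, 0, 0, 5, 0, 0, 0, 0, 0, 0, 0, 0, 0, 0, 0, 0, 0, 0, 0, 0, 0, 0, 0, 0, 0, 0, 0, 0, 0, 0, 0, 0, 2, 0, 0, 0, 0, 0, 0, 0, 0, 1, 0, 0, 0, 0, 2, 0, 0, 0, 0, 0, 4, 0, 0, 0, 3, 0, 0, 2, 0, 0, 6, 0],
  [0, 0, 0, 0, 0, 0, 0, 6, 0, 0, 0, 0, 0, 0, 0, 0, 5, 0, 0, 0, 0, 0, 0, 0, 0, 0, 0, 0, 0, 0, 3, 0, 0, 0, 0, 0, 3, 0, 0, 0, 0, 0, 2, 0, 0, 3, 0, 0, 0, 0, 1, 0, 0, 0, 2, 0, 5, 0, 0, 0, 6, 0, 3, 1, 0, 0, 2, 6],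
  [0, 0, 0, 0, 0, 0, 0, 0, 0, 0, 0, 0, 0, 0, 0, 0, 6, 0, 0, 0, 0, 0, 0, 0, 0, 0, 0, 0, 0, 0, 5, 0, 0, 0, 0, 0, 0, 0, 0, 0, 0, 0, 3, 0, 0, 1, 0, 0, 0, 0, 0, 0, 0, 0, 1, 0, 4, 0, 0, 0, 0, 0, 6, 5, 0, 0, 0, 2],
  [0, 4, 5, 0, 0, 0, 0, 5, 0, 0, 0, 0, 0, 0, 0, 0, 0, 0, 0, 0, 0, 0, 0, 0, 0, 0, 0, 0, 0, 0, 2, 5, 2, 0, 0, 0, 5, 0, 0, 0, 0, 0, 0, 0, 0, 4, 3, 2, 0, 0, 3, 0, 0, 0, 0, 0, 1, 6, 3, 0, 3, 0, 0, 0, 4, 6, 6, 0],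
  [0, 3, 6, 0, 0, 0, 0, 0, 0, 0, 0, 0, 0, 0, 0, 0, 5, 0, 0, 0, 0, 0, 0, 0, 0, 0, 0, 0, 0, 0, 4, 3, 3, 0, 0, 0, 0, 0, 0, 0, 0, 0, 5, 0, 0, 6, 6, 1, 0, 0, 0, 0, 0, 0, 3, 0, 2, 5, 6, 0, 0, 0, 3, 6, 6, 2, 0, 6],
  [0, 1, 5, 0, 0, 0, 0, 0, 0, 0, 0, 0, 0, 0, 0, 0, 0, 0, 0, 0, 0, 0, 0, 0, 0, 0, 0, 0, 0, 0, 5, 3, 5, 0, 0, 0, 0, 0, 0, 0, 0, 0, 0, 0, 0, 0, 4, 3, 0, 0, 0, 0, 0, 0, 0, 0, 6, 3, 3, 0, 0, 0, 0, 4, 6, 6, 0, 0],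
  [4, 5, 0, 0, 0, 0, 0, 0, 0, 0, 0, 0, 0, 0, 0, 0, 0, 0, 0, 0, 0, 0, 0, 0, 0, 0, 0, 0, 0, 0, 5, 2, 0, 0, 0, 0, 0, 0, 0, 0, 0, 0, 0, 0, 0, 3, 2, 0, 0, 0, 0, 0, 0, 0, 0, 0, 6, 3, 0, 0, 0, 0, 0, 4, 6, 0, 0, 0],
  [3, 6, 0, 0, 0, 0, 0, 0, 0, 0, 0, 0, 0, 0, 0, 0, 0, 0, 0, 0, 0, 0, 0, 0, 0, 0, 0, 0, 0, 0, 3, 3, 0, 0, 0, 0, 0, 0, 0, 0, 0, 0, 0, 0, 0, 6, 1, 0, 0, 0, 0, 0, 0, 0, 0, 0, 5, 6, 0, 0, 0, 0, 0, 6, 2, 0, 0, 0],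
  [1, 5, 0, 0, 0, 0, 0, 0, 0, 0, 0, 0, 0, 0, 0, 0, 0, 0, 0, 0, 0, 0, 0, 0, 0, 0, 0, 0, 0, 0, 3, 5, 0, 0, 0, 0, 0, 0, 0, 0, 0, 0, 0, 0, 0, 4, 3, 0, 0, 0, 0, 0, 0, 0, 0, 0, 3, 3, 0, 0, 0, 0, 0, 6, 6, 0, 0, 0],
  [5, 0, 0, 0, 0, 0, 0, 0, 0, 0, 0, 0, 0, 0, 0, 0, 0, 0, 0, 0, 0, 0, 0, 0, 0, 0, 0, 0, 0, 0, 2, 0, 0, 0, 0, 0, 0, 0, 0, 0, 0, 0, 0, 0, 0, 2, 0, 0, 0, 0, 0, 0, 0, 0, 0, 0, 3, 0, 0, 0, 0, 0, 0, 6, 0, 0, 0, 0],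
  [6, 0, 0, 0, 0, 0, 0, 0, 0, 0, 0, 0, 0, 0, 0, 0, 0, 0, 0, 0, 0, 0, 0, 0, 0, 0, 0, 0, 0, 0, 3, 0, 0, 0, 0, 0, 0, 0, 0, 0, 0, 0, 0, 0, 0, 1, 0, 0, 0, 0, 0, 0, 0, 0, 0, 0, 6, 0, 0, 0, 0, 0, 0, 2, 0, 0, 0, 0],
  [5, 0, 0, 0, 0, 0, 0, 0, 0, 0, 0, 0, 0, 0, 0, 0, 0, 0, 0, 0, 0, 0, 0, 0, 0, 0, 0, 0, 0, 0, 5, 0, 0, 0, 0, 0, 0, 0, 0, 0, 0, 0, 0, 0, 0, 3, 0, 0, 0, 0, 0, 0, 0, 0, 0, 0, 3, 0, 0, 0, 0, 0, 0, 6, 0, 0, 0, 0]]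

/-- the inverse matrix modulo 7 -/
def NL : List (List ℕ) := [[6, 5, 0, 5, 0, 1, 0, 4, 6, 0, 5, 6, 6, 1, 2, 0, 1, 6, 2, 3, 6, 6, 0, 6, 6, 5, 0, 3, 5, 6, 4, 2, 0, 3, 0, 1, 6, 2, 0, 3, 1, 6, 5, 0, 1, 2, 6, 5, 0, 2, 5, 2, 1, 0, 1, 3, 4, 6, 1, 4, 4, 3, 5, 5, 6, 3, 5, 2],
  [0, 4, 5, 1, 1, 4, 3, 4, 0, 2, 5, 2, 4, 2, 4, 3, 2, 5, 4, 1, 3, 2, 3, 2, 4, 0, 6, 5, 3, 1, 5, 6, 3, 6, 1, 2, 4, 0, 2, 5, 6, 0, 5, 0, 2, 6, 2, 3, 5, 4, 6, 2, 2, 0, 5, 0, 1, 2, 0, 1, 6, 6, 6, 4, 2, 4, 6, 5],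
  [5, 1, 2, 0, 3, 5, 5, 4, 4, 4, 1, 4, 5, 5, 5, 0, 0, 2, 2, 4, 6, 6, 6, 5, 0, 3, 1, 4, 5, 0, 6, 3, 5, 1, 0, 3, 6, 5, 3, 4, 0, 6, 1, 6, 5, 3, 0, 0, 4, 1, 0, 2, 5, 4, 0, 0, 2, 1, 6, 4, 6, 6, 2, 0, 1, 2, 5, 0],
  [5, 4, 0, 6, 3, 3, 0, 5, 2, 5, 5, 3, 6, 4, 0, 6, 6, 5, 5, 5, 6, 5, 3, 1, 0, 0, 0, 5, 5, 3, 5, 5, 6, 6, 5, 0, 0, 1, 1, 2, 4, 0, 1, 2, 1, 6, 4, 0, 6, 4, 3, 1, 0, 6, 1, 6, 6, 0, 2, 5, 4, 0, 2, 2, 5, 2, 0, 1],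
  [5, 1, 1, 3, 1, 0, 4, 4, 2, 1, 3, 5, 4, 2, 3, 5, 6, 4, 2, 0, 6, 3, 4, 2, 2, 1, 4, 3, 1, 0, 5, 3, 5, 6, 0, 4, 3, 2, 1, 0, 3, 1, 1, 6, 0, 6, 3, 4, 2, 3, 1, 6, 6, 6, 5, 4, 6, 5, 2, 1, 6, 5, 3, 2, 6, 1, 3, 3],
  [4, 5, 3, 5, 6, 4, 6, 0, 3, 6, 3, 4, 5, 0, 4, 1, 6, 4, 6, 2, 6, 6, 5, 5, 6, 3, 2, 0, 5, 2, 6, 2, 3, 5, 5, 1, 4, 1, 2, 3, 5, 0, 2, 4, 2, 3, 6, 6, 0, 6, 6, 0, 2, 4, 4, 5, 1, 6, 3, 4, 6, 1, 0, 6, 4, 5, 1, 3],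
  [0, 0, 6, 2, 5, 2, 4, 1, 0, 2, 4, 5, 2, 3, 5, 4, 3, 5, 0, 4, 4, 0, 1, 4, 2, 2, 1, 6, 3, 2, 2, 5, 0, 1, 6, 5, 5, 3, 3, 4, 4, 4, 1, 1, 4, 1, 0, 1, 0, 5, 4, 4, 1, 0, 5, 2, 6, 0, 1, 1, 2, 1, 5, 3, 1, 3, 4, 3],
  [2, 5, 1, 3, 6, 1, 4, 0, 1, 1, 0, 3, 5, 2, 1, 5, 0, 3, 0, 5, 5, 3, 0, 6, 2, 6, 1, 3, 0, 0, 5, 3, 1, 5, 0, 1, 1, 1, 0, 6, 1, 3, 0, 6, 2, 6, 5, 1, 4, 6, 5, 2, 6, 3, 2, 2, 3, 0, 1, 4, 2, 4, 5, 6, 1, 4, 6, 0],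
  [0, 3, 2, 4, 6, 6, 2, 0, 2, 6, 3, 5, 2, 6, 0, 4, 5, 5, 2, 5, 4, 1, 4, 1, 2, 4, 1, 6, 0, 2, 2, 1, 3, 4, 0, 5, 0, 4, 6, 4, 1, 0, 4, 3, 0, 1, 5, 1, 0, 1, 4, 1, 5, 3, 2, 4, 6, 5, 3, 2, 5, 2, 2, 3, 5, 5, 5, 3],
  [6, 1, 2, 6, 1, 3, 1, 1, 6, 5, 1, 5, 0, 0, 3, 0, 5, 0, 1, 1, 5, 4, 0, 4, 0, 3, 6, 5, 0, 1, 5, 5, 3, 0, 4, 4, 3, 0, 5, 3, 2, 3, 0, 4, 5, 6, 1, 6, 5, 3, 5, 3, 0, 6, 1, 1, 0, 0, 3, 6, 3, 2, 3, 3, 5, 6, 0, 5],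
  [1, 4, 2, 2, 2, 2, 2, 3, 5, 1, 0, 4, 4, 1, 0, 4, 4, 4, 0, 6, 6, 6, 4, 3, 2, 6, 6, 6, 6, 0, 3, 6, 5, 4, 3, 5, 1, 1, 4, 3, 3, 0, 1, 5, 6, 5, 5, 3, 3, 6, 6, 0, 6, 5, 2, 6, 3, 6, 2, 6, 4, 5, 1, 2, 1, 3, 6, 0],
  [5, 3, 0, 3, 5, 1, 5, 1, 3, 5, 6, 0, 2, 2, 3, 0, 2, 2, 4, 4, 5, 6, 6, 4, 2, 3, 1, 0, 2, 6, 5, 6, 1, 0, 3, 3, 0, 1, 2, 0, 2, 1, 0, 4, 2, 6, 1, 4, 0, 3, 6, 0, 0, 1, 0, 6, 6, 2, 0, 3, 5, 5, 4, 2, 2, 3, 3, 2],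
  [4, 0, 6, 2, 5, 5, 4, 0, 1, 1, 3, 5, 3, 2, 4, 0, 3, 4, 3, 3, 0, 6, 4, 6, 5, 2, 0, 4, 0, 2, 1, 3, 4, 0, 6, 6, 0, 6, 3, 4, 2, 5, 3, 1, 2, 4, 4, 6, 2, 2, 5, 1, 1, 2, 4, 4, 0, 3, 1, 3, 0, 3, 0, 2, 1, 5, 4, 3],
  [0, 0, 3, 1, 5, 5, 6, 6, 4, 5, 5, 0, 3, 1, 2, 2, 0, 5, 2, 1, 6, 3, 0, 0, 5, 4, 2, 2, 2, 1, 0, 3, 3, 4, 1, 4, 2, 1, 5, 2, 3, 3, 1, 6, 2, 0, 5, 2, 0, 5, 0, 0, 0, 0, 0, 1, 0, 2, 2, 5, 3, 4, 6, 0, 1, 6, 1, 5],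
  [5, 0, 6, 5, 5, 4, 4, 2, 3, 1, 1, 0, 5, 2, 4, 2, 6, 1, 2, 1, 5, 3, 6, 6, 2, 2, 2, 4, 4, 6, 4, 4, 6, 0, 5, 2, 4, 3, 3, 4, 5, 3, 2, 6, 3, 2, 3, 0, 5, 1, 6, 3, 1, 2, 1, 0, 3, 4, 6, 6, 2, 0, 3, 4, 1, 6, 2, 2],
  [3, 1, 6, 4, 0, 2, 3, 5, 3, 5, 6, 1, 5, 3, 2, 3, 6, 1, 6, 1, 2, 4, 4, 2, 4, 5, 4, 3, 5, 1, 2, 6, 4, 4, 3, 6, 1, 2, 2, 6, 4, 1, 5, 5, 2, 1, 2, 2, 3, 4, 6, 1, 1, 2, 1, 2, 2, 6, 4, 6, 4, 2, 6, 6, 2, 3, 2, 5],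
  [1, 3, 5, 6, 5, 2, 2, 1, 5, 1, 0, 4, 2, 2, 0, 5, 5, 3, 5, 6, 6, 2, 3, 1, 3, 6, 5, 1, 2, 3, 1, 4, 0, 3, 0, 3, 2, 4, 1, 3, 3, 5, 6, 0, 3, 4, 3, 2, 3, 2, 3, 6, 3, 2, 0, 6, 4, 0, 3, 0, 2, 6, 0, 6, 0, 1, 4, 1],
  [2, 4, 6, 5, 5, 0, 4, 6, 6, 5, 0, 4, 4, 5, 2, 1, 0, 3, 6, 4, 2, 6, 3, 5, 5, 3, 3, 2, 0, 5, 0, 3, 1, 2, 3, 2, 3, 4, 1, 0, 1, 4, 5, 6, 6, 0, 6, 2, 4, 2, 0, 5, 2, 5, 0, 6, 2, 5, 0, 4, 1, 6, 6, 2, 4, 4, 2, 4],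
  [4, 6, 6, 0, 2, 5, 4, 4, 0, 4, 5, 4, 0, 4, 1, 2, 2, 3, 3, 6, 1, 0, 1, 6, 0, 2, 2, 4, 2, 0, 5, 4, 3, 3, 4, 5, 5, 6, 4, 0, 4, 3, 3, 6, 6, 6, 3, 6, 4, 5, 0, 0, 0, 5, 1, 4, 5, 3, 5, 4, 2, 1, 1, 1, 6, 2, 1, 0],
  [2, 6, 1, 0, 2, 3, 4, 6, 2, 6, 4, 1, 4, 2, 0, 5, 3, 5, 0, 0, 1, 3, 6, 2, 1, 2, 6, 5, 6, 2, 1, 6, 2, 3, 5, 1, 4, 4, 0, 0, 1, 1, 2, 2, 0, 4, 1, 2, 0, 6, 6, 6, 5, 5, 2, 0, 5, 5, 2, 1, 2, 0, 5, 0, 2, 5, 3, 3],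
  [0, 2, 4, 0, 2, 0, 0, 5, 1, 4, 6, 0, 4, 1, 3, 6, 3, 5, 1, 1, 4, 6, 5, 1, 5, 0, 0, 3, 4, 5, 2, 6, 2, 5, 1, 5, 4, 4, 5, 4, 1, 5, 0, 4, 6, 1, 4, 4, 3, 1, 4, 3, 0, 6, 0, 0, 6, 5, 5, 2, 1, 0, 6, 3, 1, 4, 5, 4],
  [2, 1, 1, 5, 5, 4, 1, 0, 5, 4, 3, 3, 2, 5, 3, 6, 4, 4, 3, 2, 3, 1, 4, 3, 3, 5, 4, 3, 6, 1, 5, 3, 6, 3, 0, 0, 2, 3, 5, 1, 0, 4, 0, 3, 4, 6, 5, 0, 4, 2, 4, 4, 1, 5, 2, 6, 3, 3, 3, 3, 2, 2, 4, 6, 4, 6, 6, 5],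
  [4, 0, 6, 2, 4, 2, 6, 4, 2, 2, 0, 1, 0, 3, 1, 6, 1, 5, 4, 4, 0, 1, 6, 3, 3, 5, 2, 6, 2, 3, 2, 3, 3, 3, 6, 2, 0, 5, 1, 0, 0, 1, 4, 2, 0, 1, 1, 6, 6, 3, 0, 5, 4, 4, 2, 2, 3, 6, 6, 1, 3, 4, 3, 0, 3, 4, 0, 1],
  [2, 2, 3, 1, 4, 6, 1, 2, 0, 4, 2, 1, 3, 2, 0, 3, 6, 6, 4, 3, 4, 3, 3, 2, 0, 4, 5, 4, 3, 2, 6, 1, 3, 1, 0, 3, 1, 6, 6, 6, 5, 5, 5, 4, 3, 3, 1, 3, 4, 5, 3, 5, 2, 1, 5, 2, 6, 1, 6, 1, 6, 4, 6, 4, 4, 0, 1, 3],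
  [3, 1, 1, 3, 5, 0, 4, 4, 2, 1, 5, 6, 1, 1, 5, 6, 0, 5, 3, 5, 1, 4, 1, 5, 5, 1, 3, 0, 4, 2, 6, 3, 6, 5, 6, 3, 5, 1, 0, 2, 2, 4, 2, 6, 1, 3, 6, 2, 1, 5, 4, 6, 5, 6, 1, 0, 0, 2, 6, 2, 4, 0, 1, 5, 2, 0, 0, 3],
  [3, 5, 0, 0, 6, 5, 4, 5, 5, 1, 5, 6, 1, 3, 1, 5, 0, 3, 2, 4, 5, 6, 4, 3, 0, 5, 5, 3, 2, 5, 0, 6, 0, 0, 0, 6, 3, 6, 6, 0, 4, 1, 4, 6, 3, 0, 1, 2, 4, 1, 4, 1, 4, 0, 4, 3, 3, 4, 2, 4, 2, 3, 2, 3, 2, 2, 0, 4],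
  [5, 1, 1, 4, 0, 3, 0, 6, 1, 6, 3, 5, 2, 3, 6, 5, 1, 3, 6, 0, 6, 1, 5, 1, 5, 2, 3, 3, 1, 2, 0, 0, 6, 2, 6, 4, 5, 4, 6, 1, 2, 3, 3, 4, 0, 0, 6, 5, 0, 6, 0, 5, 4, 3, 6, 3, 5, 2, 1, 4, 1, 4, 2, 5, 2, 6, 3, 3],
  [4, 1, 2, 6, 3, 2, 1, 0, 5, 0, 3, 2, 6, 0, 6, 1, 0, 5, 3, 2, 5, 6, 5, 2, 4, 2, 5, 2, 4, 2, 2, 4, 6, 1, 6, 2, 1, 4, 4, 0, 2, 4, 6, 0, 0, 1, 5, 6, 2, 0, 5, 0, 6, 4, 4, 1, 3, 3, 6, 1, 0, 1, 2, 0, 2, 4, 4, 3],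
  [4, 0, 5, 0, 1, 5, 0, 6, 4, 1, 5, 3, 0, 1, 5, 5, 0, 2, 2, 4, 0, 2, 0, 5, 0, 2, 1, 5, 3, 0, 3, 6, 3, 2, 1, 5, 1, 3, 1, 3, 2, 4, 4, 4, 6, 5, 3, 5, 2, 1, 3, 0, 6, 3, 4, 3, 6, 4, 6, 6, 4, 4, 1, 5, 6, 5, 5, 0],
  [1, 6, 1, 2, 6, 1, 0, 0, 6, 6, 5, 3, 0, 6, 1, 4, 2, 3, 6, 4, 3, 4, 6, 0, 4, 1, 2, 5, 3, 3, 4, 2, 1, 4, 6, 4, 0, 6, 0, 1, 1, 3, 4, 5, 2, 2, 0, 3, 0, 1, 3, 0, 4, 3, 6, 0, 6, 6, 6, 2, 0, 2, 1, 0, 6, 5, 4, 1],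
  [1, 1, 1, 1, 6, 5, 5, 6, 3, 1, 0, 6, 4, 6, 1, 2, 3, 4, 6, 4, 0, 2, 5, 0, 4, 3, 1, 2, 2, 6, 3, 4, 0, 5, 3, 1, 5, 1, 3, 4, 5, 0, 6, 5, 2, 5, 4, 5, 6, 4, 1, 4, 4, 4, 6, 0, 3, 4, 1, 4, 1, 3, 4, 2, 2, 5, 3, 2],
  [1, 4, 4, 4, 0, 6, 6, 5, 1, 6, 0, 1, 0, 5, 2, 6, 0, 0, 0, 4, 0, 2, 1, 6, 0, 3, 5, 6, 2, 6, 6, 4, 2, 3, 4, 5, 0, 0, 3, 4, 3, 1, 0, 0, 5, 3, 2, 2, 4, 0, 1, 5, 3, 5, 6, 3, 5, 2, 2, 1, 4, 2, 1, 3, 4, 0, 5, 2],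
  [3, 2, 0, 0, 5, 3, 4, 0, 0, 2, 2, 0, 2, 6, 6, 2, 6, 2, 1, 3, 0, 0, 5, 1, 1, 1, 1, 4, 2, 4, 2, 4, 6, 2, 4, 1, 1, 5, 1, 0, 5, 4, 3, 4, 4, 1, 1, 4, 1, 0, 4, 6, 5, 2, 6, 4, 2, 1, 1, 3, 5, 0, 0, 6, 0, 0, 4, 6],
  [6, 5, 5, 4, 0, 2, 4, 5, 4, 6, 1, 4, 4, 4, 1, 3, 4, 4, 0, 0, 6, 6, 3, 4, 2, 1, 4, 6, 3, 1, 3, 4, 6, 6, 6, 6, 6, 0, 3, 6, 5, 1, 5, 0, 0, 5, 3, 5, 6, 1, 3, 1, 1, 4, 5, 0, 1, 2, 0, 3, 6, 5, 1, 0, 0, 0, 0, 5],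
  [3, 3, 0, 6, 1, 5, 6, 0, 0, 0, 5, 1, 4, 1, 4, 5, 2, 4, 2, 5, 6, 2, 4, 6, 6, 0, 4, 2, 2, 0, 5, 5, 1, 0, 0, 1, 5, 5, 6, 1, 0, 0, 2, 0, 0, 6, 3, 3, 1, 0, 4, 5, 2, 2, 5, 4, 4, 0, 5, 5, 4, 6, 0, 0, 5, 5, 3, 0],
  [2, 3, 0, 2, 6, 6, 5, 0, 4, 1, 4, 6, 0, 1, 3, 6, 3, 2, 2, 3, 5, 1, 1, 2, 3, 6, 1, 5, 6, 1, 6, 4, 1, 3, 3, 4, 5, 0, 4, 5, 0, 0, 3, 3, 6, 3, 6, 6, 4, 2, 0, 1, 1, 3, 0, 1, 6, 4, 3, 0, 3, 6, 2, 4, 6, 5, 5, 5],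
  [4, 6, 4, 2, 2, 0, 4, 1, 6, 1, 2, 4, 5, 6, 2, 5, 0, 6, 2, 6, 6, 4, 2, 3, 3, 5, 6, 2, 2, 2, 6, 5, 1, 0, 1, 3, 0, 2, 1, 3, 1, 3, 1, 1, 4, 3, 4, 2, 0, 2, 6, 3, 4, 0, 6, 1, 1, 2, 3, 1, 4, 3, 5, 6, 6, 4, 6, 3],
  [5, 2, 3, 2, 6, 4, 6, 5, 5, 3, 1, 4, 6, 5, 2, 5, 0, 5, 4, 0, 0, 0, 6, 5, 1, 4, 1, 1, 1, 5, 5, 3, 3, 2, 3, 6, 4, 1, 3, 4, 4, 1, 6, 2, 0, 6, 3, 4, 6, 0, 2, 1, 6, 0, 5, 4, 6, 6, 1, 2, 2, 3, 5, 2, 0, 1, 0, 4],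
  [1, 2, 2, 3, 2, 4, 1, 4, 3, 3, 5, 6, 6, 0, 6, 1, 2, 3, 4, 0, 4, 1, 3, 3, 3, 2, 4, 0, 0, 4, 3, 5, 2, 1, 6, 1, 2, 1, 3, 0, 1, 0, 4, 6, 1, 5, 1, 0, 5, 5, 3, 0, 0, 3, 2, 0, 3, 1, 4, 6, 6, 3, 3, 2, 1, 5, 6, 6],
  [2, 2, 1, 6, 0, 2, 6, 2, 2, 0, 2, 3, 3, 3, 1, 6, 0, 1, 6, 5, 6, 6, 2, 5, 4, 6, 6, 6, 6, 2, 4, 2, 6, 1, 0, 0, 2, 0, 5, 1, 3, 4, 5, 0, 6, 2, 4, 3, 2, 3, 2, 6, 3, 2, 4, 6, 0, 5, 0, 0, 1, 1, 3, 1, 5, 4, 4, 3],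
  [2, 5, 0, 2, 1, 5, 0, 5, 3, 5, 3, 2, 3, 2, 3, 2, 4, 3, 1, 0, 4, 1, 0, 6, 6, 1, 3, 3, 2, 3, 2, 0, 3, 5, 6, 3, 0, 4, 3, 4, 1, 2, 6, 0, 4, 1, 2, 2, 2, 3, 5, 0, 0, 1, 6, 4, 1, 3, 5, 2, 6, 2, 6, 5, 1, 2, 5, 1],
  [3, 2, 0, 5, 1, 5, 6, 4, 5, 5, 5, 2, 3, 6, 6, 5, 6, 5, 6, 1, 6, 4, 4, 4, 3, 3, 4, 0, 3, 2, 5, 1, 0, 0, 6, 1, 0, 0, 3, 6, 2, 4, 1, 5, 2, 6, 1, 6, 3, 6, 4, 6, 0, 0, 6, 4, 4, 1, 5, 4, 6, 3, 0, 0, 5, 5, 5, 3],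
  [5, 1, 5, 4, 2, 2, 2, 3, 2, 0, 0, 3, 4, 4, 3, 0, 1, 0, 3, 4, 2, 4, 5, 2, 3, 1, 2, 1, 1, 0, 6, 3, 6, 2, 1, 3, 0, 0, 2, 4, 4, 4, 2, 4, 4, 3, 0, 1, 1, 1, 1, 3, 0, 0, 6, 1, 2, 1, 3, 3, 1, 0, 3, 0, 1, 2, 3, 0],
  [1, 3, 1, 2, 5, 0, 4, 6, 6, 4, 5, 4, 0, 5, 5, 5, 2, 2, 1, 2, 6, 3, 2, 2, 2, 4, 4, 5, 6, 0, 3, 5, 5, 4, 4, 4, 3, 1, 3, 3, 0, 0, 4, 2, 5, 5, 1, 4, 1, 6, 2, 6, 6, 2, 6, 0, 3, 2, 5, 6, 4, 6, 2, 2, 2, 5, 3, 0],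
  [5, 0, 1, 3, 4, 0, 5, 2, 2, 0, 4, 4, 5, 1, 1, 4, 0, 1, 2, 2, 3, 5, 1, 4, 0, 1, 3, 4, 1, 3, 6, 2, 4, 6, 3, 3, 2, 4, 2, 4, 2, 1, 3, 4, 3, 3, 3, 6, 1, 2, 2, 1, 3, 5, 4, 4, 2, 4, 0, 1, 1, 5, 0, 0, 2, 1, 4, 1],
  [2, 3, 2, 2, 5, 3, 3, 1, 5, 0, 0, 5, 5, 1, 0, 6, 4, 6, 2, 4, 6, 5, 0, 6, 2, 0, 0, 6, 3, 6, 3, 3, 0, 6, 2, 4, 4, 4, 2, 6, 6, 2, 4, 4, 1, 5, 4, 3, 1, 5, 0, 5, 0, 4, 5, 1, 4, 6, 4, 1, 0, 4, 5, 3, 2, 0, 5, 2],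
  [1, 5, 4, 2, 3, 0, 5, 2, 4, 1, 4, 3, 5, 4, 2, 5, 2, 5, 3, 4, 0, 2, 6, 3, 6, 6, 0, 4, 2, 0, 4, 4, 6, 2, 4, 4, 6, 0, 0, 5, 0, 0, 3, 0, 0, 2, 1, 3, 6, 2, 3, 2, 0, 2, 3, 4, 6, 4, 5, 5, 4, 6, 0, 0, 1, 1, 3, 0],
  [2, 3, 3, 5, 4, 2, 2, 0, 4, 6, 2, 3, 0, 1, 2, 4, 3, 6, 6, 0, 3, 5, 1, 0, 2, 3, 0, 5, 4, 5, 0, 0, 1, 0, 2, 6, 5, 1, 6, 1, 4, 2, 3, 3, 2, 0, 1, 6, 6, 2, 0, 5, 2, 5, 6, 0, 2, 2, 6, 6, 2, 5, 3, 2, 2, 3, 0, 4],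
  [1, 0, 3, 2, 6, 4, 4, 5, 1, 1, 1, 4, 3, 1, 4, 1, 2, 6, 5, 2, 1, 6, 0, 6, 0, 0, 6, 5, 4, 1, 0, 6, 5, 3, 3, 0, 4, 3, 2, 6, 3, 6, 4, 3, 0, 0, 0, 0, 3, 0, 2, 4, 1, 6, 0, 4, 1, 0, 6, 1, 6, 4, 1, 1, 5, 4, 5, 5],
  [3, 5, 5, 2, 4, 4, 2, 4, 4, 4, 1, 3, 0, 3, 6, 3, 6, 6, 5, 5, 2, 0, 6, 0, 3, 4, 1, 1, 6, 1, 6, 1, 5, 1, 1, 4, 5, 1, 6, 1, 2, 6, 5, 5, 6, 3, 5, 0, 6, 0, 5, 5, 4, 1, 2, 2, 0, 0, 6, 3, 5, 4, 2, 5, 3, 3, 5, 5],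
  [5, 2, 1, 1, 1, 1, 0, 2, 2, 1, 3, 3, 2, 0, 1, 1, 1, 2, 1, 6, 0, 1, 5, 6, 6, 1, 0, 2, 4, 5, 2, 3, 3, 3, 4, 0, 2, 0, 2, 5, 3, 2, 5, 5, 1, 1, 5, 1, 1, 1, 4, 2, 5, 5, 6, 1, 4, 4, 3, 1, 4, 6, 4, 1, 1, 0, 4, 4],
  [3, 5, 1, 1, 2, 6, 6, 5, 0, 0, 4, 5, 4, 3, 4, 4, 0, 3, 2, 4, 2, 4, 3, 4, 2, 2, 4, 4, 6, 3, 1, 1, 4, 1, 4, 2, 4, 1, 3, 1, 2, 2, 2, 3, 0, 4, 6, 0, 4, 6, 1, 2, 5, 2, 6, 2, 6, 6, 2, 2, 6, 4, 3, 1, 0, 0, 6, 1],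
  [1, 1, 1, 0, 1, 3, 0, 0, 0, 0, 0, 2, 4, 3, 0, 4, 4, 5, 0, 0, 3, 5, 6, 6, 0, 4, 2, 5, 2, 6, 3, 2, 1, 4, 5, 0, 5, 2, 0, 6, 2, 3, 3, 6, 6, 5, 3, 6, 4, 5, 6, 3, 6, 5, 5, 0, 3, 5, 3, 2, 0, 5, 0, 2, 6, 1, 1, 2],
  [4, 5, 5, 3, 5, 5, 2, 1, 4, 2, 4, 1, 3, 6, 0, 2, 3, 0, 1, 2, 5, 3, 3, 2, 4, 5, 4, 5, 5, 4, 0, 5, 0, 0, 4, 0, 5, 0, 3, 5, 4, 3, 4, 2, 4, 0, 1, 1, 0, 5, 3, 2, 3, 2, 6, 4, 4, 4, 5, 1, 3, 0, 0, 4, 0, 0, 5, 6],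
  [6, 1, 3, 0, 1, 4, 6, 6, 6, 2, 6, 0, 6, 4, 1, 0, 3, 6, 2, 4, 2, 6, 3, 2, 4, 5, 5, 0, 4, 3, 6, 6, 0, 3, 5, 5, 2, 4, 2, 1, 0, 0, 4, 0, 6, 3, 2, 4, 3, 1, 5, 1, 3, 6, 6, 1, 3, 6, 1, 0, 3, 2, 4, 1, 5, 3, 0, 1],
  [0, 3, 3, 0, 3, 5, 6, 2, 1, 2, 6, 2, 2, 4, 2, 2, 4, 0, 6, 5, 6, 6, 4, 6, 3, 4, 3, 6, 3, 3, 0, 5, 5, 0, 6, 1, 2, 5, 0, 6, 6, 6, 5, 4, 0, 0, 6, 2, 4, 2, 0, 2, 3, 4, 4, 6, 0, 4, 1, 0, 4, 3, 3, 0, 0, 5, 5, 1],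
  [6, 6, 3, 1, 2, 5, 5, 2, 5, 4, 1, 0, 4, 3, 3, 5, 4, 3, 4, 2, 2, 2, 5, 3, 4, 3, 2, 4, 1, 1, 4, 0, 1, 3, 1, 0, 0, 1, 2, 4, 6, 2, 1, 0, 2, 2, 5, 2, 4, 3, 5, 5, 1, 2, 4, 0, 4, 1, 6, 0, 4, 6, 6, 5, 4, 0, 3, 5],
  [5, 6, 1, 5, 1, 5, 0, 2, 5, 1, 2, 2, 2, 1, 3, 5, 0, 5, 1, 4, 0, 6, 4, 2, 3, 4, 3, 2, 1, 5, 1, 4, 5, 4, 0, 0, 0, 4, 0, 5, 6, 4, 6, 2, 0, 4, 5, 6, 6, 1, 3, 5, 1, 4, 0, 1, 1, 1, 5, 1, 4, 2, 5, 3, 1, 0, 0, 4],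
  [4, 4, 1, 3, 0, 1, 2, 5, 5, 3, 0, 0, 6, 4, 1, 3, 6, 3, 3, 0, 1, 1, 6, 3, 2, 4, 4, 3, 5, 6, 3, 1, 6, 0, 3, 3, 4, 6, 0, 0, 3, 5, 5, 0, 3, 5, 4, 1, 2, 0, 3, 1, 5, 3, 6, 0, 6, 0, 6, 3, 2, 0, 3, 5, 6, 4, 0, 2],
  [1, 5, 6, 5, 5, 6, 5, 5, 2, 2, 5, 6, 3, 4, 0, 5, 3, 3, 1, 1, 0, 1, 2, 1, 1, 6, 1, 4, 4, 6, 1, 1, 5, 6, 1, 3, 2, 2, 1, 4, 2, 1, 4, 4, 2, 4, 5, 1, 1, 3, 1, 4, 0, 3, 6, 3, 4, 0, 3, 5, 2, 4, 4, 6, 1, 0, 6, 2],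
  [0, 4, 0, 6, 5, 6, 0, 5, 6, 2, 2, 4, 5, 6, 5, 4, 4, 3, 6, 6, 2, 5, 6, 4, 2, 3, 5, 5, 3, 5, 0, 0, 5, 2, 6, 5, 4, 0, 0, 3, 3, 2, 2, 6, 0, 0, 0, 1, 5, 5, 2, 0, 3, 2, 2, 0, 0, 4, 1, 1, 5, 4, 5, 0, 4, 1, 3, 4],
  [2, 6, 6, 5, 2, 6, 4, 1, 2, 5, 0, 2, 0, 6, 0, 5, 4, 1, 4, 5, 1, 4, 4, 0, 3, 5, 3, 3, 5, 2, 1, 3, 2, 1, 4, 6, 3, 3, 1, 2, 4, 0, 1, 6, 1, 4, 3, 4, 3, 0, 1, 6, 0, 4, 2, 6, 5, 3, 5, 0, 1, 2, 1, 0, 1, 3, 5, 3],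
  [3, 4, 6, 0, 0, 6, 1, 3, 3, 1, 0, 3, 0, 0, 2, 5, 2, 2, 3, 5, 1, 5, 4, 1, 0, 0, 3, 5, 2, 3, 1, 5, 6, 5, 6, 2, 6, 1, 1, 2, 0, 0, 1, 5, 1, 4, 0, 5, 1, 4, 1, 1, 0, 1, 3, 2, 6, 3, 2, 2, 0, 1, 2, 1, 2, 5, 3, 1],
  [0, 2, 1, 1, 0, 0, 3, 0, 2, 1, 3, 1, 4, 6, 2, 6, 0, 5, 6, 6, 4, 0, 4, 4, 1, 5, 0, 3, 0, 4, 0, 0, 4, 0, 3, 4, 2, 1, 3, 3, 5, 3, 1, 5, 0, 0, 0, 1, 4, 3, 1, 1, 5, 1, 3, 5, 0, 5, 4, 1, 6, 3, 4, 0, 4, 4, 3, 6],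
  [0, 3, 5, 0, 1, 4, 6, 1, 3, 1, 1, 5, 1, 3, 1, 0, 5, 3, 0, 2, 4, 3, 2, 5, 6, 6, 1, 0, 6, 5, 5, 2, 0, 0, 2, 2, 1, 4, 0, 3, 1, 0, 3, 2, 0, 6, 1, 0, 1, 1, 4, 6, 2, 6, 1, 1, 1, 2, 6, 2, 2, 2, 5, 4, 1, 3, 4, 4],
  [4, 1, 6, 4, 2, 1, 3, 2, 0, 4, 3, 4, 0, 3, 4, 3, 3, 5, 4, 2, 3, 0, 6, 3, 0, 0, 3, 0, 3, 1, 0, 2, 6, 5, 6, 4, 3, 6, 5, 2, 3, 0, 4, 0, 6, 6, 3, 5, 0, 3, 3, 1, 3, 1, 5, 2, 4, 6, 1, 2, 0, 4, 2, 1, 4, 6, 4, 5],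
  [6, 1, 2, 0, 6, 2, 3, 3, 1, 6, 1, 1, 5, 4, 4, 0, 4, 6, 2, 1, 6, 2, 1, 2, 0, 3, 2, 2, 5, 2, 0, 3, 1, 2, 6, 3, 4, 1, 0, 4, 2, 4, 1, 0, 0, 0, 6, 6, 4, 4, 6, 4, 0, 5, 5, 3, 2, 3, 0, 6, 2, 4, 2, 1, 2, 6, 2, 3],
  [2, 4, 2, 1, 6, 5, 5, 3, 3, 4, 5, 2, 4, 2, 5, 2, 5, 5, 3, 0, 4, 0, 5, 3, 1, 2, 6, 3, 5, 2, 1, 4, 1, 4, 5, 2, 0, 6, 5, 6, 4, 6, 4, 1, 3, 5, 5, 0, 3, 1, 3, 0, 2, 3, 0, 5, 4, 0, 5, 5, 2, 5, 6, 6, 2, 5, 4, 3]]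

/-- the polynomial `B` -/
def Bl : List Tm := [(-1, 0, 0, 0, 0), (-4, 1, 0, 0, 0), (-4, 2, 0, 0, 0), (-4, 3, 0, 0, 0), (-3, 4, 0, 0, 0), (1, 0, 0, 0, 1), (4, 1, 0, 0, 1), (3, 2, 0, 0, 1), (-3, 0, 0, 2, 0), (-12, 1, 1, 1, 0), (-12, 2, 1, 1, 0)]

/-- the polynomial `-4 B (y + q (X - 1) (5 X + 1))` -/
def Cl : List Tm := [(4, 0, 0, 1, 0), (16, 1, 0, 1, 0), (16, 2, 0, 1, 0), (16, 3, 0, 1, 0), (12, 4, 0, 1, 0), (-4, 0, 0, 1, 1), (-16, 1, 0, 1, 1), (-12, 2, 0, 1, 1), (12, 0, 0, 3, 0), (-4, 0, 1, 0, 0), (-32, 1, 1, 0, 0), (-60, 2, 1, 0, 0), (4, 4, 1, 0, 0), (32, 5, 1, 0, 0), (60, 6, 1, 0, 0), (4, 0, 1, 0, 1), (32, 1, 1, 0, 1), (56, 2, 1, 0, 1), (-32, 3, 1, 0, 1), (-60, 4, 1, 0, 1), (-12, 0, 1, 2, 0), (108, 2, 1, 2, 0), (-48, 1, 2, 1, 0),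 (-240, 2, 2, 1, 0), (48, 3, 2, 1, 0), (240, 4, 2, 1, 0)]

lemma d1 : dP (flat G1) = flat G2 := by decide +kernel
lemma d2 : dP (flat G2) = flat G3 := by decide +kernel
lemma d3 : dP (flat G3) = flat G4 := by decide +kernel
lemma d4 : dP (flat G4) = flat G5 := by decide +kernel
lemma dB : cl0 (mg 1000 (dP Bl) Cl) = (flat G1).map fun t => (2 * t.1, t.2) := by decide +kernel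

/-- the polynomials -/
def EE (e : ℕ) : List GT := ([G1, G2, G3, G4, G5] : List (List GT)).getD e []

/-- row `r` -/
def rw1 (r : ℕ) : ℕ × ℕ × ℕ × ℕ := rwL.getD r (0, 0, 0, 0)

/-- column `c` -/
def cl (c : ℕ) : ℕ × ℕ × ℕ := clL.getD c (0, 0, 0)

/-- shift of exponents -/
def sh (u w : ℕ × ℕ × ℕ) : ℕ × ℕ × ℕ := (u.1 + w.1, u.2.1 + w.2.1, u.2.2 + w.2.2)

/-- coefficient of a monomial in a shifted polynomial -/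
def cf {R : Type*} [CommRing R] (X : R) (G : List GT) (u w : ℕ × ℕ × ℕ) : R :=
  (G.map fun g => if sh g.1 u = w then pv X g.2 else 0).sum

lemma chk0 : clL.Nodup := by decide +kernel
lemma chk1 : ∀ r < 68, ∀ g ∈ EE (rw1 r).1, sh g.1 (rw1 r).2 ∈ clL := by decide +kernel
lemma chk2 : ∀ r < 68, ∀ c < 68, (cf (2 : ℤ) (EE (rw1 r).1) (rw1 r).2 (cl c)
    - (((MT.getD c []).getD r 0 : ℕ) : ℤ)) % 7 = 0 := by decide +kernel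

/-- dot product -/
def dt : List ℕ → List ℕ → ℕ
  | [], _ => 0
  | _ :: _, [] => 0
  | a :: P, b :: Q => a * b + dt P Q

lemma chk3 : ∀ i < 68, ∀ j < 68, dt (NL.getD i []) (MT.getD j []) % 7 = if i = j then 1 else 0 := by
  decide +kernel

/-! ### linking -/

lemma dt_eq : ∀ (P Q : List ℕ) (n : ℕ), P.length ≤ n →
    dt P Q = ∑ k ∈ Finset.range n, P.getD k 0 * Q.getD k 0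
  | [], Q, n, _ => by simp [dt]
  | a :: P, [], n, _ => by simp [dt]
  | a :: P, b :: Q, 0, h => by simp at h
  | a :: P, b :: Q, n + 1, h => by
    have h1 : P.length ≤ n := by simpa using h
    rw [dt, dt_eq P Q n h1, Finset.sum_range_succ']
    simp [add_comm]

lemma pv_map {R S : Type*} [CommRing R] [CommRing S] (f : R →+* S) (X : R) (l : List (ℤ × ℕ)) :
    f (pv X l) = pv (f X) l := by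
  induction l with
  | nil => simp [pv]
  | cons s l ih =>
    simp only [pv, List.map_cons, List.sum_cons, map_add, map_mul, map_pow, map_intCast] at ih ⊢
    rw [ih]

lemma cf_map {R S : Type*} [CommRing R] [CommRing S] (f : R →+* S) (X : R) (G : List GT)
    (u w : ℕ × ℕ × ℕ) : f (cf X G u w) = cf (f X) G u w := by
  induction G with
  | nil => simp [cf]
  | cons g G ih =>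
    simp only [cf, List.map_cons, List.sum_cons, map_add] at ih ⊢
    rw [ih]
    congr 1
    split_ifs
    · exact pv_map f X _
    · exact map_zero f

/-- the matrix -/
def Mx {R : Type*} [CommRing R] (X : R) : Matrix (Fin 68) (Fin 68) R :=
  fun r c => cf X (EE (rw1 r).1) (rw1 r).2 (cl c)

lemma Mx_map {R S : Type*} [CommRing R] [CommRing S] (f : R →+* S) (X : R) :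
    (Mx X).map f = Mx (f X) := by
  ext r c
  exact cf_map f X _ _ _

lemma len_cl : clL.length = 68 := by decide +kernel

lemma len_NL : ∀ i < 68, (NL.getD i []).length ≤ 68 := by decide +kernel

/-- the inverse modulo 7 -/
def NM : Matrix (Fin 68) (Fin 68) (ZMod 7) := fun i k => (((NL.getD i []).getD k 0 : ℕ) : ZMod 7)

lemma det7 : (Mx (2 : ZMod 7)).det ≠ 0 := by
  have hN : NM * Mx (2 : ZMod 7) = 1 := by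
    ext i j
    rw [Matrix.mul_apply]
    simp only [NM]
    have h1 : ∀ k : Fin 68, Mx (2 : ZMod 7) k j = (((MT.getD j []).getD k 0 : ℕ) : ZMod 7) := by
      intro k
      have h := chk2 k k.2 j j.2
      have h2 : Mx (2 : ZMod 7) k j =
          ((cf (2 : ℤ) (EE (rw1 k).1) (rw1 k).2 (cl j) : ℤ) : ZMod 7) := by
        have h3 := cf_map (Int.castRingHom (ZMod 7)) (2 : ℤ) (EE (rw1 k).1) (rw1 k).2 (cl j)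
        rw [Mx]
        simpa using h3.symm
      have h4 := (ZMod.intCast_zmod_eq_zero_iff_dvd _ 7).2 (Int.dvd_of_emod_eq_zero h)
      rw [h2]
      push_cast at h4
      exact sub_eq_zero.1 h4
    simp_rw [h1]
    have h3 := chk3 i i.2 j j.2
    rw [dt_eq _ _ 68 (len_NL i i.2)] at h3
    have h5 : ∑ k : Fin 68, (((NL.getD i []).getD k 0 : ℕ) : ZMod 7) *
        (((MT.getD j []).getD k 0 : ℕ) : ZMod 7) =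
        ((∑ k ∈ Finset.range 68, (NL.getD i []).getD k 0 * (MT.getD j []).getD k 0 : ℕ) :
          ZMod 7) := by
      rw [Finset.sum_range]
      push_cast
      rfl
    rw [h5, ← ZMod.natCast_mod, h3]
    by_cases hij : i = j
    · rw [hij, Matrix.one_apply_eq, if_pos rfl, Nat.cast_one]
    · rw [Matrix.one_apply_ne hij, if_neg (fun h => hij (Fin.ext h)), Nat.cast_zero]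
  intro h0
  have h := congrArg Matrix.det hN
  rw [Matrix.det_mul, h0, mul_zero, Matrix.det_one] at h
  exact absurd h (by decide)

lemma mo_sh {R : Type*} [CommRing R] (q y A : R) (u w : ℕ × ℕ × ℕ) :
    mo q y A (sh u w) = mo q y A u * mo q y A w := by
  simp only [mo, sh, pow_add]
  ring

lemma sum_one (q y A : ℝ) (w : ℕ × ℕ × ℕ) (hw : w ∈ clL) (v : ℝ) :
    ∑ c : Fin 68, (if w = cl c then v else 0) * mo q y A (cl c) = v * mo q y A w := by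
  obtain ⟨n, hn, hn'⟩ := List.mem_iff_getElem.1 hw
  have hc : ∀ c : Fin 68, cl c = clL[(c : ℕ)]'(by rw [len_cl]; exact c.2) := by
    intro c
    rw [cl, List.getD_eq_getElem]
  rw [Finset.sum_eq_single (⟨n, by rw [← len_cl]; exact hn⟩ : Fin 68)]
  · rw [hc, if_pos hn'.symm, hn']
  · intro c _ hne
    rw [if_neg, zero_mul]
    intro h
    rw [hc, ← hn'] at h
    have := (List.Nodup.getElem_inj_iff chk0).1 h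
    exact hne (Fin.ext this.symm)
  · intro h
    exact absurd (Finset.mem_univ _) h

lemma sum_cf (X q y A : ℝ) (u : ℕ × ℕ × ℕ) (G : List GT) (hG : ∀ g ∈ G, sh g.1 u ∈ clL) :
    ∑ c : Fin 68, cf X G u (cl c) * mo q y A (cl c) = mo q y A u * evG X q y A G := by
  induction G with
  | nil => simp [cf, evG]
  | cons g G ih =>
    have ih' := ih (fun g' h' => hG g' (List.mem_cons_of_mem _ h'))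
    have h1 : ∀ c : Fin 68, cf X (g :: G) u (cl c) * mo q y A (cl c) =
        (if sh g.1 u = cl c then pv X g.2 else 0) * mo q y A (cl c) +
          cf X G u (cl c) * mo q y A (cl c) := by
      intro c
      simp only [cf, List.map_cons, List.sum_cons]
      ring
    simp_rw [h1]
    rw [Finset.sum_add_distrib, ih', sum_one q y A _ (hG g List.mem_cons_self), mo_sh]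
    simp only [evG, List.map_cons, List.sum_cons]
    ring

lemma rw_lt : ∀ r < 68, (rw1 r).1 < 5 := by decide +kernel

/-- The algebraic core of Part 2. -/
theorem algCore : ∃ D : Polynomial ℤ, D ≠ 0 ∧ ∀ X q y A : ℝ, y ≠ 0 →
    (∀ e < 5, evG X q y A (EE e) = 0) → Polynomial.aeval X D = 0 := by
  refine ⟨(Mx (Polynomial.X : Polynomial ℤ)).det, ?_, ?_⟩
  · intro h
    have h1 := congrArg (Polynomial.eval₂RingHom (Int.castRingHom (ZMod 7)) 2) h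
    rw [RingHom.map_det, RingHom.mapMatrix_apply, Mx_map, map_zero] at h1
    simp only [Polynomial.coe_eval₂RingHom, Polynomial.eval₂_X] at h1
    exact det7 h1
  · intro X q y A hy hE
    have h1 : Polynomial.aeval X (Mx (Polynomial.X : Polynomial ℤ)).det = (Mx X).det := by
      have h2 := RingHom.map_det (Polynomial.aeval X : Polynomial ℤ →ₐ[ℤ] ℝ).toRingHom
        (Mx (Polynomial.X : Polynomial ℤ))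
      rw [RingHom.mapMatrix_apply, Mx_map] at h2
      simpa using h2
    rw [h1]
    refine Matrix.exists_mulVec_eq_zero_iff.1 ⟨fun c => mo q y A (cl c), ?_, ?_⟩
    · intro h
      have h2 := congrFun h 0
      have h3 : cl (0 : Fin 68) = (0, 1, 0) := by decide
      simp only [h3, mo, Pi.zero_apply, pow_zero, pow_one, one_mul, mul_one] at h2
      exact hy h2
    · ext r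
      have h2 := sum_cf X q y A (rw1 r).2 (EE (rw1 r).1) (chk1 r r.2)
      rw [hE _ (rw_lt r r.2), mul_zero] at h2
      exact h2

end Pool.Agent.Work.MP_157c12_gt.TT.ItemSP2a
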