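import Pool.Agent.Work.MP_157c12_gt.TT.Stmts
import Pool.Agent.Work.MP_157c12_gt.TT.ItemSP2a

/-!
# Surfaces of 2-type, Part 2: the system of ordinary differential equations has no solutions
-/

open Set

namespace Pool.Agent.Work.MP_157c12_gt.TT

namespace ItemSP2

open ItemSP2a

/-- a continuous function on an interval vanishes identically or is nonzero on a subinterval -/
lemma sub1 {c d : ℝ} {f : ℝ → ℝ} (hf : ∀ t ∈ Ioo c d, ContinuousAt f t) :
    (∀ t ∈ Ioo c d, f t = 0) ∨ ∃ c' d', c' < d' ∧ Ioo c' d' ⊆ Ioo c d ∧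
      ∀ t ∈ Ioo c' d', f t ≠ 0 := by
  by_cases h : ∀ t ∈ Ioo c d, f t = 0
  · exact Or.inl h
  · right
    push Not at h
    obtain ⟨t, ht, hft⟩ := h
    have h1 : {t | f t ≠ 0} ∩ Ioo c d ∈ nhds t :=
      Filter.inter_mem ((hf t ht).eventually_ne hft) (isOpen_Ioo.mem_nhds ht)
    obtain ⟨c', d', h2, h3⟩ := mem_nhds_iff_exists_Ioo_subset.1 h1
    exact ⟨c', d', h2.1.trans h2.2, fun u hu => (h3 hu).2, fun u hu => (h3 hu).1⟩

/-- the derivative of a function that is constant on an interval -/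
lemma der_const {c d : ℝ} {f : ℝ → ℝ} {v : ℝ} (hf : ∀ t ∈ Ioo c d, f t = v) {t : ℝ}
    (ht : t ∈ Ioo c d) {f' : ℝ} (h : HasDerivAt f f' t) : f' = 0 := by
  have h1 : f =ᶠ[nhds t] fun _ => v := Filter.eventually_of_mem (isOpen_Ioo.mem_nhds ht) hf
  exact h.unique ((hasDerivAt_const t v).congr_of_eventuallyEq h1)

/-- derivatives of functions that agree on an interval -/
lemma der_eq {c d : ℝ} {f g : ℝ → ℝ} (hf : ∀ t ∈ Ioo c d, f t = g t) {t : ℝ}
    (ht : t ∈ Ioo c d) {f' g' : ℝ} (h : HasDerivAt f f' t) (h2 : HasDerivAt g g' t) :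
    f' = g' := by
  have h1 : f =ᶠ[nhds t] g := Filter.eventually_of_mem (isOpen_Ioo.mem_nhds ht) hf
  exact h.unique (h2.congr_of_eventuallyEq h1)

/-- the system -/
structure Sys (c d a b : ℝ) (k l q y s w : ℝ → ℝ) : Prop where
  hk : ∀ t ∈ Ioo c d, HasDerivAt k (y t + q t * (k t - l t)) t
  hl : ∀ t ∈ Ioo c d, HasDerivAt l (-(q t * (k t - l t))) t
  hq : ∀ t ∈ Ioo c d, HasDerivAt q (q t ^ 2 + k t * l t) t
  hw : ∀ t ∈ Ioo c d, HasDerivAt w (1 + s t * k t) t
  hs : ∀ t ∈ Ioo c d, HasDerivAt s (-(k t * w t)) t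
  hy : ∀ t ∈ Ioo c d, HasDerivAt y (q t * y t + (k t + l t) * (k t ^ 2 + l t ^ 2)
    - a * (k t + l t) - b * s t) t
  e1 : ∀ t ∈ Ioo c d, (3 * k t + l t) * y t = b * w t
  e2 : ∀ t ∈ Ioo c d, -(q t * w t) = 1 + s t * l t
  y0 : ∀ t ∈ Ioo c d, y t ≠ 0

lemma Sys.mono {c d a b : ℝ} {k l q y s w : ℝ → ℝ} (h : Sys c d a b k l q y s w) {c' d' : ℝ}
    (hs : Ioo c' d' ⊆ Ioo c d) : Sys c' d' a b k l q y s w :=
  ⟨fun t ht => h.hk t (hs ht), fun t ht => h.hl t (hs ht), fun t ht => h.hq t (hs ht),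
    fun t ht => h.hw t (hs ht), fun t ht => h.hs t (hs ht), fun t ht => h.hy t (hs ht),
    fun t ht => h.e1 t (hs ht), fun t ht => h.e2 t (hs ht), fun t ht => h.y0 t (hs ht)⟩

lemma exists_mid {c d : ℝ} (h : c < d) : ∃ t, t ∈ Ioo c d := ⟨(c + d) / 2, by constructor <;> linarith⟩

/-- `l` does not vanish identically -/
lemma l_ne {c d a b : ℝ} {k l q y s w : ℝ → ℝ} (hcd : c < d) (hb : b ≠ 0)
    (h : Sys c d a b k l q y s w) : ¬ ∀ t ∈ Ioo c d, l t = 0 := by
  intro hl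
  obtain ⟨t, ht⟩ := exists_mid hcd
  have h1 := der_const hl ht (h.hl t ht)
  have h2 := h.e2 t ht
  have h3 := h.e1 t ht
  rw [hl t ht] at h1 h2 h3
  have hq : q t ≠ 0 := by
    intro h0
    rw [h0] at h2
    norm_num at h2
  have hk : k t = 0 := by
    have h4 : q t * k t = 0 := by linarith
    exact (mul_eq_zero.1 h4).resolve_left hq
  rw [hk] at h3
  have hw : w t = 0 := by
    have h5 : b * w t = 0 := by linarith
    exact (mul_eq_zero.1 h5).resolve_left hb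
  rw [hw] at h2
  norm_num at h2

/-- `k` does not vanish identically -/
lemma k_ne {c d a b : ℝ} {k l q y s w : ℝ → ℝ} (hcd : c < d)
    (h : Sys c d a b k l q y s w) (hl0 : ∀ t ∈ Ioo c d, l t ≠ 0) :
    ¬ ∀ t ∈ Ioo c d, k t = 0 := by
  intro hk
  have hy : ∀ t ∈ Ioo c d, y t = q t * l t := by
    intro t ht
    have h1 := der_const hk ht (h.hk t ht)
    rw [hk t ht] at h1
    linarith
  -- the derivative of `q l`
  have hql : ∀ t ∈ Ioo c d, HasDerivAt (fun τ => q τ * l τ) (2 * q t ^ 2 * l t) t := by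
    intro t ht
    refine ((h.hq t ht).mul (h.hl t ht)).congr_deriv ?_
    rw [hk t ht]
    ring
  have hbb : ∀ t ∈ Ioo c d, 3 * (q t * l t) ^ 2 = b := by
    intro t ht
    have h2 : HasDerivAt (fun τ => l τ * (q τ * l τ)) (3 * (q t * l t) ^ 2) t := by
      refine ((h.hl t ht).mul (hql t ht)).congr_deriv ?_
      rw [hk t ht]
      ring
    have h3 : HasDerivAt (fun τ => b * w τ) b t := by
      refine ((h.hw t ht).const_mul b).congr_deriv ?_
      rw [hk t ht]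
      ring
    refine der_eq ?_ ht h2 h3
    intro τ hτ
    have h4 := h.e1 τ hτ
    rw [hk τ hτ, hy τ hτ] at h4
    linarith
  obtain ⟨t, ht⟩ := exists_mid hcd
  have h5 : HasDerivAt (fun τ => 3 * (q τ * l τ) ^ 2) (12 * q t ^ 3 * l t ^ 2) t := by
    refine (((hql t ht).pow 2).const_mul 3).congr_deriv ?_
    simp only [Nat.cast_ofNat, Nat.add_one_sub_one, pow_one]
    ring
  have h6 := der_const hbb ht h5
  have h7 := hl0 t ht
  have h8 : q t = 0 := by
    have h9 : q t ^ 3 = 0 := by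
      have h10 : (12 * l t ^ 2) * q t ^ 3 = 0 := by linarith
      exact (mul_eq_zero.1 h10).resolve_left (by positivity)
    exact pow_eq_zero_iff (by norm_num) |>.1 h9
  have h11 := h.y0 t ht
  rw [hy t ht, h8, zero_mul] at h11
  exact h11 rfl

/-- elimination of `b` from the equation for `y` -/
lemma star {c d a b : ℝ} {k l q y s w : ℝ → ℝ} (h : Sys c d a b k l q y s w) {t : ℝ}
    (ht : t ∈ Ioo c d) :
    (4 * k t * (q t * y t + (k t + l t) * (k t ^ 2 + l t ^ 2) - a * (k t + l t) - b * s t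
        + q t * y t) = -(k t ^ 2 - l t ^ 2) * (a - k t ^ 2 - l t ^ 2) - 3 * y t ^ 2) ∧
    (a - k t ^ 2 - l t ^ 2) * (3 * k t + l t) * (k t + l t) * l t - 3 * y t ^ 2 * l t
      - 12 * k t * (k t + l t) * q t * y t = 4 * k t * b := by
  have h1 : HasDerivAt (fun τ => (3 * k τ + l τ) * y τ)
      ((3 * (y t + q t * (k t - l t)) + -(q t * (k t - l t))) * y t + (3 * k t + l t) *
        (q t * y t + (k t + l t) * (k t ^ 2 + l t ^ 2) - a * (k t + l t) - b * s t)) t :=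
    (((h.hk t ht).const_mul 3).add (h.hl t ht)).mul (h.hy t ht)
  have h2 : HasDerivAt (fun τ => b * w τ) (b * (1 + s t * k t)) t := (h.hw t ht).const_mul b
  have h3 := der_eq h.e1 ht h1 h2
  have h4 := h.e1 t ht
  have h5 := h.e2 t ht
  have hst : 4 * k t * (q t * y t + (k t + l t) * (k t ^ 2 + l t ^ 2) - a * (k t + l t) - b * s t
        + q t * y t) = -(k t ^ 2 - l t ^ 2) * (a - k t ^ 2 - l t ^ 2) - 3 * y t ^ 2 := by
    linear_combination h3 - b * h5 + q t * h4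
  refine ⟨hst, ?_⟩
  linear_combination (-l t) * hst + 4 * k t * b * h5 - 4 * k t * q t * h4

/-- the derivative of the scaled `y` -/
noncomputable def Yv (a b : ℝ) (k l q y s : ℝ → ℝ) (t : ℝ) : ℝ :=
  (q t * y t + (k t + l t) * (k t ^ 2 + l t ^ 2) - a * (k t + l t) - b * s t) / l t ^ 3
    + 2 * y t * (q t * (k t - l t)) / l t ^ 4

/-- the scaled system -/
lemma scaled {c d a b : ℝ} {k l q y s w : ℝ → ℝ} (h : Sys c d a b k l q y s w)
    (hl0 : ∀ t ∈ Ioo c d, l t ≠ 0) {t : ℝ} (ht : t ∈ Ioo c d) :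
    HasDerivAt (fun τ => k τ / l τ) (l t * (y t / l t ^ 2 + q t / l t * ((k t / l t) ^ 2 - 1))) t ∧
    HasDerivAt (fun τ => q τ / l τ) (l t * (k t / l t * (1 + (q t / l t) ^ 2))) t ∧
    HasDerivAt (fun τ => y τ / l τ ^ 2) (l t * Yv a b k l q y s t) t ∧
    (4 * (k t / l t) * Yv a b k l q y s t = -((k t / l t) ^ 2 - 1) *
      (a / l t ^ 2 - (k t / l t) ^ 2 - 1) - 3 * (y t / l t ^ 2) ^ 2
      + 4 * (k t / l t) * (2 * (k t / l t) - 3) * (q t / l t) * (y t / l t ^ 2)) ∧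
    HasDerivAt (fun τ => a / l τ ^ 2) (l t * (2 * (a / l t ^ 2) * (q t / l t) * (k t / l t - 1))) t
    := by
  have hl := hl0 t ht
  have hl2 : l t ^ 2 ≠ 0 := pow_ne_zero 2 hl
  have hsq : HasDerivAt (fun τ => l τ ^ 2) (2 * l t * -(q t * (k t - l t))) t := by
    refine ((h.hl t ht).pow 2).congr_deriv ?_
    simp
  refine ⟨?_, ?_, ?_, ?_, ?_⟩
  · refine ((h.hk t ht).div (h.hl t ht) hl).congr_deriv ?_
    field_simp
    ring
  · refine ((h.hq t ht).div (h.hl t ht) hl).congr_deriv ?_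
    field_simp
    ring
  · refine ((h.hy t ht).div hsq hl2).congr_deriv ?_
    rw [Yv]
    field_simp
    ring
  · have h1 := (star h ht).1
    rw [Yv]
    field_simp
    linear_combination l t * h1
  · refine ((hasDerivAt_const t a).div hsq hl2).congr_deriv ?_
    field_simp
    ring

/-- a vanishing polynomial has a vanishing derivative -/
lemma step {c d a b : ℝ} {k l q y s w : ℝ → ℝ} (h : Sys c d a b k l q y s w)
    (hl0 : ∀ t ∈ Ioo c d, l t ≠ 0) (P : List Tm)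
    (hP : ∀ t ∈ Ioo c d, evP (k t / l t) (q t / l t) (y t / l t ^ 2) (a / l t ^ 2) P = 0) :
    ∀ t ∈ Ioo c d, evP (k t / l t) (q t / l t) (y t / l t ^ 2) (a / l t ^ 2) (dP P) = 0 := by
  intro t ht
  obtain ⟨h1, h2, h3, h4, h5⟩ := scaled h hl0 ht
  obtain ⟨e, he, he'⟩ := hasDeriv_P P (X := fun τ => k τ / l τ) (q := fun τ => q τ / l τ)
    (y := fun τ => y τ / l τ ^ 2) (A := fun τ => a / l τ ^ 2) h1 h2 h3 h4 h5
  have h6 := der_const hP ht he
  rw [h6, mul_zero] at he'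
  exact (mul_eq_zero.1 he'.symm).resolve_left (hl0 t ht)

/-- the first relation -/
lemma first {c d a b : ℝ} {k l q y s w : ℝ → ℝ} (h : Sys c d a b k l q y s w)
    (hl0 : ∀ t ∈ Ioo c d, l t ≠ 0) :
    ∀ t ∈ Ioo c d, evP (k t / l t) (q t / l t) (y t / l t ^ 2) (a / l t ^ 2) (flat G1) = 0 := by
  have hB : ∀ t ∈ Ioo c d, evP (k t / l t) (q t / l t) (y t / l t ^ 2) (a / l t ^ 2) Bl =
      4 * b * (k t / l t ^ 5) := by
    intro t ht
    have hl := hl0 t ht
    have h1 := (star h ht).2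
    simp only [evP, evT, Bl, mo, List.map_cons, List.map_nil, List.sum_cons, List.sum_nil]
    push_cast
    field_simp
    linear_combination h1
  intro t ht
  have hl := hl0 t ht
  obtain ⟨h1, h2, h3, h4, h5⟩ := scaled h hl0 ht
  obtain ⟨e, he, he'⟩ := hasDeriv_P Bl (X := fun τ => k τ / l τ) (q := fun τ => q τ / l τ)
    (y := fun τ => y τ / l τ ^ 2) (A := fun τ => a / l τ ^ 2) h1 h2 h3 h4 h5
  have h6 : HasDerivAt (fun τ => 4 * b * (k τ / l τ ^ 5))
      (4 * b * (((y t + q t * (k t - l t)) * l t ^ 5 - k t * (5 * l t ^ 4 *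
        -(q t * (k t - l t)))) / (l t ^ 5) ^ 2)) t := by
    refine (((h.hk t ht).div ((h.hl t ht).pow 5) (pow_ne_zero 5 hl)).const_mul _).congr_deriv ?_
    simp
  have h7 := der_eq hB ht he h6
  have h8 : evP (k t / l t) (q t / l t) (y t / l t ^ 2) (a / l t ^ 2) Cl = -4 *
      evP (k t / l t) (q t / l t) (y t / l t ^ 2) (a / l t ^ 2) Bl *
      (y t / l t ^ 2 + q t / l t * (k t / l t - 1) * (5 * (k t / l t) + 1)) := by
    simp only [evP, evT, Bl, Cl, mo, List.map_cons, List.map_nil, List.sum_cons, List.sum_nil]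
    push_cast
    ring
  have h9 : evP (k t / l t) (q t / l t) (y t / l t ^ 2) (a / l t ^ 2) (dP Bl) +
      evP (k t / l t) (q t / l t) (y t / l t ^ 2) (a / l t ^ 2) Cl = 0 := by
    rw [h8, hB t ht]
    have h10 : l t * (evP (k t / l t) (q t / l t) (y t / l t ^ 2) (a / l t ^ 2) (dP Bl) + -4 *
        (4 * b * (k t / l t ^ 5)) *
        (y t / l t ^ 2 + q t / l t * (k t / l t - 1) * (5 * (k t / l t) + 1))) = 0 := by
      rw [mul_add, ← he', h7]
      field_simp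
      ring
    exact (mul_eq_zero.1 h10).resolve_left hl
  have h11 := congrArg (evP (k t / l t) (q t / l t) (y t / l t ^ 2) (a / l t ^ 2)) dB
  rw [evP_cl0, evP_mg, h9] at h11
  have h12 : ∀ P : List Tm, evP (k t / l t) (q t / l t) (y t / l t ^ 2) (a / l t ^ 2)
      (P.map fun t => (2 * t.1, t.2)) =
      2 * evP (k t / l t) (q t / l t) (y t / l t ^ 2) (a / l t ^ 2) P := by
    intro P
    induction P with
    | nil => simp [evP]
    | cons s P ih =>
      rw [List.map_cons, evP_cons, ih, evP_cons]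
      simp only [evT]
      push_cast
      ring
  rw [h12] at h11
  linarith

/-- all relations -/
lemma allE {c d a b : ℝ} {k l q y s w : ℝ → ℝ} (h : Sys c d a b k l q y s w)
    (hl0 : ∀ t ∈ Ioo c d, l t ≠ 0) :
    ∀ t ∈ Ioo c d, ∀ e < 5, evG (k t / l t) (q t / l t) (y t / l t ^ 2) (a / l t ^ 2) (EE e) = 0
    := by
  have h1 := first h hl0
  have h2 := step h hl0 _ h1
  rw [d1] at h2
  have h3 := step h hl0 _ h2
  rw [d2] at h3
  have h4 := step h hl0 _ h3
  rw [d3] at h4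
  have h5 := step h hl0 _ h4
  rw [d4] at h5
  intro t ht e he
  interval_cases e
  · rw [← evP_flat]; exact h1 t ht
  · rw [← evP_flat]; exact h2 t ht
  · rw [← evP_flat]; exact h3 t ht
  · rw [← evP_flat]; exact h4 t ht
  · rw [← evP_flat]; exact h5 t ht

/-- the ratio `k / l` is constant -/
lemma const {c d a b : ℝ} {k l q y s w : ℝ → ℝ} (hcd : c < d) (h : Sys c d a b k l q y s w)
    (hl0 : ∀ t ∈ Ioo c d, l t ≠ 0) : ∃ v, ∀ t ∈ Ioo c d, k t / l t = v := by
  obtain ⟨D, hD, hroot⟩ := algCore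
  have h1 : ∀ t ∈ Ioo c d, k t / l t ∈ D.rootSet ℝ := by
    intro t ht
    rw [Polynomial.mem_rootSet]
    refine ⟨hD, hroot _ _ _ _ ?_ (allE h hl0 t ht)⟩
    exact div_ne_zero (h.y0 t ht) (pow_ne_zero 2 (hl0 t ht))
  have h2 : ((fun t => k t / l t) '' Ioo c d).Finite :=
    (D.rootSet_finite ℝ).subset (by
      rintro _ ⟨t, ht, rfl⟩
      exact h1 t ht)
  have h3 : IsPreconnected ((fun t => k t / l t) '' Ioo c d) := by
    refine isPreconnected_Ioo.image _ ?_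
    intro t ht
    exact ((scaled h hl0 ht).1.continuousAt).continuousWithinAt
  have h4 : ((fun t => k t / l t) '' Ioo c d).Subsingleton :=
    h2.countable.isTotallyDisconnected _ (Subset.refl _) h3
  obtain ⟨t0, ht0⟩ := exists_mid hcd
  exact ⟨k t0 / l t0, fun t ht => h4 ⟨t, ht, rfl⟩ ⟨t0, ht0, rfl⟩⟩

/-- the case of constant ratio -/
lemma fin {c d a b : ℝ} {k l q y s w : ℝ → ℝ} (hcd : c < d) (h : Sys c d a b k l q y s w)
    (hl0 : ∀ t ∈ Ioo c d, l t ≠ 0) (hk0 : ∀ t ∈ Ioo c d, k t ≠ 0) {v : ℝ}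
    (hv : ∀ t ∈ Ioo c d, k t / l t = v) : False := by
  -- notation
  have hY : ∀ t ∈ Ioo c d, y t / l t ^ 2 = (1 - v ^ 2) * (q t / l t) := by
    intro t ht
    have h1 := der_const hv ht (scaled h hl0 ht).1
    have h2 := (mul_eq_zero.1 h1).resolve_left (hl0 t ht)
    rw [hv t ht] at h2
    linarith
  have hne : ∀ t ∈ Ioo c d, (1 - v ^ 2) * (q t / l t) ≠ 0 := by
    intro t ht
    rw [← hY t ht]
    exact div_ne_zero (h.y0 t ht) (pow_ne_zero 2 (hl0 t ht))
  obtain ⟨t0, ht0⟩ := exists_mid hcd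
  have hv1 : 1 - v ^ 2 ≠ 0 := left_ne_zero_of_mul (hne t0 ht0)
  have hQ : ∀ t ∈ Ioo c d, q t / l t ≠ 0 := fun t ht => right_ne_zero_of_mul (hne t ht)
  have hv0 : v ≠ 0 := by
    rw [← hv t0 ht0]
    exact div_ne_zero (hk0 t0 ht0) (hl0 t0 ht0)
  have hdQ : ∀ t ∈ Ioo c d, HasDerivAt (fun τ => q τ / l τ)
      (l t * (v * (1 + (q t / l t) ^ 2))) t := by
    intro t ht
    have h1 := (scaled h hl0 ht).2.1
    rw [hv t ht] at h1
    exact h1
  -- the equation for `y`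
  have hA : ∀ t ∈ Ioo c d, a / l t ^ 2 = 5 * v ^ 2 + 1
      + (3 - 7 * v ^ 2 + 12 * v) * (q t / l t) ^ 2 := by
    intro t ht
    obtain ⟨h1, h2, h3, h4, h5⟩ := scaled h hl0 ht
    have h6 := der_eq hY ht h3 ((hdQ t ht).const_mul (1 - v ^ 2))
    have h7 : Yv a b k l q y s t = (1 - v ^ 2) * (v * (1 + (q t / l t) ^ 2)) := by
      have h8 : l t * (Yv a b k l q y s t - (1 - v ^ 2) * (v * (1 + (q t / l t) ^ 2))) = 0 := by
        linear_combination h6
      have h9 := (mul_eq_zero.1 h8).resolve_left (hl0 t ht)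
      linarith
    rw [h7, hY t ht, hv t ht] at h4
    have h10 : (1 - v ^ 2) * (a / l t ^ 2 - (5 * v ^ 2 + 1
      + (3 - 7 * v ^ 2 + 12 * v) * (q t / l t) ^ 2)) = 0 := by
      linear_combination -h4
    have h11 := (mul_eq_zero.1 h10).resolve_left hv1
    linarith
  -- derivative of this equation
  have hA2 : ∀ t ∈ Ioo c d, (3 - 7 * v ^ 2 + 12 * v) * (q t / l t) ^ 2 =
      (5 * v ^ 2 + 1) * (v - 1) - (3 - 7 * v ^ 2 + 12 * v) * v := by
    intro t ht
    obtain ⟨h1, h2, h3, h4, h5⟩ := scaled h hl0 ht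
    have h6 : HasDerivAt (fun τ => 5 * v ^ 2 + 1 + (3 - 7 * v ^ 2 + 12 * v) * (q τ / l τ) ^ 2)
        ((3 - 7 * v ^ 2 + 12 * v) * (2 * (q t / l t) * (l t * (v * (1 + (q t / l t) ^ 2))))) t := by
      refine ((((hdQ t ht).pow 2).const_mul (3 - 7 * v ^ 2 + 12 * v)).const_add
        (5 * v ^ 2 + 1)).congr_deriv ?_
      simp
    have h7 := der_eq hA ht h5 h6
    rw [hv t ht, hA t ht] at h7
    have h8 : (2 * l t * (q t / l t)) * ((5 * v ^ 2 + 1 + (3 - 7 * v ^ 2 + 12 * v) *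
        (q t / l t) ^ 2) * (v - 1) - (3 - 7 * v ^ 2 + 12 * v) * (v * (1 + (q t / l t) ^ 2))) = 0 := by
      linear_combination h7
    have h9 := (mul_eq_zero.1 h8).resolve_left
      (mul_ne_zero (mul_ne_zero two_ne_zero (hl0 t ht)) (hQ t ht))
    linear_combination -h9
  have hkap : 3 - 7 * v ^ 2 + 12 * v = 0 := by
    have h6 : HasDerivAt (fun τ => (3 - 7 * v ^ 2 + 12 * v) * (q τ / l τ) ^ 2)
        ((3 - 7 * v ^ 2 + 12 * v) * (2 * (q t0 / l t0) *
          (l t0 * (v * (1 + (q t0 / l t0) ^ 2))))) t0 := by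
      refine (((hdQ t0 ht0).pow 2).const_mul (3 - 7 * v ^ 2 + 12 * v)).congr_deriv ?_
      simp
    have h7 := der_const hA2 ht0 h6
    refine (mul_eq_zero.1 h7).resolve_right ?_
    have h8 : (0 : ℝ) < 1 + (q t0 / l t0) ^ 2 := by positivity
    exact mul_ne_zero (mul_ne_zero two_ne_zero (hQ t0 ht0))
      (mul_ne_zero (hl0 t0 ht0) (mul_ne_zero hv0 h8.ne'))
  have h1 := hA2 t0 ht0
  rw [hkap] at h1
  have h2 : (5 * v ^ 2 + 1) * (v - 1) = 0 := by linarith
  have h3 : v - 1 = 0 := (mul_eq_zero.1 h2).resolve_left (by positivity)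
  have h4 : v = 1 := by linarith
  rw [h4] at hv1
  norm_num at hv1

end ItemSP2

open ItemSP2 in
theorem sP2 : SP2 := by
  intro c d a b k l q y s w hcd hb hk hl hq hw hs hy e1 e2 y0
  have h : Sys c d a b k l q y s w := ⟨hk, hl, hq, hw, hs, hy, e1, e2, y0⟩
  rcases sub1 (fun t ht => (hl t ht).continuousAt) with h1 | ⟨c1, d1, h1, h2, h3⟩
  · exact l_ne hcd hb h h1
  · have h4 := h.mono h2
    rcases sub1 (fun t ht => (h4.hk t ht).continuousAt) with h5 | ⟨c2, d2, h5, h6, h7⟩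
    · exact k_ne h1 h4 h3 h5
    · have h8 := h4.mono h6
      have h9 : ∀ t ∈ Ioo c2 d2, l t ≠ 0 := fun t ht => h3 t (h6 ht)
      obtain ⟨v, hv⟩ := const h5 h8 h9
      exact fin h5 h8 h9 h7 hv

end Pool.Agent.Work.MP_157c12_gt.TT
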