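import Pool.Agent.Work.MP_157c12_gt.TT.Stmts2
import Pool.Agent.Work.MP_157c12_gt.Bd.B05

/-!
# Surfaces of null 2-type: the patch lies in a circular cylinder
-/

open TopologicalSpace
open scoped Manifold ContDiff RealInnerProductSpace

namespace Pool.Agent.Work.MP_157c12_gt.TT

open Pool.Agent.Work.MP_157c12_gt

namespace ItemSZ6

open ItemSZ5

section Alg

variable {R : Type} [CommRing R] [Algebra ℝ R] {e1 e2 : Derivation ℝ R R}
  {x T1 T2 N : Fin 3 → R} {k m n p q : R}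

/-- the multiple of the projector on the axis of the cylinder -/
def Q (T1 T2 : Fin 3 → R) (k m n : R) (a b : Fin 3) : R :=
  n * T1 a * T1 b - m * (T1 a * T2 b + T2 a * T1 b) + k * T2 a * T2 b

lemma Qdot (a : Fin 3) (v : Fin 3 → R) : dot (Q T1 T2 k m n a) v =
    n * T1 a * dot T1 v - m * (T1 a * dot T2 v + T2 a * dot T1 v) + k * T2 a * dot T2 v := by
  unfold dot Q
  ring

lemma dot_comm (v w : Fin 3 → R) : dot v w = dot w v := by
  unfold dot
  ring

lemma QN (hF : OFrame e1 e2 x T1 T2 N k m n p q) (a : Fin 3) :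
    dot (Q T1 T2 k m n a) N = 0 := by
  rw [Qdot, hF.d1N, hF.d2N]
  ring

lemma QT1 (hF : OFrame e1 e2 x T1 T2 N k m n p q) (a : Fin 3) :
    dot (Q T1 T2 k m n a) T1 = n * T1 a - m * T2 a := by
  rw [Qdot, hF.d11, dot_comm T2 T1, hF.d12]
  ring

lemma QT2 (hF : OFrame e1 e2 x T1 T2 N k m n p q) (a : Fin 3) :
    dot (Q T1 T2 k m n a) T2 = -m * T1 a + k * T2 a := by
  rw [Qdot, hF.d12, hF.d22]
  ring

lemma der_sq (e : Derivation ℝ R R) (f : R) : e (f ^ 2) = 2 * f * e f := by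
  rw [pow_two, der_mul]
  ring

lemma codz (hF : OFrame e1 e2 x T1 T2 N k m n p q) (h1 : e1 (k + n) = 0) (h2 : e2 (k + n) = 0)
    (d1 : e1 ((k - n) ^ 2 + 4 * m ^ 2) = 0) (d2 : e2 ((k - n) ^ 2 + 4 * m ^ 2) = 0)
    (hu : IsUnit ((k - n) ^ 2 + 4 * m ^ 2)) :
    (e1 m = -p * (k - n) ∧ e1 n = -2 * p * m ∧ e1 k = 2 * p * m) ∧
      (e2 m = q * (k - n) ∧ e2 n = 2 * q * m ∧ e2 k = -2 * q * m) := by
  have c1 := hF.codazzi1
  have c2 := hF.codazzi2
  have h4 : ∀ e : Derivation ℝ R R, e (4 * m ^ 2) = 4 * (2 * m * e m) := by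
    intro e
    rw [show (4 : R) = algebraMap ℝ R 4 by rw [map_ofNat], der_c, der_sq]
  rw [map_add, der_sq, h4, map_sub] at d1 d2
  rw [map_add] at h1 h2
  have E1 : -4 * (k - n) * (e1 n + 2 * p * m) + 8 * m * (e1 m + p * (k - n)) = 0 := by
    linear_combination d1 - 2 * (k - n) * h1
  have E2 : 4 * (k - n) * (e1 m + p * (k - n)) + 8 * m * (e1 n + 2 * p * m) = 0 := by
    linear_combination d2 + 2 * (k - n) * h2 + 4 * (k - n) * c1 + 8 * m * c2
  have hu2 : ∀ f : R, algebraMap ℝ R 4 * (((k - n) ^ 2 + 4 * m ^ 2) * f) = 0 → f = 0 := by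
    intro f hf
    have := cancel (by norm_num : (4 : ℝ) ≠ 0) hf
    exact (hu.mul_right_eq_zero).mp this
  have A1 : e1 m + p * (k - n) = 0 := by
    apply hu2
    rw [map_ofNat]
    linear_combination (k - n) * E2 + 2 * m * E1
  have A2 : e1 n + 2 * p * m = 0 := by
    apply hu2
    rw [map_ofNat]
    linear_combination -(k - n) * E1 + 2 * m * E2
  refine ⟨⟨?_, ?_, ?_⟩, ?_, ?_, ?_⟩
  · linear_combination A1
  · linear_combination A2
  · linear_combination h1 - A2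
  · linear_combination A2 - c2
  · linear_combination h2 - A1 + c1
  · linear_combination A1 - c1

lemma e1Q (hF : OFrame e1 e2 x T1 T2 N k m n p q) (hkn : k * n - m ^ 2 = 0)
    (hm : e1 m = -p * (k - n)) (hn : e1 n = -2 * p * m) (hk : e1 k = 2 * p * m) (a b : Fin 3) :
    e1 (Q T1 T2 k m n a b) = 0 := by
  simp only [Q, map_add, map_sub, der_mul, hF.T11, hF.T12, hm, hn, hk]
  linear_combination (N a * T1 b + T1 a * N b) * hkn

lemma e2Q (hF : OFrame e1 e2 x T1 T2 N k m n p q) (hkn : k * n - m ^ 2 = 0)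
    (hm : e2 m = q * (k - n)) (hn : e2 n = 2 * q * m) (hk : e2 k = -2 * q * m) (a b : Fin 3) :
    e2 (Q T1 T2 k m n a b) = 0 := by
  simp only [Q, map_add, map_sub, der_mul, hF.T21, hF.T22, hm, hn, hk]
  linear_combination (N a * T2 b + T2 a * N b) * hkn

end Alg

lemma exists_cs {H K M L : ℝ} (hH : H ≠ 0) (hs : K + L = H) (hm : K * L = M ^ 2) :
    ∃ c s : ℝ, H * c ^ 2 = L ∧ H * s ^ 2 = K ∧ H * (c * s) = -M := by
  by_cases hL : L = 0
  · refine ⟨0, 1, ?_, ?_, ?_⟩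
    · rw [hL]; ring
    · rw [← hs, hL]; ring
    · rw [hL, mul_zero] at hm
      have : M = 0 := by
        have := hm.symm
        exact pow_eq_zero_iff (two_ne_zero) |>.mp this
      rw [this]; ring
  · have hpos : 0 < L / H := by
      have e1 : 0 ≤ L / H := by
        have e2 : L / H = (L ^ 2 + M ^ 2) / H ^ 2 := by
          rw [← hm, div_eq_div_iff hH (pow_ne_zero 2 hH)]
          rw [← hs]; ring
        rw [e2]
        positivity
      rcases e1.lt_or_eq with h | h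
      · exact h
      · exfalso
        rcases div_eq_zero_iff.mp h.symm with h | h
        · exact hL h
        · exact hH h
    have hc : Real.sqrt (L / H) ^ 2 = L / H := Real.sq_sqrt hpos.le
    have hc0 : Real.sqrt (L / H) ≠ 0 := (Real.sqrt_pos.mpr hpos).ne'
    refine ⟨Real.sqrt (L / H), -(M / H) / Real.sqrt (L / H), ?_, ?_, ?_⟩
    · rw [hc]; field_simp
    · rw [div_pow, hc]
      have : (-(M / H)) ^ 2 = K * L / H ^ 2 := by rw [hm]; field_simp
      rw [this]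
      field_simp
    · field_simp

lemma inner3 (v w : E 3) : ⟪v, w⟫ = v 0 * w 0 + v 1 * w 1 + v 2 * w 2 := by
  rw [PiLp.inner_apply, Fin.sum_univ_three]
  simp only [RCLike.inner_apply, conj_trivial]
  ring

lemma norm3 (v : E 3) : ‖v‖ ^ 2 = v 0 ^ 2 + v 1 ^ 2 + v 2 ^ 2 := by
  rw [EuclideanSpace.norm_sq_eq, Fin.sum_univ_three]
  simp only [Real.norm_eq_abs, sq_abs]

lemma const_ball {O : Opens (E 2)} {p : E 2} {r : ℝ} (hr : 0 < r) (hb : Metric.ball p r ⊆ O)
    (f : RR O) (h0 : dR O 0 f = 0) (h1 : dR O 1 f = 0) {z : E 2} (hz : z ∈ Metric.ball p r) :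
    ev f z = ev f p := by
  apply IsOpen.is_const_of_fderiv_eq_zero (𝕜 := ℝ) Metric.isOpen_ball
    (convex_ball p r).isPreconnected (fun w hw => (diffAt_ev f (hb hw)).differentiableWithinAt)
    (fun w hw => ItemSL.fderiv_zero f h0 h1 (hb hw)) hz (Metric.mem_ball_self hr)

/-- the last part, at one point -/
lemma last {e e' : E 3} (he : ‖e‖ = 1) (he' : ‖e'‖ = 1) {t1 t2 v : Fin 3 → ℝ} {K L M H : ℝ}
    (hH : H ≠ 0) (hs : K + L = H)
    (hfull : ∀ a b, t1 a * t1 b + t2 a * t2 b + v a * v b = if a = b then 1 else 0)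
    (hQ : ∀ a b, L * t1 a * t1 b - M * (t1 a * t2 b + t2 a * t1 b) + K * t2 a * t2 b =
      H * (e a * e b))
    (hv : e' 0 * v 0 + e' 1 * v 1 + e' 2 * v 2 = 0)
    (ha : K * (e' 0 * t1 0 + e' 1 * t1 1 + e' 2 * t1 2) +
      M * (e' 0 * t2 0 + e' 1 * t2 1 + e' 2 * t2 2) = 0)
    (hb : M * (e' 0 * t1 0 + e' 1 * t1 1 + e' 2 * t1 2) +
      L * (e' 0 * t2 0 + e' 1 * t2 1 + e' 2 * t2 2) = 0) : e' = e ∨ e' = -e := by
  set α := e' 0 * t1 0 + e' 1 * t1 1 + e' 2 * t1 2 with hα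
  set β := e' 0 * t2 0 + e' 1 * t2 1 + e' 2 * t2 2 with hβ
  set τ := e 0 * e' 0 + e 1 * e' 1 + e 2 * e' 2 with hτ
  have hexp : ∀ a, e' a = t1 a * α + t2 a * β := by
    intro a
    have h0 := hfull a 0
    have h1 := hfull a 1
    have h2 := hfull a 2
    have e3 : t1 a * α + t2 a * β = e' 0 * (if a = 0 then 1 else 0) +
        e' 1 * (if a = 1 then 1 else 0) + e' 2 * (if a = 2 then 1 else 0) := by
      rw [← h0, ← h1, ← h2, hα, hβ]
      linear_combination (-v a) * hv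
    rw [e3]
    fin_cases a <;> simp
  have hkey : ∀ a, e' a = e a * τ := by
    intro a
    apply mul_left_cancel₀ hH
    have e3 : H * (e a * τ) = L * t1 a * α - M * (t1 a * β + t2 a * α) + K * t2 a * β := by
      rw [hτ, hα, hβ]
      linear_combination (-e' 0) * hQ a 0 - e' 1 * hQ a 1 - e' 2 * hQ a 2
    rw [e3, hexp a, ← hs]
    linear_combination (t1 a) * ha + t2 a * hb
  have n1 := norm3 e
  have n2 := norm3 e'
  rw [he] at n1
  rw [he', hkey 0, hkey 1, hkey 2] at n2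
  have hτ2 : (τ - 1) * (τ + 1) = 0 := by
    linear_combination (τ ^ 2) * n1 - n2
  rcases mul_eq_zero.mp hτ2 with h | h
  · left
    ext a
    rw [hkey a, sub_eq_zero.mp h, mul_one]
  · right
    ext a
    have : τ = -1 := by linarith
    rw [hkey a, this]
    simp

end ItemSZ6

open ItemSZ5 ItemSZ6 in
theorem sZ6 (h1 : SF) (h2 : SN) (h3 : ST) (h7 : SU) (h8 : SZ3) (h9 : SZ2) : SZ6 := by
  intro O X Y1 Y2 l ρ hl hρ hP hlρ
  obtain ⟨e1, e2, x, y1, y2, T1, T2, N, k, m, n, p, q, hF, hy1, hy2, hxy, hyN, hh2, hd1, hd2,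
    hfin, hA, hB⟩ := common h1 h2 h3 h7 hl hρ hP
  have hdel : (k - n) ^ 2 + 4 * m ^ 2 = algebraMap ℝ (RR O) (-(l * (l * ρ + 2))) := by
    have e3 : algebraMap ℝ (RR O) (-(l * (l * ρ + 2))) =
        -(algebraMap ℝ (RR O) (l ^ 2 * ρ)) - 2 * algebraMap ℝ (RR O) l := by
      rw [← map_ofNat (algebraMap ℝ (RR O)) 2, ← map_mul, ← map_neg, ← map_sub]
      congr 1
      ring
    rw [e3, ← hh2]
    linear_combination (-2 : RR O) * hfin
  have hdz : ∀ e : Derivation ℝ (RR O) (RR O), e ((k - n) ^ 2 + 4 * m ^ 2) = 0 := by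
    intro e
    rw [hdel]
    exact e.map_algebraMap _
  have hdu : IsUnit ((k - n) ^ 2 + 4 * m ^ 2) := by
    rw [hdel]
    have : -(l * (l * ρ + 2)) ≠ 0 := by
      rw [neg_ne_zero]
      refine mul_ne_zero hl fun h => hlρ ?_
      linarith
    exact (IsUnit.mk0 _ this).map _
  have hkn : k * n - m ^ 2 = 0 := h9 (RR O) e1 e2 x T1 T2 N k m n p q hF hd1 hd2 (hdz e1) (hdz e2) hdu
  obtain ⟨⟨m1, n1, k1⟩, m2, n2, k2⟩ := codz hF hd1 hd2 (hdz e1) (hdz e2) hdu
  have hQ1 := e1Q hF hkn m1 n1 k1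
  have hQ2 := e2Q hF hkn m2 n2 k2
  have hhl : (k + n) ^ 2 = -algebraMap ℝ (RR O) l := by
    linear_combination -hfin + 2 * hkn
  have hlr : l ^ 2 * ρ ≠ 0 := mul_ne_zero (pow_ne_zero 2 hl) hρ.ne'
  have hcan : ∀ f : RR O, (k + n) * f = 0 → f = 0 := by
    intro f hf
    apply cancel hlr
    rw [← hh2, pow_two, mul_assoc, hf, mul_zero]
  have hy1d : ∀ a, (k + n) * e1 (y1 a) = n * T1 a - m * T2 a := by
    intro a
    have e3 : e1 (y1 a) = T1 a - e1 (y2 a) := by
      rw [← hF.x1 a, hxy a, map_add]; ring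
    have e4 : algebraMap ℝ (RR O) l * e1 (y2 a) = (k + n) * (-k * T1 a - m * T2 a) := by
      rw [← der_c, hyN a, der_mul, hF.N1 a, hd1]; ring
    have e5 : algebraMap ℝ (RR O) l * ((k + n) * e1 (y1 a) - (n * T1 a - m * T2 a)) = 0 := by
      rw [e3]
      linear_combination (-(k + n)) * e4 + (k * T1 a + m * T2 a) * hhl
    linear_combination (cancel hl e5)
  have hy2d : ∀ a, (k + n) * e2 (y1 a) = -m * T1 a + k * T2 a := by
    intro a
    have e3 : e2 (y1 a) = T2 a - e2 (y2 a) := by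
      rw [← hF.x2 a, hxy a, map_add]; ring
    have e4 : algebraMap ℝ (RR O) l * e2 (y2 a) = (k + n) * (-m * T1 a - n * T2 a) := by
      rw [← der_c, hyN a, der_mul, hF.N2 a, hd2]; ring
    have e5 : algebraMap ℝ (RR O) l * ((k + n) * e2 (y1 a) - (-m * T1 a + k * T2 a)) = 0 := by
      rw [e3]
      linear_combination (-(k + n)) * e4 + (m * T1 a + n * T2 a) * hhl
    linear_combination (cancel hl e5)
  have hG1 : ∀ a, e1 ((k + n) * y1 a - dot (Q T1 T2 k m n a) y1) = 0 := by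
    intro a
    have e3 : e1 (dot (Q T1 T2 k m n a) y1) = dot (Q T1 T2 k m n a) (fun b => e1 (y1 b)) := by
      simp only [dot, map_add, der_mul, hQ1]; ring
    have e5 : (k + n) * dot (Q T1 T2 k m n a) (fun b => e1 (y1 b)) =
        n * dot (Q T1 T2 k m n a) T1 - m * dot (Q T1 T2 k m n a) T2 := by
      have : (k + n) * dot (Q T1 T2 k m n a) (fun b => e1 (y1 b)) =
          dot (Q T1 T2 k m n a) (fun b => (k + n) * e1 (y1 b)) := by unfold dot; ring
      rw [this]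
      simp only [hy1d]
      unfold dot
      ring
    rw [QT1 hF, QT2 hF] at e5
    apply hcan
    rw [map_sub, der_mul, hd1, e3]
    linear_combination (k + n) * hy1d a - e5 + T1 a * hkn
  have hG2 : ∀ a, e2 ((k + n) * y1 a - dot (Q T1 T2 k m n a) y1) = 0 := by
    intro a
    have e3 : e2 (dot (Q T1 T2 k m n a) y1) = dot (Q T1 T2 k m n a) (fun b => e2 (y1 b)) := by
      simp only [dot, map_add, der_mul, hQ2]; ring
    have e5 : (k + n) * dot (Q T1 T2 k m n a) (fun b => e2 (y1 b)) =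
        -m * dot (Q T1 T2 k m n a) T1 + k * dot (Q T1 T2 k m n a) T2 := by
      have : (k + n) * dot (Q T1 T2 k m n a) (fun b => e2 (y1 b)) =
          dot (Q T1 T2 k m n a) (fun b => (k + n) * e2 (y1 b)) := by unfold dot; ring
      rw [this]
      simp only [hy2d]
      unfold dot
      ring
    rw [QT1 hF, QT2 hF] at e5
    apply hcan
    rw [map_sub, der_mul, hd2, e3]
    linear_combination (k + n) * hy2d a - e5 + T2 a * hkn
  intro z0 hz0
  obtain ⟨r, hr, hb⟩ := Metric.isOpen_iff.mp O.isOpen z0 hz0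
  have hHz : ∀ z ∈ Metric.ball z0 r, ev (k + n) z = ev (k + n) z0 := fun z hz =>
    const_ball hr hb _ (hA _ hd1 hd2).1 (hA _ hd1 hd2).2 hz
  set H := ev (k + n) z0 with hHdef
  have hH2 : H ^ 2 = l ^ 2 * ρ := by
    have e3 : ev ((k + n) * (k + n)) z0 = l ^ 2 * ρ := by
      rw [← pow_two, hh2, algebraMap_ev _ hz0]
    rw [mul_ev _ _ hz0] at e3
    rw [pow_two, e3]
  have hH : H ≠ 0 := by
    intro h
    rw [h] at hH2
    exact hlr (by rw [← hH2]; ring)
  have hsum : ∀ z ∈ O, ev k z + ev n z = ev (k + n) z := fun z hz => (add_ev _ _ hz).symm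
  have hKL : ev k z0 * ev n z0 = ev m z0 ^ 2 := by
    have e3 : ev (k * n - m * m) z0 = 0 := by
      rw [← pow_two, hkn, zero_ev hz0]
    rw [sub_ev _ _ hz0, mul_ev _ _ hz0, mul_ev _ _ hz0] at e3
    rw [pow_two]
    linarith
  obtain ⟨c, s, hc, hs, hcs⟩ := exists_cs hH (hsum z0 hz0) hKL
  set e : E 3 := WithLp.toLp 2 (fun a => c * ev (T1 a) z0 + s * ev (T2 a) z0) with hedef
  have he : ∀ a, e a = c * ev (T1 a) z0 + s * ev (T2 a) z0 := fun a => rfl
  have hQev : ∀ a b, ∀ z ∈ O, ev (Q T1 T2 k m n a b) z =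
      ev n z * ev (T1 a) z * ev (T1 b) z - ev m z * (ev (T1 a) z * ev (T2 b) z +
        ev (T2 a) z * ev (T1 b) z) + ev k z * ev (T2 a) z * ev (T2 b) z := by
    intro a b z hz
    unfold Q
    simp only [add_ev _ _ hz, sub_ev _ _ hz, mul_ev _ _ hz]
  have hQ0 : ∀ a b, ev (Q T1 T2 k m n a b) z0 = H * (e a * e b) := by
    intro a b
    rw [he, he, hQev a b z0 hz0]
    linear_combination (-(ev (T1 a) z0 * ev (T1 b) z0)) * hc -
      (ev (T1 a) z0 * ev (T2 b) z0 + ev (T2 a) z0 * ev (T1 b) z0) * hcs -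
      (ev (T2 a) z0 * ev (T2 b) z0) * hs
  have hQz : ∀ a b, ∀ z ∈ Metric.ball z0 r, ev (Q T1 T2 k m n a b) z = H * (e a * e b) := by
    intro a b z hz
    rw [← hQ0 a b]
    exact const_ball hr hb _ (hA _ (hQ1 a b) (hQ2 a b)).1 (hA _ (hQ1 a b) (hQ2 a b)).2 hz
  have hne : e 0 ^ 2 + e 1 ^ 2 + e 2 ^ 2 = 1 := by
    have d11 : ev (dot T1 T1) z0 = 1 := by rw [hF.d11, one_ev hz0]
    have d12 : ev (dot T1 T2) z0 = 0 := by rw [hF.d12, zero_ev hz0]
    have d22 : ev (dot T2 T2) z0 = 1 := by rw [hF.d22, one_ev hz0]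
    rw [ItemSL.dot_ev _ _ hz0] at d11 d12 d22
    apply mul_left_cancel₀ hH
    rw [he, he, he]
    have hs' := hsum z0 hz0
    rw [← hHdef] at hs'
    linear_combination (H * c ^ 2) * d11 + (2 * H * c * s) * d12 + (H * s ^ 2) * d22 + hc + hs +
      hs'
  have hen : ‖e‖ = 1 := by
    have e3 := norm3 e
    rw [hne] at e3
    nlinarith [norm_nonneg e]
  have hYN : ∀ a, ∀ z ∈ O, l * Y2 z a = ev (k + n) z * ev (N a) z := by
    intro a z hz
    rw [← hy2 a z hz, ← algebraMap_ev l hz, ← mul_ev _ _ hz, hyN a, mul_ev _ _ hz]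
  refine ⟨e, hen, ⟨Metric.ball z0 r, Metric.isOpen_ball⟩, Metric.mem_ball_self hr, hb, ?_, ?_⟩
  · intro z hz
    have hzO : z ∈ O := hb hz
    constructor
    · have hS : ∀ a, H * e a * (e 0 * ev (N 0) z + e 1 * ev (N 1) z + e 2 * ev (N 2) z) = 0 := by
        intro a
        have e3 : ev (dot (Q T1 T2 k m n a) N) z = 0 := by rw [ItemSZ6.QN hF a, zero_ev hzO]
        rw [ItemSL.dot_ev _ _ hzO, hQz a 0 z hz, hQz a 1 z hz, hQz a 2 z hz] at e3
        linear_combination e3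
      have hS0 : H * (e 0 * ev (N 0) z + e 1 * ev (N 1) z + e 2 * ev (N 2) z) = 0 := by
        linear_combination e 0 * hS 0 + e 1 * hS 1 + e 2 * hS 2 -
          (H * (e 0 * ev (N 0) z + e 1 * ev (N 1) z + e 2 * ev (N 2) z)) * hne
      apply mul_left_cancel₀ hl
      rw [mul_zero, inner3]
      have y0 := hYN 0 z hzO
      have y1' := hYN 1 z hzO
      have y2' := hYN 2 z hzO
      rw [hHz z hz] at y0 y1' y2'
      linear_combination e 0 * y0 + e 1 * y1' + e 2 * y2' + hS0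
    · have hG : ∀ a, H * Y1 z a - H * e a * (e 0 * Y1 z 0 + e 1 * Y1 z 1 + e 2 * Y1 z 2) =
          H * Y1 z0 a - H * e a * (e 0 * Y1 z0 0 + e 1 * Y1 z0 1 + e 2 * Y1 z0 2) := by
        intro a
        have hcst : ev ((k + n) * y1 a - dot (Q T1 T2 k m n a) y1) z =
            ev ((k + n) * y1 a - dot (Q T1 T2 k m n a) y1) z0 :=
          const_ball hr hb _ (hA _ (hG1 a) (hG2 a)).1 (hA _ (hG1 a) (hG2 a)).2 hz
        have hgen : ∀ w ∈ Metric.ball z0 r, ev ((k + n) * y1 a - dot (Q T1 T2 k m n a) y1) w =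
            H * Y1 w a - H * e a * (e 0 * Y1 w 0 + e 1 * Y1 w 1 + e 2 * Y1 w 2) := by
          intro w hw
          have hwO : w ∈ O := hb hw
          rw [sub_ev _ _ hwO, mul_ev _ _ hwO, ItemSL.dot_ev _ _ hwO, hQz a 0 w hw, hQz a 1 w hw,
            hQz a 2 w hw, hHz w hw, hy1 a w hwO, hy1 0 w hwO, hy1 1 w hwO, hy1 2 w hwO]
          ring
        rw [← hgen z hz, ← hgen z0 (Metric.mem_ball_self hr), hcst]
      ext a
      apply mul_left_cancel₀ hH
      rw [inner3]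
      simp only [PiLp.sub_apply, PiLp.smul_apply, smul_eq_mul]
      linear_combination hG a
  · intro V hVU hVn e' he' hperp
    obtain ⟨z, hz⟩ := hVn
    have hzU : z ∈ Metric.ball z0 r := hVU hz
    have hzO : z ∈ O := hb hzU
    set f : RR O := algebraMap ℝ (RR O) (e' 0) * N 0 + algebraMap ℝ (RR O) (e' 1) * N 1 +
      algebraMap ℝ (RR O) (e' 2) * N 2 with hf
    have hfev : ∀ w ∈ V, e' 0 * ev (N 0) w + e' 1 * ev (N 1) w + e' 2 * ev (N 2) w = 0 := by
      intro w hw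
      have hwU : w ∈ Metric.ball z0 r := hVU hw
      have hwO : w ∈ O := hb hwU
      have e3 := hperp w hw
      rw [inner3] at e3
      have y0 := hYN 0 w hwO
      have y1' := hYN 1 w hwO
      have y2' := hYN 2 w hwO
      rw [hHz w hwU] at y0 y1' y2'
      apply mul_left_cancel₀ hH
      linear_combination (-e' 0) * y0 - e' 1 * y1' - e' 2 * y2' + l * e3
    have hf0 : ev f =ᶠ[nhds z] fun _ => (0 : ℝ) := by
      refine Filter.eventually_of_mem (V.isOpen.mem_nhds hz) fun w hw => ?_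
      have hwO : w ∈ O := hb (hVU hw)
      rw [hf, add_ev _ _ hwO, add_ev _ _ hwO, mul_ev _ _ hwO, mul_ev _ _ hwO, mul_ev _ _ hwO,
        algebraMap_ev _ hwO, algebraMap_ev _ hwO, algebraMap_ev _ hwO]
      exact hfev w hw
    have hfd : fderiv ℝ (ev f) z = 0 := by
      rw [hf0.fderiv_eq]
      simp
    obtain ⟨hb1, hb2⟩ := hB f z hzO hfd
    rw [hf, map_add, map_add, der_c, der_c, der_c, hF.N1, hF.N1, hF.N1] at hb1
    rw [hf, map_add, map_add, der_c, der_c, der_c, hF.N2, hF.N2, hF.N2] at hb2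
    simp only [add_ev _ _ hzO, sub_ev _ _ hzO, mul_ev _ _ hzO, neg_ev _ hzO,
      algebraMap_ev _ hzO] at hb1 hb2
    refine last (t1 := fun a => ev (T1 a) z) (t2 := fun a => ev (T2 a) z)
      (v := fun a => ev (N a) z) (K := ev k z) (L := ev n z) (M := ev m z) hen he' hH ?_ ?_ ?_
      (hfev z hz) ?_ ?_
    · rw [hsum z hzO, hHz z hzU]
    · intro a b
      have e3 : ev (T1 a * T1 b + T2 a * T2 b + N a * N b) z = if a = b then 1 else 0 := by
        rw [hF.full a b]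
        split_ifs
        · exact one_ev hzO
        · exact zero_ev hzO
      rw [add_ev _ _ hzO, add_ev _ _ hzO, mul_ev _ _ hzO, mul_ev _ _ hzO, mul_ev _ _ hzO] at e3
      exact e3
    · intro a b
      rw [← hQz a b z hzU, hQev a b z hzO]
    · linear_combination -hb1
    · linear_combination -hb2

end Pool.Agent.Work.MP_157c12_gt.TT
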