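import Pool.Agent.Work.MP_157c12_gt.Final
import Pool.Agent.Work.MP_157c12_gt.Bd.B05
import Pool.Agent.Work.MP_157c12_gt.TT.ItemSP2
import Pool.Agent.Work.MP_157c12_gt.TT.ItemSL1
import Pool.Agent.Work.MP_157c12_gt.TT.ItemSZ6

/-!
# Surfaces of 2-type: assembly
-/

open scoped Manifold ContDiff RealInnerProductSpace

namespace Pool.Agent.Work.MP_157c12_gt.TT

open Pool.Agent.Work.MP_157c12_gt

theorem pT : ST := sT sN
theorem pSL1 : SL1 := sL1 sF sN pT sP1 sP0 sP2 sU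
theorem pSL : SL := sL sF sN pT sU pSL1
theorem pSMain : SMain := sMain pSL pGM1 gm2 pGM3
theorem pZ3 : SZ3 := sZ3 sF sN pT sZ1 sU
theorem pZ4 : SZ4 := sZ4 sF sN sU pZ3
theorem pZ5 : SZ5 := sZ5 sF sN pT sU pZ3
theorem pZ6 : SZ6 := sZ6 sF sN pT sU pZ3 sZ2
theorem pNull : SNull := sNull pZ4 pZ5 pZ6 pGM1 gm2

end Pool.Agent.Work.MP_157c12_gt.TT
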