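import Pool.Agent.Work.MP_157c12_gt.TT.Defs

/-!
# Surfaces of 2-type in Euclidean 3-space: statements
-/

open TopologicalSpace
open scoped Manifold ContDiff

namespace Pool.Agent.Work.MP_157c12_gt.TT

open Pool.Agent.Work.MP_157c12_gt

/-! ### algebra -/

/-- The orthonormal frame with first vector `c0 ∂0 + c1 ∂1`. -/
def SF : Prop := ∀ (R : Type) [CommRing R] [Algebra ℝ R] (D0 D1 : Derivation ℝ R R)
  (x : Fin 3 → R) (E F G W Wi c0 c1 : R), (∀ f, D0 (D1 f) = D1 (D0 f)) →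
  E = dot (fun a => D0 (x a)) (fun a => D0 (x a)) →
  F = dot (fun a => D0 (x a)) (fun a => D1 (x a)) →
  G = dot (fun a => D1 (x a)) (fun a => D1 (x a)) →
  W ^ 2 = E * G - F ^ 2 → W * Wi = 1 → E * c0 ^ 2 + 2 * F * c0 * c1 + G * c1 ^ 2 = 1 →
  ∃ (e1 e2 : Derivation ℝ R R) (T1 T2 N : Fin 3 → R) (k m l p q : R),
    OFrame e1 e2 x T1 T2 N k m l p q ∧
    (∀ f, e1 f = c0 * D0 f + c1 * D1 f) ∧
    (∀ f, e2 f = Wi * ((E * c0 + F * c1) * D1 f - (F * c0 + G * c1) * D0 f)) ∧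
    (∀ a, N a = Wi * cross (fun a => D0 (x a)) (fun a => D1 (x a)) a) ∧
    ∀ f, lapE e1 e2 p q f = Wi * (D0 (Wi * (G * D0 f - F * D1 f)) + D1 (Wi * (E * D1 f - F * D0 f)))

/-- the Laplace operator of the position vector is normal -/
def SN : Prop := ∀ (R : Type) [CommRing R] [Algebra ℝ R] (e1 e2 : Derivation ℝ R R)
  (x T1 T2 N : Fin 3 → R) (k m l p q : R), OFrame e1 e2 x T1 T2 N k m l p q →
  ∀ a, lapE e1 e2 p q (x a) = (k + l) * N a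

/-- the scalar equations -/
def ST : Prop := ∀ (R : Type) [CommRing R] [Algebra ℝ R] (e1 e2 : Derivation ℝ R R)
  (x T1 T2 N : Fin 3 → R) (k m l p q : R) (a b : ℝ), OFrame e1 e2 x T1 T2 N k m l p q →
  (∀ i, lapE e1 e2 p q (lapE e1 e2 p q (x i)) + algebraMap ℝ R a * lapE e1 e2 p q (x i)
    + algebraMap ℝ R b * x i = 0) →
  TwoT e1 e2 a b k m l p q (e1 (k + l)) (e2 (k + l)) (algebraMap ℝ R (1 / 2) * dot x x) (dot x N)
    (dot x T1) (dot x T2)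

/-- Part 1: the differentials of `h` and `r` are dependent -/
def SP1 : Prop := ∀ (R : Type) [CommRing R] [Algebra ℝ R] (e1 e2 : Derivation ℝ R R)
  (k m l p q h1 r s r1 r2 : R) (a b : ℝ), b ≠ 0 → TwoT e1 e2 a b k m l p q h1 0 r s r1 r2 →
  IsUnit h1 → IsUnit m → (k + l) ^ 2 = 0

/-- the curves orthogonal to the level curves of `h` are geodesics -/
def SP0 : Prop := ∀ (R : Type) [CommRing R] [Algebra ℝ R] [IsReduced R] (e1 e2 : Derivation ℝ R R)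
  (k l p q h1 r s r1 r2 : R) (a b : ℝ), b ≠ 0 → TwoT e1 e2 a b k 0 l p q h1 0 r s r1 r2 →
  IsUnit h1 → p = 0

/-- Part 2: the system of ordinary differential equations has no solutions -/
def SP2 : Prop := ∀ (c d a b : ℝ) (k l q y s w : ℝ → ℝ), c < d → b ≠ 0 →
  (∀ t ∈ Set.Ioo c d, HasDerivAt k (y t + q t * (k t - l t)) t) →
  (∀ t ∈ Set.Ioo c d, HasDerivAt l (-(q t * (k t - l t))) t) →
  (∀ t ∈ Set.Ioo c d, HasDerivAt q (q t ^ 2 + k t * l t) t) →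
  (∀ t ∈ Set.Ioo c d, HasDerivAt w (1 + s t * k t) t) →
  (∀ t ∈ Set.Ioo c d, HasDerivAt s (-(k t * w t)) t) →
  (∀ t ∈ Set.Ioo c d, HasDerivAt y (q t * y t + (k t + l t) * (k t ^ 2 + l t ^ 2)
    - a * (k t + l t) - b * s t) t) →
  (∀ t ∈ Set.Ioo c d, (3 * k t + l t) * y t = b * w t) →
  (∀ t ∈ Set.Ioo c d, -(q t * w t) = 1 + s t * l t) →
  (∀ t ∈ Set.Ioo c d, y t ≠ 0) → False

/-! ### patches -/

/-- the coefficients of the first fundamental form as smooth functions -/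
def SU : Prop := ∀ (O : Opens (E 2)) (X : E 2 → E 3), PatchR O X →
  ∃ (x : Fin 3 → RR O) (W Wi : RR O), (∀ a, ∀ p ∈ O, ev (x a) p = X p a) ∧
    (∀ p ∈ O, 0 < ev W p) ∧ W * Wi = 1 ∧
    W ^ 2 = dot (fun a => dR O 0 (x a)) (fun a => dR O 0 (x a)) *
      dot (fun a => dR O 1 (x a)) (fun a => dR O 1 (x a))
      - dot (fun a => dR O 0 (x a)) (fun a => dR O 1 (x a)) ^ 2 ∧
    ∀ (f : E 2 → ℝ) (g : RR O), (∀ p ∈ O, ev g p = f p) → ∀ p ∈ O, lap X f p =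
      ev (Wi * (dR O 0 (Wi * (dot (fun a => dR O 1 (x a)) (fun a => dR O 1 (x a)) * dR O 0 g
          - dot (fun a => dR O 0 (x a)) (fun a => dR O 1 (x a)) * dR O 1 g))
        + dR O 1 (Wi * (dot (fun a => dR O 0 (x a)) (fun a => dR O 0 (x a)) * dR O 1 g
          - dot (fun a => dR O 0 (x a)) (fun a => dR O 1 (x a)) * dR O 0 g)))) p

/-- the local theorem -/
def SL : Prop := ∀ (O : Opens (E 2)) (X : E 2 → E 3) (a b : ℝ), PatchR O X → Eq4 O X a b → b ≠ 0 →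
  ∀ p ∈ O, fderiv ℝ (fun q => ‖X q‖ ^ 2) p = 0 ∧
    ∀ i, ‖X p‖ ^ 2 * lap X (fun q => X q i) p = -2 * X p i

/-- the local theorem, first step: the mean curvature is constant -/
def SL1 : Prop := ∀ (O : Opens (E 2)) (X : E 2 → E 3) (a b : ℝ), PatchR O X → Eq4 O X a b → b ≠ 0 →
  ∀ (x : Fin 3 → RR O) (W Wi : RR O), (∀ a, ∀ p ∈ O, ev (x a) p = X p a) →
    (∀ p ∈ O, 0 < ev W p) → W * Wi = 1 →
    W ^ 2 = dot (fun a => dR O 0 (x a)) (fun a => dR O 0 (x a)) *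
      dot (fun a => dR O 1 (x a)) (fun a => dR O 1 (x a))
      - dot (fun a => dR O 0 (x a)) (fun a => dR O 1 (x a)) ^ 2 →
    ∀ h : RR O, (∀ p ∈ O, ev h p = ∑ a, lap X (fun q => X q a) p *
      ev (Wi * cross (fun a => dR O 0 (x a)) (fun a => dR O 1 (x a)) a) p) →
    ∀ i, dR O i h = 0

/-! ### the theorem on the manifold -/

/-- the main theorem -/
def SMain : Prop := ∀ (M : Type) [TopologicalSpace M] [ChartedSpace (E 2) M]
  [IsManifold 𝓘(ℝ, E 2) ∞ M] [ConnectedSpace M] (x : M → E 3), SmoothImmersion (V := E 2) x →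
  ∀ (c : E 3) (x1 x2 : M → E 3) (l1 l2 : ℝ),
    ContMDiff 𝓘(ℝ, E 2) 𝓘(ℝ, E 3) ∞ x1 → ContMDiff 𝓘(ℝ, E 2) 𝓘(ℝ, E 3) ∞ x2 →
    (∃ p q, x1 p ≠ x1 q) → (∃ p q, x2 p ≠ x2 q) → l1 ≠ l2 →
    (∀ p, x p = c + x1 p + x2 p) →
    (∀ i, LapEq (n := 2) x (fun p => x1 p i) l1) → (∀ i, LapEq (n := 2) x (fun p => x2 p i) l2) →
    (l1 = 0 ∨ l2 = 0) ∧ ¬ CompactSpace M

end Pool.Agent.Work.MP_157c12_gt.TT
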